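import Pool.Agent.T2H53.CG.N

set_option autoImplicit false

/-! # The exponents -/

open Finset Filter Topology MeasureTheory ProbabilityTheory
open Pool.Agent.T2H32.GM (tlog)

namespace Pool.Agent.T2H53.CG

/-- from power bounds to the limit of the exponents -/
theorem tendsto_of_bounds (R : Set ℕ)
    (hlow : ∀ (r : ℚ) (n : ℕ), 4 * (1 / ((n : ℝ) + 1)) < 2 - r → 5 * (1 / ((n : ℝ) + 1)) < (r : ℝ) - 1 →
      ∀ᶠ x : ℕ in atTop, (x : ℝ) ^ (2 - (r : ℝ) - 4 * (1 / ((n : ℝ) + 1))) ≤ NN R r x)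
    (hup : ∀ (r : ℚ) (n : ℕ), 1 + 2 * (1 / ((n : ℝ) + 1)) < r → (r : ℝ) < 2 →
      ∀ᶠ x : ℕ in atTop, (NN R r x : ℝ) ≤ (x : ℝ) ^ (2 - (r : ℝ) + 4 * (1 / ((n : ℝ) + 1))))
    (c : ℝ) (hc1 : 1 < c) (hc2 : c < 2) :
    Tendsto (fun x : ℕ => Real.log (NN R c x) / Real.log x) atTop (𝓝 (2 - c)) := by
  rw [Metric.tendsto_nhds]
  intro δ hδ
  obtain ⟨r, hr1, hr2⟩ := exists_rat_btwn (show c < min 2 (c + δ / 4) from lt_min hc2 (by linarith))
  obtain ⟨r', hr1', hr2'⟩ := exists_rat_btwn (show max 1 (c - δ / 4) < c from max_lt hc1 (by linarith))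
  have hr3 := hr2.trans_le (min_le_left _ _)
  have hr4 := hr2.trans_le (min_le_right _ _)
  have hr3' := (le_max_left _ _).trans_lt hr1'
  have hr4' := (le_max_right _ _).trans_lt hr1'
  have hmin : 0 < min (min (δ / 16) ((2 - r) / 4)) (min (((r : ℝ) - 1) / 5) (((r' : ℝ) - 1) / 2)) := by
    refine lt_min (lt_min (by positivity) (by linarith)) (lt_min (by linarith) (by linarith))
  obtain ⟨n, hn⟩ := exists_nat_one_div_lt hmin
  have n1 : 1 / ((n : ℝ) + 1) < δ / 16 := hn.trans_le ((min_le_left _ _).trans (min_le_left _ _))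
  have n2 : 1 / ((n : ℝ) + 1) < (2 - r) / 4 := hn.trans_le ((min_le_left _ _).trans (min_le_right _ _))
  have n3 : 1 / ((n : ℝ) + 1) < ((r : ℝ) - 1) / 5 := hn.trans_le ((min_le_right _ _).trans (min_le_left _ _))
  have n4 : 1 / ((n : ℝ) + 1) < ((r' : ℝ) - 1) / 2 := hn.trans_le ((min_le_right _ _).trans (min_le_right _ _))
  filter_upwards [hlow r n (by linarith) (by linarith), hup r' n (by linarith) (by linarith),
    tlog.eventually_gt_atTop 0, eventually_ge_atTop 1] with x h1 h2 h3 h4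
  have hx0 : (0 : ℝ) < x := by exact_mod_cast h4
  set ρ := 1 / ((n : ℝ) + 1) with hρ
  have h5 : (NN R r x : ℝ) ≤ NN R c x := by exact_mod_cast NN_mono_c R c r hr1.le x
  have h6 : (NN R c x : ℝ) ≤ NN R r' x := by exact_mod_cast NN_mono_c R r' c hr2'.le x
  have h7 : (x : ℝ) ^ (2 - (r : ℝ) - 4 * ρ) ≤ NN R c x := h1.trans h5
  have h8 : (NN R c x : ℝ) ≤ (x : ℝ) ^ (2 - (r' : ℝ) + 4 * ρ) := h6.trans h2
  have hN0 : (0 : ℝ) < NN R c x := lt_of_lt_of_le (by positivity) h7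
  have h9 := Real.log_le_log (by positivity) h7
  have h10 := Real.log_le_log hN0 h8
  rw [Real.log_rpow hx0] at h9 h10
  rw [Real.dist_eq, abs_lt]
  constructor
  · rw [lt_sub_iff_add_lt, lt_div_iff₀ h3]
    refine lt_of_lt_of_le ?_ h9
    exact mul_lt_mul_of_pos_right (by linarith) h3
  · rw [sub_lt_iff_lt_add, div_lt_iff₀ h3]
    refine lt_of_le_of_lt h10 ?_
    exact mul_lt_mul_of_pos_right (by linarith) h3

open Classical in
/-- prime moduli up to `x` with ratio not near `1` -/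
noncomputable def FF (R : Set ℕ) (ε : ℝ) (x : ℕ) : ℕ :=
  ((Icc 1 x).filter fun d => d.Prime ∧ ε ≤ |ratio R d - 1|).card

section

variable (T : ℕ → ℕ) (hT : Monotone T)
  (hlog : Tendsto (fun n : ℕ => Real.log (T n) / Real.log n) atTop (𝓝 0))
  (hll : Tendsto (fun k : ℕ => Real.log (T k) / Real.log (Real.log k)) atTop (𝓝 0))
  {Ω : Type*} [MeasurableSpace Ω] {μ : Measure Ω} [IsProbabilityMeasure μ] {S : ℕ → Set Ω}

include hT hlog in
/-- all the prime moduli have a large ratio -/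
theorem all_low (hm : ∀ n, MeasurableSet (S n)) (hi : iIndepSet S μ) (hp : ∀ n, μ.real (S n) = q T n) :
    ∀ᵐ ω ∂μ, ∀ c : ℝ, c < 1 → ∀ᶠ d : ℕ in atTop, d.Prime → c < ratio {n | ω ∈ S n} d := by
  have h1 : ∀ k : ℕ, ∀ᵐ ω ∂μ, ∀ᶠ d : ℕ in atTop, d.Prime → 1 - 1 / ((k : ℝ) + 2) < ratio {n | ω ∈ S n} d := by
    intro k
    have hk : 0 < 1 / ((k : ℝ) + 2) := by positivity
    have hk1 : 1 / ((k : ℝ) + 2) ≤ 1 / 2 :=
      one_div_le_one_div_of_le (by norm_num) (by linarith [(Nat.cast_nonneg k : (0 : ℝ) ≤ k)])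
    set c : ℝ := 1 - 1 / ((k : ℝ) + 2) with hc
    have hc0 : 0 < c := by linarith
    exact P1 T hm hi hp (all_classes T hlog hm hi hp) c (1 - 1 * c - (1 - c) / 2) (by linarith) (by
      filter_upwards [low1 T hT hlog c ((1 - c) / 2) hc0 (by linarith) (by linarith), eventually_ge_atTop 1]
        with d h1 h2 _
      exact h1 _ (yy_le c hc0 d h2))
  rw [← ae_all_iff] at h1
  filter_upwards [h1] with ω hω c hc
  obtain ⟨k, hk⟩ := exists_nat_one_div_lt (show 0 < 1 - c by linarith)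
  filter_upwards [hω k] with d hd hdp
  have h2 := hd hdp
  have h3 : 1 / ((k : ℝ) + 2) ≤ 1 / ((k : ℝ) + 1) :=
    one_div_le_one_div_of_le (by positivity) (by linarith)
  linarith

include hT hlog hll in
/-- **The exponents.** -/
theorem main2 (hm : ∀ n, MeasurableSet (S n)) (hi : iIndepSet S μ) (hp : ∀ n, μ.real (S n) = q T n) :
    ∀ᵐ ω ∂μ, (∀ d a : ℕ, 0 < d → Nat.Coprime a d → ∃ n : ℕ, n % d = a % d ∧ ω ∈ S n) ∧
      (∀ c : ℝ, 1 < c → c < 2 →
        Tendsto (fun x : ℕ => Real.log (NN {n | ω ∈ S n} c x) / Real.log x) atTop (𝓝 (2 - c))) ∧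
      (∀ ε : ℝ, 0 < ε → ε < 1 → ∀ᶠ x : ℕ in atTop, (FF {n | ω ∈ S n} ε x : ℝ) ≤ (x : ℝ) ^ (1 - ε / 2)) := by
  classical
  have hL : ∀ᵐ ω ∂μ, ∀ (r : ℚ) (n : ℕ), 4 * (1 / ((n : ℝ) + 1)) < 2 - r → 5 * (1 / ((n : ℝ) + 1)) < (r : ℝ) - 1 →
      ∀ᶠ x : ℕ in atTop, (x : ℝ) ^ (2 - (r : ℝ) - 4 * (1 / ((n : ℝ) + 1))) ≤ NN {n | ω ∈ S n} r x := by
    rw [ae_all_iff]
    intro r
    rw [ae_all_iff]
    intro n
    have hn : 0 < 1 / ((n : ℝ) + 1) := by positivity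
    by_cases h1 : 4 * (1 / ((n : ℝ) + 1)) < 2 - r
    · by_cases h2 : 5 * (1 / ((n : ℝ) + 1)) < (r : ℝ) - 1
      · filter_upwards [count_low T hT hlog hll hm hi hp r (1 / ((n : ℝ) + 1)) (by linarith) hn h1 h2] with ω hω _ _
        exact hω
      · exact Filter.Eventually.of_forall fun ω _ h => absurd h h2
    · exact Filter.Eventually.of_forall fun ω h => absurd h h1
  have hU : ∀ᵐ ω ∂μ, ∀ (r : ℚ) (n : ℕ), 1 + 2 * (1 / ((n : ℝ) + 1)) < r → (r : ℝ) < 2 →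
      ∀ᶠ x : ℕ in atTop, (NN {n | ω ∈ S n} r x : ℝ) ≤ (x : ℝ) ^ (2 - (r : ℝ) + 4 * (1 / ((n : ℝ) + 1))) := by
    rw [ae_all_iff]
    intro r
    rw [ae_all_iff]
    intro n
    have hn : 0 < 1 / ((n : ℝ) + 1) := by positivity
    by_cases h1 : 1 + 2 * (1 / ((n : ℝ) + 1)) < r
    · by_cases h2 : (r : ℝ) < 2
      · filter_upwards [count_up T hT hlog hll hm hi hp r (1 / ((n : ℝ) + 1)) hn h1 h2] with ω hω _ _
        exact hω
      · exact Filter.Eventually.of_forall fun ω _ h => absurd h h2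
    · exact Filter.Eventually.of_forall fun ω h => absurd h h1
  filter_upwards [all_classes T hlog hm hi hp, hL, hU, all_low T hT hlog hm hi hp] with ω g1 g2 g3 g4
  have hlim := fun c hc1 hc2 => tendsto_of_bounds {n | ω ∈ S n} g2 g3 c hc1 hc2
  refine ⟨g1, hlim, ?_⟩
  intro ε hε hε1
  obtain ⟨d₀, hd₀⟩ := eventually_atTop.1 (g4 (1 - ε) (by linarith))
  have h1 := (hlim (1 + ε) (by linarith) (by linarith)).eventually_lt_const
    (show 2 - (1 + ε) < 1 - 3 * ε / 4 by linarith)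
  filter_upwards [h1, tlog.eventually_gt_atTop 0, eventually_ge_atTop 1,
    (dpow_atTop (ε / 4) (by positivity)).eventually_ge_atTop 2,
    (dpow_atTop (1 - ε / 2) (by linarith)).eventually_ge_atTop (2 * (d₀ + 1))] with x k1 k2 k3 k4 k5
  have hx0 : (0 : ℝ) < x := by exact_mod_cast k3
  have h2 : FF {n | ω ∈ S n} ε x ≤ NN {n | ω ∈ S n} (1 + ε) x + (d₀ + 1) := by
    have h3 : ((Icc 1 x).filter fun d => d.Prime ∧ ε ≤ |ratio {n | ω ∈ S n} d - 1|) ⊆
        ((Icc 1 x).filter fun d => d.Prime ∧ 1 + ε ≤ ratio {n | ω ∈ S n} d) ∪ range (d₀ + 1) := by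
      intro d hd
      rw [mem_filter] at hd
      obtain ⟨l1, l2, l3⟩ := hd
      rw [mem_union, mem_filter, mem_range]
      by_cases h4 : d < d₀ + 1
      · exact Or.inr h4
      · left
        refine ⟨l1, l2, ?_⟩
        have h5 := hd₀ d (by omega) l2
        rcases abs_cases (ratio {n | ω ∈ S n} d - 1) with h6 | h6
        · linarith [h6.1]
        · linarith [h6.1]
    have h4 := (card_le_card h3).trans (card_union_le _ _)
    rw [card_range] at h4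
    exact h4
  have h3 : (FF {n | ω ∈ S n} ε x : ℝ) ≤ NN {n | ω ∈ S n} (1 + ε) x + (d₀ + 1) := by exact_mod_cast h2
  have h4 : (NN {n | ω ∈ S n} (1 + ε) x : ℝ) ≤ (x : ℝ) ^ (1 - 3 * ε / 4) := by
    rcases Nat.eq_zero_or_pos (NN {n | ω ∈ S n} (1 + ε) x) with h0 | h0
    · rw [h0, Nat.cast_zero]
      positivity
    · have h0' : (0 : ℝ) < NN {n | ω ∈ S n} (1 + ε) x := by exact_mod_cast h0
      rw [div_lt_iff₀ k2] at k1
      rw [← Real.exp_log h0', Real.rpow_def_of_pos hx0]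
      apply Real.exp_le_exp.2
      linarith
  have h5 : (x : ℝ) ^ (1 - 3 * ε / 4) * (x : ℝ) ^ (ε / 4) = (x : ℝ) ^ (1 - ε / 2) := by
    rw [← Real.rpow_add hx0]
    congr 1
    ring
  have h6 : 2 * (x : ℝ) ^ (1 - 3 * ε / 4) ≤ (x : ℝ) ^ (1 - ε / 2) := by
    rw [← h5]
    have : 0 ≤ (x : ℝ) ^ (1 - 3 * ε / 4) := by positivity
    nlinarith
  linarith

end

end Pool.Agent.T2H53.CG
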