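import Pool.Agent.T2H53.CG.J

set_option autoImplicit false

/-! # The conditions on the sieving limit and the final statements -/

open Finset Filter Topology MeasureTheory ProbabilityTheory
open Pool.Agent.T2H32.BF (V V_pos V_anti V_ratio mertens pnt)
open Pool.Agent.T2H32.GM (Rg Vinv_anti level V_le_one tlog one_sub_ge)
open Pool.Agent.T2H53.GW (HF real_compl_HF some_empty_le bc measurable_HF)

namespace Pool.Agent.T2H53.CG

section cond

variable (T : ℕ → ℕ) (hT : Monotone T)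

theorem llog : Tendsto (fun k : ℕ => Real.log (Real.log k)) atTop atTop :=
  Real.tendsto_log_atTop.comp tlog

/-- `log T ≤ ε loglog` in the form `T ≤ log ^ ε` -/
theorem T_of_log (ε : ℝ) (k : ℕ) (hl : 1 ≤ Real.log k)
    (h : Real.log (T k) ≤ ε * Real.log (Real.log k)) : (T k : ℝ) ≤ Real.log k ^ ε := by
  have hl0 : 0 < Real.log k := by linarith
  rcases Nat.eq_zero_or_pos (T k) with h0 | h0
  · rw [h0, Nat.cast_zero]
    positivity
  · have hT0 : (0 : ℝ) < T k := by exact_mod_cast h0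
    rw [← Real.exp_log hT0, Real.rpow_def_of_pos hl0]
    apply Real.exp_le_exp.2
    linarith

theorem log_of_T (ε : ℝ) (k : ℕ) (hl : 1 < Real.log k) (hε : 0 < ε)
    (h : ε * Real.log (Real.log k) ≤ Real.log (T k)) : Real.log k ^ ε ≤ T k := by
  have hl0 : 0 < Real.log k := by linarith
  have hll : 0 < Real.log (Real.log k) := Real.log_pos hl
  have hT0 : 0 < T k := by
    by_contra h0
    have h1 : T k = 0 := by omega
    rw [h1, Nat.cast_zero, Real.log_zero] at h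
    nlinarith
  have hT0' : (0 : ℝ) < T k := by exact_mod_cast hT0
  rw [← Real.exp_log hT0', Real.rpow_def_of_pos hl0]
  apply Real.exp_le_exp.2
  linarith

/-- (C1) -/
theorem C1 (h : ¬ ∀ ε : ℝ, 0 < ε → ∃ᶠ k : ℕ in atTop, Real.log (T k) ≤ ε * Real.log (Real.log k)) :
    ∃ θ : ℝ, 0 < θ ∧ ∀ᶠ d : ℕ in atTop, Real.log d ^ θ ≤ T d := by
  push Not at h
  obtain ⟨ε, hε, h⟩ := h
  refine ⟨ε, hε, ?_⟩
  filter_upwards [h, tlog.eventually_gt_atTop 1] with k h1 h2
  exact log_of_T T ε k h2 hε h1.le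

include hT in
/-- (C2) -/
theorem C2 (h : ∀ ε : ℝ, 0 < ε → ∃ᶠ k : ℕ in atTop, Real.log (T k) ≤ ε * Real.log (Real.log k)) (ξ : ℝ)
    (hξ : 0 < ξ) : ∃ᶠ d : ℕ in atTop, d.Prime ∧ (T (d ^ 2) : ℝ) ≤ Real.log d ^ ξ := by
  rw [frequently_atTop]
  intro N
  have h1 : ∀ᶠ k : ℕ in atTop, 64 * (N + 20) ^ 2 ≤ k ∧ 100 ≤ Real.log k :=
    (eventually_ge_atTop _).and (tlog.eventually_ge_atTop 100)
  obtain ⟨k, hk, hkN, hkl⟩ := ((h (ξ / 2) (by positivity)).and_eventually h1).exists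
  set s := Nat.sqrt k with hs
  have hs1 : s * s ≤ k := Nat.sqrt_le k
  have hs2 : k < (s + 1) * (s + 1) := Nat.lt_succ_sqrt k
  have hs3 : 8 * (N + 20) ≤ s := by
    rw [hs, Nat.le_sqrt]
    calc 8 * (N + 20) * (8 * (N + 20)) = 64 * (N + 20) ^ 2 := by ring
      _ ≤ k := hkN
  obtain ⟨d, hdp, hd1, hd2⟩ := Nat.exists_prime_lt_and_le_two_mul (s / 2) (by omega)
  refine ⟨d, by omega, hdp, ?_⟩
  have hds : d ≤ s := by omega
  have hdk : d ^ 2 ≤ k := by
    calc d ^ 2 = d * d := by ring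
      _ ≤ s * s := Nat.mul_le_mul hds hds
      _ ≤ k := hs1
  have hkd : k < (2 * d) ^ 2 := by
    calc k < (s + 1) * (s + 1) := hs2
      _ ≤ (2 * d) * (2 * d) := Nat.mul_le_mul (by omega) (by omega)
      _ = _ := by ring
  have hd0 : (0 : ℝ) < d := by exact_mod_cast hdp.pos
  have hd20 : (20 : ℝ) ≤ d := by
    have : 20 ≤ d := by omega
    exact_mod_cast this
  have hlk : Real.log k ≤ 2 * Real.log 2 + 2 * Real.log d := by
    have h2 : (k : ℝ) ≤ (2 * d) ^ 2 := by exact_mod_cast hkd.le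
    have hk0 : (0 : ℝ) < k := by
      have : 0 < k := by
        have : 0 < 64 * (N + 20) ^ 2 := by positivity
        omega
      exact_mod_cast this
    have h3 := Real.log_le_log hk0 h2
    rw [Real.log_pow, Real.log_mul (by norm_num) hd0.ne'] at h3
    push_cast at h3
    linarith
  have hl2 := Real.log_two_lt_d9
  have hld : 4 ≤ Real.log d := by linarith
  have h2 : (T k : ℝ) ≤ Real.log k ^ (ξ / 2) := T_of_log T (ξ / 2) k (by linarith) hk
  calc (T (d ^ 2) : ℝ) ≤ T k := by exact_mod_cast hT hdk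
    _ ≤ Real.log k ^ (ξ / 2) := h2
    _ ≤ (Real.log d * Real.log d) ^ (ξ / 2) := by
        apply Real.rpow_le_rpow (by linarith) _ (by positivity)
        nlinarith
    _ = Real.log d ^ ξ := by
        rw [Real.mul_rpow (by linarith) (by linarith), ← Real.rpow_add (by linarith)]
        congr 1
        ring

/-- (C3) -/
theorem C3 (h : Tendsto (fun k : ℕ => Real.log (T k) / Real.log (Real.log k)) atTop (𝓝 0)) (ξ : ℝ)
    (hξ : 0 < ξ) : ∀ᶠ d : ℕ in atTop, (T (d ^ 2) : ℝ) ≤ Real.log d ^ ξ := by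
  have h0 : Tendsto (fun d : ℕ => d ^ 2) atTop atTop := tendsto_pow_atTop (by norm_num)
  have h1 := (h.comp h0).eventually_lt_const (show (0 : ℝ) < ξ / 2 by positivity)
  filter_upwards [h1, tlog.eventually_ge_atTop 4, eventually_ge_atTop 1] with d h1 h2 h3
  simp only [Function.comp_apply] at h1
  have hd0 : (0 : ℝ) < d := by exact_mod_cast h3
  have hl : Real.log ((d ^ 2 : ℕ) : ℝ) = 2 * Real.log d := by
    push_cast
    rw [Real.log_pow]
    push_cast
    ring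
  have hll : 0 < Real.log (Real.log ((d ^ 2 : ℕ) : ℝ)) := by
    rw [hl]
    exact Real.log_pos (by linarith)
  rw [div_lt_iff₀ hll] at h1
  have h4 := T_of_log T (ξ / 2) (d ^ 2) (by rw [hl]; linarith) h1.le
  refine h4.trans ?_
  rw [hl]
  calc (2 * Real.log d) ^ (ξ / 2) ≤ (Real.log d * Real.log d) ^ (ξ / 2) := by
        apply Real.rpow_le_rpow (by linarith) _ (by positivity)
        nlinarith
    _ = Real.log d ^ ξ := by
        rw [Real.mul_rpow (by linarith) (by linarith), ← Real.rpow_add (by linarith)]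
        congr 1
        ring

include hT in
/-- (C4) -/
theorem C4 (h : ¬ Tendsto (fun k : ℕ => Real.log (T k) / Real.log (Real.log k)) atTop (𝓝 0)) :
    ∃ θ : ℝ, 0 < θ ∧ ∃ᶠ D : ℕ in atTop, ∀ d ∈ Ioc D (2 * D), Real.log d ^ θ ≤ T d := by
  rw [Metric.tendsto_nhds] at h
  push Not at h
  obtain ⟨ε, hε, h⟩ := h
  refine ⟨ε / 2, by positivity, ?_⟩
  refine (h.and_eventually ((tlog.eventually_ge_atTop 4).and (eventually_ge_atTop 1))).mono ?_
  rintro D ⟨h1, h2, h3⟩ d hd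
  rw [mem_Ioc] at hd
  have hll : 0 < Real.log (Real.log D) := Real.log_pos (by linarith)
  have hD0 : (0 : ℝ) < D := by exact_mod_cast h3
  rw [dist_zero_right, Real.norm_eq_abs, abs_of_nonneg (div_nonneg (Real.log_natCast_nonneg _) hll.le),
    le_div_iff₀ hll] at h1
  have h4 := log_of_T T ε D (by linarith) hε h1
  have hd0 : (0 : ℝ) < d := by
    have : 0 < d := by omega
    exact_mod_cast this
  have h5 : Real.log d ≤ Real.log D * Real.log D := by
    have h6 : (d : ℝ) ≤ 2 * D := by exact_mod_cast hd.2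
    have h7 := Real.log_le_log hd0 h6
    rw [Real.log_mul (by norm_num) hD0.ne'] at h7
    have := Real.log_two_lt_d9
    nlinarith
  calc Real.log d ^ (ε / 2) ≤ (Real.log D * Real.log D) ^ (ε / 2) :=
        Real.rpow_le_rpow (Real.log_natCast_nonneg d) h5 (by positivity)
    _ = Real.log D ^ ε := by
        rw [Real.mul_rpow (by linarith) (by linarith), ← Real.rpow_add (by linarith)]
        congr 1
        ring
    _ ≤ T D := h4
    _ ≤ T d := by exact_mod_cast hT hd.1.le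

end cond

/-- lower limit of the ratio along the primes -/
noncomputable def lower (R : Set ℕ) : EReal :=
  liminf (fun d => ((ratio R d : ℝ) : EReal)) (atTop ⊓ 𝓟 {d | d.Prime})

/-- upper limit of the ratio along the primes -/
noncomputable def upper (R : Set ℕ) : EReal :=
  limsup (fun d => ((ratio R d : ℝ) : EReal)) (atTop ⊓ 𝓟 {d | d.Prime})

theorem lower_ge (R : Set ℕ) (c : ℝ) (h : ∀ᶠ d : ℕ in atTop, d.Prime → c < ratio R d) : (c : EReal) ≤ lower R := by
  unfold lower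
  refine le_liminf_of_le (by isBoundedDefault) ?_
  rw [eventually_inf_principal]
  filter_upwards [h] with d hd hdp
  exact EReal.coe_le_coe_iff.2 (hd hdp).le

theorem lower_le (R : Set ℕ) (c : ℝ) (h : ∃ᶠ d : ℕ in atTop, d.Prime ∧ ratio R d ≤ c) : lower R ≤ c := by
  unfold lower
  refine liminf_le_of_frequently_le' ?_
  rw [frequently_inf_principal]
  refine h.mono fun d hd => ⟨hd.1, EReal.coe_le_coe_iff.2 hd.2⟩

theorem upper_ge (R : Set ℕ) (c : ℝ) (h : ∃ᶠ d : ℕ in atTop, d.Prime ∧ c < ratio R d) : (c : EReal) ≤ upper R := by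
  unfold upper
  refine le_limsup_of_frequently_le' ?_
  rw [frequently_inf_principal]
  refine h.mono fun d hd => ⟨hd.1, EReal.coe_le_coe_iff.2 hd.2.le⟩

theorem upper_le (R : Set ℕ) (c : ℝ) (h : ∀ᶠ d : ℕ in atTop, d.Prime → ratio R d ≤ c) : upper R ≤ c := by
  unfold upper
  refine limsup_le_of_le (by isBoundedDefault) ?_
  rw [eventually_inf_principal]
  filter_upwards [h] with d hd hdp
  exact EReal.coe_le_coe_iff.2 (hd hdp)

theorem coe2 : ((2 : ℝ) : EReal) = 2 := by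
  have : ((2 : ℝ) : EReal) = ((1 : ℝ) : EReal) + ((1 : ℝ) : EReal) := by
    rw [← EReal.coe_add]; norm_num
  rw [this, EReal.coe_one]
  exact one_add_one_eq_two

/-- limits of a sequence of bounds -/
theorem ge_of_seq (x : EReal) (a : ℝ) (h : ∀ k : ℕ, ((a - 1 / ((k : ℝ) + 2) : ℝ) : EReal) ≤ x) : (a : EReal) ≤ x := by
  by_contra hcon
  push Not at hcon
  obtain ⟨r, hr1, hr2⟩ := EReal.lt_iff_exists_real_btwn.1 hcon
  have hr : r < a := EReal.coe_lt_coe_iff.1 hr2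
  obtain ⟨k, hk⟩ := exists_nat_one_div_lt (show 0 < a - r by linarith)
  have h1 := (h k).trans_lt hr1
  have h2 := EReal.coe_lt_coe_iff.1 h1
  have h3 : 1 / ((k : ℝ) + 2) ≤ 1 / ((k : ℝ) + 1) := by
    exact one_div_le_one_div_of_le (by positivity) (by linarith)
  linarith

theorem le_of_seq (x : EReal) (a : ℝ) (h : ∀ k : ℕ, x ≤ ((a + 1 / ((k : ℝ) + 1) : ℝ) : EReal)) : x ≤ (a : EReal) := by
  by_contra hcon
  push Not at hcon
  obtain ⟨r, hr1, hr2⟩ := EReal.lt_iff_exists_real_btwn.1 hcon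
  have hr : a < r := EReal.coe_lt_coe_iff.1 hr1
  obtain ⟨k, hk⟩ := exists_nat_one_div_lt (show 0 < r - a by linarith)
  have h1 := hr2.trans_le (h k)
  have h2 := EReal.coe_lt_coe_iff.1 h1
  linarith

section main

variable (T : ℕ → ℕ) (hT : Monotone T)
  (hlog : Tendsto (fun n : ℕ => Real.log (T n) / Real.log n) atTop (𝓝 0))
  {Ω : Type*} [MeasurableSpace Ω] {μ : Measure Ω} [IsProbabilityMeasure μ] {S : ℕ → Set Ω}

include hT hlog

theorem lowA (hm : ∀ n, MeasurableSet (S n)) (hi : iIndepSet S μ) (hp : ∀ n, μ.real (S n) = q T n) :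
    ∀ᵐ ω ∂μ, (1 : EReal) ≤ lower {n | ω ∈ S n} := by
  have h1 : ∀ k : ℕ, ∀ᵐ ω ∂μ, ((1 - 1 / ((k : ℝ) + 2) : ℝ) : EReal) ≤ lower {n | ω ∈ S n} := by
    intro k
    have hk : 0 < 1 / ((k : ℝ) + 2) := by positivity
    have hk1 : 1 / ((k : ℝ) + 2) ≤ 1 / 2 :=
      one_div_le_one_div_of_le (by norm_num) (by linarith [(Nat.cast_nonneg k : (0 : ℝ) ≤ k)])
    set c : ℝ := 1 - 1 / ((k : ℝ) + 2) with hc
    have hc0 : 0 < c := by linarith
    have h2 := P1 T hm hi hp (all_classes T hlog hm hi hp) c (1 - 1 * c - (1 - c) / 2) (by linarith) (by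
      filter_upwards [low1 T hT hlog c ((1 - c) / 2) hc0 (by linarith) (by linarith), eventually_ge_atTop 1]
        with d h1 h2 _
      exact h1 _ (yy_le c hc0 d h2))
    filter_upwards [h2] with ω hω
    exact lower_ge _ c hω
  rw [← ae_all_iff] at h1
  filter_upwards [h1] with ω hω
  have := ge_of_seq _ 1 hω
  simpa using this

theorem lowB (hm : ∀ n, MeasurableSet (S n)) (hi : iIndepSet S μ) (hp : ∀ n, μ.real (S n) = q T n)
    (θ : ℝ) (hθ : 0 < θ) (h : ∀ᶠ d : ℕ in atTop, Real.log d ^ θ ≤ T d) :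
    ∃ c : ℝ, 1 < c ∧ ∀ᵐ ω ∂μ, (c : EReal) ≤ lower {n | ω ∈ S n} := by
  obtain ⟨κ, hκ0, hκ1, hκ⟩ := low2 T hT hlog θ hθ
  have h1 : 1 < 1 / κ := by rw [lt_div_iff₀ hκ0]; linarith
  have h2 : κ * (1 / κ) = 1 := by field_simp
  refine ⟨(1 + 1 / κ) / 2, by linarith, ?_⟩
  set c : ℝ := (1 + 1 / κ) / 2 with hc
  have hc0 : 0 < c := by linarith
  have hκc : κ * c = (κ + 1) / 2 := by rw [hc]; nlinarith
  have h3 := P1 T hm hi hp (all_classes T hlog hm hi hp) c (1 - κ * c - (1 - κ) / 4) (by rw [hκc]; linarith) (by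
    filter_upwards [hκ c ((1 - κ) / 4) hc0 (by linarith) (by linarith), eventually_ge_atTop 1, h]
      with d h1 h2 h3 _
    exact h1 h3 _ (yy_le c hc0 d h2))
  filter_upwards [h3] with ω hω
  exact lower_ge _ c hω

theorem lowC (hm : ∀ n, MeasurableSet (S n)) (hi : iIndepSet S μ) (hp : ∀ n, μ.real (S n) = q T n)
    (h : ∀ ε : ℝ, 0 < ε → ∃ᶠ k : ℕ in atTop, Real.log (T k) ≤ ε * Real.log (Real.log k)) :
    ∀ᵐ ω ∂μ, lower {n | ω ∈ S n} ≤ (1 : EReal) := by
  have h1 : ∀ k : ℕ, ∀ᵐ ω ∂μ, lower {n | ω ∈ S n} ≤ ((1 + 1 / ((k : ℝ) + 1) : ℝ) : EReal) := by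
    intro k
    have hk : 0 < 1 / ((k : ℝ) + 1) := by positivity
    set c : ℝ := 1 + 1 / ((k : ℝ) + 1) with hc
    have hc0 : 0 < c := by linarith
    obtain ⟨ξ, hξ, hsum⟩ := sum_class T hT hlog c ((c - 1) / 2) hc0 (by linarith)
    have h2 := P4 T hm hi hp c (c - (c - 1) / 2) hc0 (by linarith) (by
      refine ((C2 T hT h ξ hξ).and_eventually (hsum.and (eventually_ge_atTop 1))).mono ?_
      rintro d ⟨⟨h1, h2⟩, h3, h4⟩
      refine ⟨h1, fun a ha1 had => h3 h1 h2 a ha1 had _ (yy_le c hc0 d h4) ?_⟩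
      exact Nat.lt_floor_add_one _)
    filter_upwards [h2] with ω hω
    exact lower_le _ c hω
  rw [← ae_all_iff] at h1
  filter_upwards [h1] with ω hω
  have := le_of_seq _ 1 hω
  simpa using this

theorem upA (hm : ∀ n, MeasurableSet (S n)) (hi : iIndepSet S μ) (hp : ∀ n, μ.real (S n) = q T n) :
    ∀ᵐ ω ∂μ, (2 : EReal) ≤ upper {n | ω ∈ S n} := by
  have h1 : ∀ k : ℕ, ∀ᵐ ω ∂μ, ((2 - 1 / ((k : ℝ) + 2) : ℝ) : EReal) ≤ upper {n | ω ∈ S n} := by
    intro k
    have hk : 0 < 1 / ((k : ℝ) + 2) := by positivity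
    have hk1 : 1 / ((k : ℝ) + 2) ≤ 1 / 2 :=
      one_div_le_one_div_of_le (by norm_num) (by linarith [(Nat.cast_nonneg k : (0 : ℝ) ≤ k)])
    set c : ℝ := 2 - 1 / ((k : ℝ) + 2) with hc
    have hc0 : 0 < c := by linarith
    have h2 := P2 T hlog hm hi hp (all_classes T hlog hm hi hp) c (1 - 1 * c - (2 - c) / 2) hc0 (by linarith) (by
      have h3 := (low1 T hT hlog c ((2 - c) / 2) hc0 (by linarith) (by linarith)).and (eventually_ge_atTop 1)
      rw [eventually_atTop] at h3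
      obtain ⟨N, hN⟩ := h3
      refine Eventually.frequently ?_
      filter_upwards [eventually_ge_atTop N] with D hD d hd _
      rw [mem_Ioc] at hd
      obtain ⟨h4, h5⟩ := hN d (by omega)
      exact h4 _ (yy_le c hc0 d h5))
    filter_upwards [h2] with ω hω
    exact upper_ge _ c hω
  rw [← ae_all_iff] at h1
  filter_upwards [h1] with ω hω
  have := ge_of_seq _ 2 hω
  rwa [coe2] at this

theorem upB (hm : ∀ n, MeasurableSet (S n)) (hi : iIndepSet S μ) (hp : ∀ n, μ.real (S n) = q T n)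
    (θ : ℝ) (hθ : 0 < θ) (h : ∃ᶠ D : ℕ in atTop, ∀ d ∈ Ioc D (2 * D), Real.log d ^ θ ≤ T d) :
    ∃ c : ℝ, 2 < c ∧ ∀ᵐ ω ∂μ, (c : EReal) ≤ upper {n | ω ∈ S n} := by
  obtain ⟨κ, hκ0, hκ1, hκ⟩ := low2 T hT hlog θ hθ
  have h1 : 1 < 1 / κ := by rw [lt_div_iff₀ hκ0]; linarith
  have h2 : κ * (1 / κ) = 1 := by field_simp
  refine ⟨1 + 1 / κ, by linarith, ?_⟩
  set c : ℝ := 1 + 1 / κ with hc
  have hc0 : 0 < c := by linarith
  have hκc : κ * c = κ + 1 := by rw [hc]; nlinarith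
  have h3 := P2 T hlog hm hi hp (all_classes T hlog hm hi hp) c (1 - κ * c - (1 - κ) / 2) hc0
    (by rw [hκc]; linarith) (by
      have h3 := (hκ c ((1 - κ) / 2) hc0 (by linarith) (by linarith)).and (eventually_ge_atTop 1)
      rw [eventually_atTop] at h3
      obtain ⟨N, hN⟩ := h3
      refine (h.and_eventually (eventually_ge_atTop N)).mono ?_
      rintro D ⟨h6, hD⟩ d hd _
      have hd' := mem_Ioc.1 hd
      obtain ⟨h4, h5⟩ := hN d (by omega)
      exact h4 (h6 d hd) _ (yy_le c hc0 d h5))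
  filter_upwards [h3] with ω hω
  exact upper_ge _ c hω

theorem upC (hm : ∀ n, MeasurableSet (S n)) (hi : iIndepSet S μ) (hp : ∀ n, μ.real (S n) = q T n)
    (h : Tendsto (fun k : ℕ => Real.log (T k) / Real.log (Real.log k)) atTop (𝓝 0)) :
    ∀ᵐ ω ∂μ, upper {n | ω ∈ S n} ≤ (2 : EReal) := by
  have h1 : ∀ k : ℕ, ∀ᵐ ω ∂μ, upper {n | ω ∈ S n} ≤ ((2 + 1 / ((k : ℝ) + 1) : ℝ) : EReal) := by
    intro k
    have hk : 0 < 1 / ((k : ℝ) + 1) := by positivity
    set c : ℝ := 2 + 1 / ((k : ℝ) + 1) with hc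
    have hc0 : 0 < c := by linarith
    obtain ⟨ξ, hξ, hsum⟩ := sum_class T hT hlog c ((c - 2) / 2) hc0 (by linarith)
    have h2 := P3 T hm hi hp c (c - (c - 2) / 2) hc0 (by linarith) (by
      filter_upwards [C3 T h ξ hξ, hsum, eventually_ge_atTop 1] with d h2 h3 h4 h1 a ha1 had
      refine h3 h1 h2 a ha1 had _ (yy_le c hc0 d h4) ?_
      exact Nat.lt_floor_add_one _)
    filter_upwards [h2] with ω hω
    exact upper_le _ c hω
  rw [← ae_all_iff] at h1
  filter_upwards [h1] with ω hω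
  have := le_of_seq _ 2 hω
  rwa [coe2] at this

/-- **The two limits.** -/
theorem main (hm : ∀ n, MeasurableSet (S n)) (hi : iIndepSet S μ) (hp : ∀ n, μ.real (S n) = q T n) :
    ∀ᵐ ω ∂μ, (∀ d a : ℕ, 0 < d → Nat.Coprime a d → ∃ n : ℕ, n % d = a % d ∧ ω ∈ S n) ∧
      (1 : EReal) ≤ lower {n | ω ∈ S n} ∧ (lower {n | ω ∈ S n} = 1 ↔
        ∀ ε : ℝ, 0 < ε → ∃ᶠ k : ℕ in atTop, Real.log (T k) ≤ ε * Real.log (Real.log k)) ∧
      (2 : EReal) ≤ upper {n | ω ∈ S n} ∧ (upper {n | ω ∈ S n} = 2 ↔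
        Tendsto (fun k : ℕ => Real.log (T k) / Real.log (Real.log k)) atTop (𝓝 0)) := by
  have hL : ∀ᵐ ω ∂μ, (lower {n | ω ∈ S n} = 1 ↔
        ∀ ε : ℝ, 0 < ε → ∃ᶠ k : ℕ in atTop, Real.log (T k) ≤ ε * Real.log (Real.log k)) := by
    by_cases h : ∀ ε : ℝ, 0 < ε → ∃ᶠ k : ℕ in atTop, Real.log (T k) ≤ ε * Real.log (Real.log k)
    · filter_upwards [lowA T hT hlog hm hi hp, lowC T hT hlog hm hi hp h] with ω h1 h2
      exact ⟨fun _ => h, fun _ => le_antisymm h2 h1⟩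
    · obtain ⟨θ, hθ, h1⟩ := C1 T h
      obtain ⟨c, hc, h2⟩ := lowB T hT hlog hm hi hp θ hθ h1
      filter_upwards [h2] with ω h2
      refine ⟨fun h3 => ?_, fun h3 => absurd h3 h⟩
      rw [h3] at h2
      have : c ≤ 1 := by exact_mod_cast h2
      linarith
  have hU : ∀ᵐ ω ∂μ, (upper {n | ω ∈ S n} = 2 ↔
        Tendsto (fun k : ℕ => Real.log (T k) / Real.log (Real.log k)) atTop (𝓝 0)) := by
    by_cases h : Tendsto (fun k : ℕ => Real.log (T k) / Real.log (Real.log k)) atTop (𝓝 0)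
    · filter_upwards [upA T hT hlog hm hi hp, upC T hT hlog hm hi hp h] with ω h1 h2
      exact ⟨fun _ => h, fun _ => le_antisymm h2 h1⟩
    · obtain ⟨θ, hθ, h1⟩ := C4 T hT h
      obtain ⟨c, hc, h2⟩ := upB T hT hlog hm hi hp θ hθ h1
      filter_upwards [h2] with ω h2
      refine ⟨fun h3 => ?_, fun h3 => absurd h3 h⟩
      rw [h3, ← coe2] at h2
      have : c ≤ 2 := EReal.coe_le_coe_iff.1 h2
      linarith
  filter_upwards [all_classes T hlog hm hi hp, lowA T hT hlog hm hi hp, upA T hT hlog hm hi hp, hL, hU]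
    with ω h1 h2 h3 h4 h5
  exact ⟨h1, h2, h4, h3, h5⟩

end main

end Pool.Agent.T2H53.CG
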