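import Pool.Agent.T2H32.GM.Mod

set_option autoImplicit false

/-! # The fundamental lemma for the primes in `(t, T]`, in intervals and in progressions -/

open Finset Filter Topology
open Pool.Agent.T2H32.BF (V V_pos V_anti V_ratio mertens)
open Pool.Agent.T2H32.GM (Rg Jf J1 J2 J3 cls2 Vinv_anti level)

namespace Pool.Agent.T2H53.CG

/-- `n` has no prime factor in `(t, T]` -/
def R2 (t T n : ℕ) : Prop := ∀ p ≤ T, t < p → p.Prime → ¬ p ∣ n

instance (t T n : ℕ) : Decidable (R2 t T n) := by unfold R2; infer_instance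

/-- the product of the primes in `(t, z]` -/
def Qr (t z : ℕ) : ℕ := ∏ p ∈ (Ioc t z).filter Nat.Prime, p

theorem Qr_pos (t z : ℕ) : 0 < Qr t z := prod_pos fun _ hp => (mem_filter.1 hp).2.pos

theorem Qr_factors (t z : ℕ) : (Qr t z).primeFactors = (Ioc t z).filter Nat.Prime :=
  Nat.primeFactors_prod fun _ hp => (mem_filter.1 hp).2

theorem Qr_totient (t z : ℕ) : ((Qr t z).totient : ℝ) =
    Qr t z * ∏ p ∈ (Ioc t z).filter Nat.Prime, (1 - 1 / (p : ℝ)) := by
  have h := Nat.totient_eq_mul_prod_factors (Qr t z)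
  rw [Qr_factors] at h
  have h1 : (((Qr t z).totient : ℚ) : ℝ) =
      (((Qr t z : ℚ) * ∏ p ∈ (Ioc t z).filter Nat.Prime, (1 - (p : ℚ)⁻¹) : ℚ) : ℝ) := by
    rw [h]
  push_cast at h1
  rw [h1]
  simp only [one_div]

theorem Qr_le (t z C : ℕ) (h : z ≤ C) : Qr t z ≤ primorial C := by
  unfold Qr primorial
  refine prod_le_prod_of_subset_of_one_le' ?_ fun p hp _ => (mem_filter.1 hp).2.one_le
  intro p hp
  rw [mem_filter, mem_Ioc] at hp
  rw [mem_filter, mem_range]
  exact ⟨by omega, hp.2⟩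

theorem prime_dvd_Qr {t z p : ℕ} (hp : p.Prime) : p ∣ Qr t z ↔ t < p ∧ p ≤ z := by
  constructor
  · intro h
    have h1 : p ∈ (Qr t z).primeFactors := by
      rw [Nat.mem_primeFactors]
      exact ⟨hp, h, (Qr_pos t z).ne'⟩
    rw [Qr_factors, mem_filter, mem_Ioc] at h1
    exact h1.1
  · rintro ⟨h1, h2⟩
    exact dvd_prod_of_mem _ (by rw [mem_filter, mem_Ioc]; exact ⟨⟨h1, h2⟩, hp⟩)

/-- **Fundamental lemma** for the primes in `(t, T]`, in intervals. -/
theorem fl_int : ∃ C0 : ℕ, 1 ≤ C0 ∧ ∀ b : ℕ, C0 ≤ b → ∃ K : ℝ, 0 < K ∧ ∀ t T k y : ℕ, 1 ≤ T → t ≤ T →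
    |(((Ioc k (k + y)).filter (R2 t T)).card : ℝ) - V T / V t * y| ≤
      (1 / 2 : ℝ) ^ b * (V T / V t * y) + K * (T : ℝ) ^ (4 * C0 * b + 1) := by
  obtain ⟨C0, hC0, hfl⟩ := Pool.Agent.TH882.FL.fl1 1
  refine ⟨C0, hC0, fun b hb => ⟨(primorial C0 : ℝ) * (3 * 4 ^ (2 * C0 * b)), ?_, ?_⟩⟩
  · have := primorial_pos C0
    positivity
  intro t T k y hT htT
  set z1 := min C0 T with hz1
  set Q := Qr t z1 with hQ
  have hQ0 : 0 < Q := Qr_pos t z1
  set P := (Ioc (max t z1) T).filter Nat.Prime with hP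
  have hPz : ∀ p ∈ P, p.Prime ∧ C0 < p ∧ p ≤ 2 ^ 2 ^ Jf T := by
    intro p hp
    rw [hP, mem_filter, mem_Ioc] at hp
    refine ⟨hp.2, ?_, hp.1.2.trans (J1 T)⟩
    have := (le_max_right t z1).trans_lt hp.1.1
    rw [hz1] at this
    rcases min_lt_iff.1 this with h | h
    · exact h
    · omega
  have hPQ : ∀ p ∈ P, p.Coprime Q := by
    intro p hp
    rw [hP, mem_filter, mem_Ioc] at hp
    rw [hp.2.coprime_iff_not_dvd]
    intro hdvd
    rw [hQ, prime_dvd_Qr hp.2] at hdvd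
    have := (le_max_right t z1).trans_lt hp.1.1
    omega
  have hmain : ∀ a : ℕ, |((((Ioc k (k + y)).filter (fun n => n ≡ a [MOD Q])).filter
      (fun n => ∀ p ∈ P, n % p ∉ ({0} : Finset ℕ))).card : ℝ) -
        (y / Q) * ∏ p ∈ P, (1 - 1 / (p : ℝ))| ≤
      (1 / 2 : ℝ) ^ b * ((y / Q) * ∏ p ∈ P, (1 - 1 / (p : ℝ))) +
        ((Jf T : ℝ) + 2) * (((2 ^ 2 ^ Jf T : ℕ) : ℝ) ^ (C0 * b)) ^ 2 := by
    intro a
    have h := hfl b (Jf T) C0 P (fun _ => {0}) hb le_rfl hPz (fun p _ => by simp)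
      ((Ioc k (k + y)).filter (fun n => n ≡ a [MOD Q])) (y / Q) (by positivity) ?_
    · simpa using h
    · intro T' hT' c hc
      have hc0 : ∀ p ∈ T', c p = 0 := fun p hp => by simpa using hc p hp
      have hprime : ∀ p ∈ T', p.Prime := fun p hp => (hPz p (hT' hp)).1
      have e : ((Ioc k (k + y)).filter (fun n => n ≡ a [MOD Q])).filter (fun n => ∀ p ∈ T', n % p = c p) =
          (Ioc k (k + y)).filter (fun n => n ≡ a [MOD Q] ∧ (∏ p ∈ T', p) ∣ n) := by
        rw [filter_filter]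
        refine filter_congr fun n _ => ?_
        refine and_congr_right fun _ => ?_
        constructor
        · intro h1
          refine Finset.prod_primes_dvd n (fun p hp => (hprime p hp).prime) fun p hp => ?_
          exact Nat.dvd_of_mod_eq_zero ((h1 p hp).trans (hc0 p hp))
        · intro h1 p hp
          rw [hc0 p hp]
          exact Nat.mod_eq_zero_of_dvd ((dvd_prod_of_mem _ hp).trans h1)
      rw [e]
      have hD : 0 < ∏ p ∈ T', p := prod_pos fun p hp => (hprime p hp).pos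
      have := cls2 Q (∏ p ∈ T', p) hQ0 hD
        (Nat.Coprime.symm (Nat.Coprime.prod_left fun p hp => hPQ p (hT' hp))) a k y
      push_cast at this
      exact this
  have hcount : ((Ioc k (k + y)).filter (R2 t T)).card =
      ∑ a ∈ (range Q).filter (Nat.Coprime Q), ((((Ioc k (k + y)).filter (fun n => n ≡ a [MOD Q])).filter
      (fun n => ∀ p ∈ P, n % p ∉ ({0} : Finset ℕ))).card) := by
    rw [card_eq_sum_card_fiberwise (f := fun n => n % Q) (t := (range Q).filter (Nat.Coprime Q))]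
    · refine sum_congr rfl fun a ha => ?_
      rw [mem_filter, mem_range] at ha
      congr 1
      ext n
      simp only [mem_filter, mem_singleton]
      constructor
      · rintro ⟨⟨h1, h2⟩, h3⟩
        refine ⟨⟨h1, ?_⟩, ?_⟩
        · rw [Nat.ModEq, h3, Nat.mod_eq_of_lt ha.1]
        · intro p hp h4
          rw [hP, mem_filter, mem_Ioc] at hp
          exact h2 p hp.1.2 ((le_max_left _ _).trans_lt hp.1.1) hp.2 (Nat.dvd_of_mod_eq_zero h4)
      · rintro ⟨⟨h1, h2⟩, h3⟩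
        have h4 : n % Q = a := by
          rw [Nat.ModEq, Nat.mod_eq_of_lt ha.1] at h2
          exact h2
        refine ⟨⟨h1, ?_⟩, h4⟩
        intro p hp1 htp hp2 hdvd
        rcases le_or_gt p z1 with h5 | h5
        · have h6 : p ∣ Q := by
            rw [hQ, prime_dvd_Qr hp2]
            exact ⟨htp, h5⟩
          have h7 : p ∣ a := by
            rw [← h4]
            exact (Nat.dvd_mod_iff h6).2 hdvd
          have h8 := Nat.dvd_gcd h6 h7
          rw [ha.2] at h8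
          exact hp2.one_lt.ne' (Nat.dvd_one.1 h8)
        · exact h3 p (by rw [hP, mem_filter, mem_Ioc]; exact ⟨⟨max_lt htp h5, hp1⟩, hp2⟩)
            (Nat.mod_eq_zero_of_dvd hdvd)
    · intro n hn
      rw [mem_coe, mem_filter] at hn
      rw [mem_coe, mem_filter, mem_range]
      refine ⟨Nat.mod_lt _ hQ0, ?_⟩
      have hc : Nat.Coprime Q (n % Q) ↔ Nat.Coprime Q n := by
        unfold Nat.Coprime
        rw [Nat.gcd_comm Q (n % Q), ← Nat.gcd_rec]
      show Nat.Coprime Q (n % Q)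
      rw [hc, hQ]
      unfold Qr
      refine Nat.Coprime.prod_left fun p hp => ?_
      rw [mem_filter, mem_Ioc] at hp
      rw [hp.2.coprime_iff_not_dvd]
      exact hn.2 p (by omega) hp.1.1 hp.2
  have hV : (((range Q).filter (Nat.Coprime Q)).card : ℝ) * ((y / Q) * ∏ p ∈ P, (1 - 1 / (p : ℝ))) =
      V T / V t * y := by
    have h1 : (((range Q).filter (Nat.Coprime Q)).card : ℝ) =
        Q * ∏ p ∈ (Ioc t z1).filter Nat.Prime, (1 - 1 / (p : ℝ)) := by
      rw [← Qr_totient t z1]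
      rfl
    have h3 := V_pos z1
    have h4 := V_pos t
    have hQne : (Q : ℝ) ≠ 0 := by exact_mod_cast hQ0.ne'
    rw [h1]
    rcases le_or_gt t z1 with h | h
    · have h2 := V_ratio z1 T (min_le_right _ _)
      have h5 := V_ratio t z1 h
      rw [hP, max_eq_right h, ← h2, ← h5]
      field_simp
    · have h2 := V_ratio t T htT
      have h5 : (Ioc t z1).filter Nat.Prime = ∅ := by
        rw [Ioc_eq_empty (by omega)]
        rfl
      rw [hP, max_eq_left h.le, ← h2, h5, prod_empty]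
      field_simp
  have hφ : (((range Q).filter (Nat.Coprime Q)).card : ℝ) ≤ primorial C0 := by
    have h1 : ((range Q).filter (Nat.Coprime Q)).card ≤ Q := (card_filter_le _ _).trans (by rw [card_range])
    have h2 : Q ≤ primorial C0 := Qr_le t z1 C0 (min_le_left _ _)
    exact_mod_cast h1.trans h2
  rw [hcount]
  push_cast
  have hsum : |∑ a ∈ (range Q).filter (Nat.Coprime Q), ((((Ioc k (k + y)).filter (fun n => n ≡ a [MOD Q])).filter
      (fun n => ∀ p ∈ P, n % p ∉ ({0} : Finset ℕ))).card : ℝ) - V T / V t * y| ≤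
      ∑ a ∈ (range Q).filter (Nat.Coprime Q), ((1 / 2 : ℝ) ^ b * ((y / Q) * ∏ p ∈ P, (1 - 1 / (p : ℝ))) +
        ((Jf T : ℝ) + 2) * (((2 ^ 2 ^ Jf T : ℕ) : ℝ) ^ (C0 * b)) ^ 2) := by
    rw [← hV, ← nsmul_eq_mul, ← sum_const, ← sum_sub_distrib]
    exact (abs_sum_le_sum_abs _ _).trans (sum_le_sum fun a _ => hmain a)
  refine hsum.trans ?_
  rw [sum_const, nsmul_eq_mul, mul_add, ← mul_assoc, mul_comm _ ((1 / 2 : ℝ) ^ b), mul_assoc, hV]
  refine add_le_add le_rfl ?_
  have h1 : ((Jf T : ℝ) + 2) ≤ 3 * T := by exact_mod_cast J3 T hT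
  have h2 : (((2 ^ 2 ^ Jf T : ℕ) : ℝ)) ≤ 4 * (T : ℝ) ^ 2 := by exact_mod_cast J2 T hT
  have h3 : (((2 ^ 2 ^ Jf T : ℕ) : ℝ) ^ (C0 * b)) ^ 2 ≤ ((4 * (T : ℝ) ^ 2) ^ (C0 * b)) ^ 2 := by gcongr
  calc (((range Q).filter (Nat.Coprime Q)).card : ℝ) * (((Jf T : ℝ) + 2) *
        (((2 ^ 2 ^ Jf T : ℕ) : ℝ) ^ (C0 * b)) ^ 2)
      ≤ primorial C0 * ((3 * T) * ((4 * (T : ℝ) ^ 2) ^ (C0 * b)) ^ 2) := by gcongr
    _ = _ := by
      rw [← pow_mul, mul_pow, ← pow_mul]
      ring

/-- the fundamental lemma, restated -/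
theorem fl2 (ε : ℝ) (hε : 0 < ε) : ∃ B : ℕ, ∃ K : ℝ, 0 < K ∧ ∀ t T k y : ℕ, t ≤ T →
    |(((Ioc k (k + y)).filter (R2 t T)).card : ℝ) - V T / V t * y| ≤
      ε * (V T / V t * y) + K * ((T : ℝ) + 1) ^ B := by
  obtain ⟨C0, hC0, hfl⟩ := fl_int
  obtain ⟨n, hn⟩ := exists_pow_lt_of_lt_one hε (show (1 / 2 : ℝ) < 1 by norm_num)
  obtain ⟨K, hK0, hK⟩ := hfl (max n C0) (le_max_right _ _)
  refine ⟨4 * C0 * (max n C0) + 1, K, hK0, fun t T k y htT => ?_⟩
  have hb : (1 / 2 : ℝ) ^ (max n C0) ≤ ε :=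
    (pow_le_pow_of_le_one (by norm_num) (by norm_num) (le_max_left _ _)).trans hn.le
  rcases Nat.eq_zero_or_pos T with h | h
  · subst h
    have ht : t = 0 := by omega
    subst ht
    have e : (Ioc k (k + y)).filter (R2 0 0) = Ioc k (k + y) := by
      refine filter_true_of_mem fun n _ p hp hp0 => ?_
      omega
    have hV := V_pos 0
    rw [e, Nat.card_Ioc, div_self hV.ne', show k + y - k = y by omega, one_mul, sub_self, abs_zero]
    positivity
  · refine (hK t T k y h htT).trans ?_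
    have hV := V_pos T
    have hV' := V_pos t
    gcongr
    linarith

/-- **Fundamental lemma in progressions**: `b ↦ M b + r` with `M` prime to the primes in `(t, T]`. -/
theorem fl3 (ε : ℝ) (hε : 0 < ε) : ∃ B : ℕ, ∃ K : ℝ, 0 < K ∧ ∀ t T k y M r : ℕ, t ≤ T →
    (∀ p : ℕ, p.Prime → t < p → p ≤ T → ¬ p ∣ M) →
    |(((Ioc k (k + y)).filter (fun b => R2 t T (M * b + r))).card : ℝ) - V T / V t * y| ≤
      ε * (V T / V t * y) + K * ((T : ℝ) + 1) ^ B := by
  obtain ⟨B, K, hK, h⟩ := fl2 ε hε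
  refine ⟨B, K, hK, fun t T k y M r htT hM => ?_⟩
  set N := Qr t T with hN
  have hN0 : 0 < N := Qr_pos t T
  have hcop : Nat.Coprime M N := by
    rw [hN]
    unfold Qr
    refine Nat.Coprime.prod_right fun p hp => ?_
    rw [mem_filter, mem_Ioc] at hp
    exact ((hp.2.coprime_iff_not_dvd).2 (hM p hp.2 hp.1.1 hp.1.2)).symm
  -- `u` with `M u ≡ r` modulo `N`
  obtain ⟨u, hu⟩ : ∃ u : ℕ, M * u ≡ r [MOD N] := by
    rcases Nat.lt_or_ge 1 N with h1 | h1
    · obtain ⟨v, _, hv⟩ := Nat.exists_mul_mod_eq_one_of_coprime hcop h1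
      refine ⟨v * r, ?_⟩
      have h2 : M * v ≡ 1 [MOD N] := by
        rw [Nat.ModEq, hv, Nat.mod_eq_of_lt h1]
      have := h2.mul_right r
      rw [one_mul, mul_assoc] at this
      exact this
    · have : N = 1 := by omega
      rw [this]
      exact ⟨0, Nat.modEq_one⟩
  have hiff : ∀ b, R2 t T (M * b + r) ↔ R2 t T (b + u) := by
    intro b
    unfold R2
    refine forall_congr' fun p => forall_congr' fun hp1 => forall_congr' fun hp2 => forall_congr' fun hp3 => ?_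
    have hpN : p ∣ N := by rw [hN, prime_dvd_Qr hp3]; exact ⟨hp2, hp1⟩
    have h1 : M * u ≡ r [MOD p] := hu.of_dvd hpN
    have h2 : M * (b + u) ≡ M * b + r [MOD p] := by
      rw [mul_add]
      exact h1.add_left _
    rw [not_iff_not]
    rw [← Nat.modEq_zero_iff_dvd, ← Nat.modEq_zero_iff_dvd]
    constructor
    · intro h3
      have h4 : p ∣ M * (b + u) := (Nat.modEq_zero_iff_dvd).1 (h2.trans h3)
      have h5 := (hp3.dvd_mul).1 h4
      rcases h5 with h5 | h5
      · exact absurd h5 (hM p hp3 hp2 hp1)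
      · exact (Nat.modEq_zero_iff_dvd).2 h5
    · intro h3
      have h4 : M * (b + u) ≡ 0 [MOD p] := (Nat.modEq_zero_iff_dvd).2
        (((Nat.modEq_zero_iff_dvd).1 h3).mul_left M)
      exact h2.symm.trans h4
  have hcard : ((Ioc k (k + y)).filter (fun b => R2 t T (M * b + r))).card =
      ((Ioc (k + u) (k + u + y)).filter (R2 t T)).card := by
    refine card_bij (fun b _ => b + u) ?_ ?_ ?_
    · intro b hb
      rw [mem_filter, mem_Ioc] at hb ⊢
      exact ⟨by omega, (hiff b).1 hb.2⟩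
    · intro a _ b _ hab
      omega
    · intro n hn
      rw [mem_filter, mem_Ioc] at hn
      refine ⟨n - u, ?_, by omega⟩
      rw [mem_filter, mem_Ioc]
      refine ⟨by omega, (hiff _).2 ?_⟩
      rw [Nat.sub_add_cancel (by omega)]
      exact hn.2
  rw [hcard]
  exact h t T (k + u) y htT

end Pool.Agent.T2H53.CG
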