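import Pool.Agent.T2H53.CG.A

set_option autoImplicit false

/-! # Sums of the densities over progressions, with a variable sieving limit -/

open Finset Filter Topology
open Pool.Agent.T2H32.BF (V V_pos V_anti V_ratio mertens)
open Pool.Agent.T2H32.GM (Rg Vinv_anti level V_le_one)

namespace Pool.Agent.T2H53.CG

/-- the weight of `n` at the sieving limit `τ` -/
noncomputable def wt (τ n : ℕ) : ℝ := if Rg τ n then (V τ)⁻¹ else 0

theorem wt_nonneg (τ n : ℕ) : 0 ≤ wt τ n := by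
  unfold wt
  have := V_pos τ
  split_ifs <;> positivity

theorem wt_le (τ n : ℕ) : wt τ n ≤ (V τ)⁻¹ := by
  unfold wt
  have := V_pos τ
  split_ifs
  · exact le_rfl
  · positivity

theorem V_zero : V 0 = 1 := by unfold V; rfl

theorem R2_zero (T n : ℕ) : R2 0 T n ↔ Rg T n := by
  constructor
  · intro h p hp hpp
    exact h p hp hpp.pos hpp
  · intro h p hp _ hpp
    exact h p hp hpp

/-- upper bound for the sum over a progression -/
theorem sum_up (ε : ℝ) (hε : 0 < ε) : ∃ B : ℕ, ∃ K : ℝ, 0 < K ∧ ∀ f : ℕ → ℕ, Monotone f →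
    ∀ t M r k m : ℕ, (∀ p : ℕ, p.Prime → t < p → p ≤ f (k + m) → ¬ p ∣ M) →
    ∑ b ∈ Ioc k (k + m), wt (f b) (M * b + r) ≤
      (1 + ε) * m * (V t)⁻¹ + K * ((f (k + m) : ℝ) + 1) ^ B * (V (f (k + m)))⁻¹ := by
  obtain ⟨B, K, hK, hfl⟩ := fl3 ε hε
  refine ⟨B + 1, K, hK, fun f hf t M r k m hM => ?_⟩
  set T' := f (k + m) with hT'
  have hmaps : ∀ j ∈ Ioc k (k + m), f j ∈ range (T' + 1) := by
    intro j hj
    rw [mem_Ioc] at hj
    rw [mem_range]
    have := hf hj.2
    omega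
  rw [← sum_fiberwise_of_maps_to hmaps]
  have hcard := card_eq_sum_card_fiberwise hmaps
  rw [Nat.card_Ioc] at hcard
  have e : k + m - k = m := by omega
  rw [e] at hcard
  have hVT := V_pos T'
  have hVt := V_pos t
  have hterm : ∀ τ ∈ range (T' + 1),
      ∑ j ∈ (Ioc k (k + m)).filter (fun j => f j = τ), wt (f j) (M * j + r) ≤
      (1 + ε) * (((Ioc k (k + m)).filter (fun j => f j = τ)).card : ℝ) * (V t)⁻¹ +
      K * ((T' : ℝ) + 1) ^ B * (V T')⁻¹ := by
    intro τ hτ
    rw [mem_range] at hτ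
    have e1 : ∑ j ∈ (Ioc k (k + m)).filter (fun j => f j = τ), wt (f j) (M * j + r) =
        ∑ j ∈ (Ioc k (k + m)).filter (fun j => f j = τ), wt τ (M * j + r) := by
      refine sum_congr rfl fun j hj => ?_
      rw [mem_filter] at hj
      rw [hj.2]
    rw [e1]
    have hVτ := V_pos τ
    have hpos : 0 ≤ K * ((T' : ℝ) + 1) ^ B * (V T')⁻¹ := by positivity
    rcases le_or_gt τ t with h | h
    · have h1 : ∑ j ∈ (Ioc k (k + m)).filter (fun j => f j = τ), wt τ (M * j + r) ≤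
          ∑ _j ∈ (Ioc k (k + m)).filter (fun j => f j = τ), (V t)⁻¹ :=
        sum_le_sum fun j _ => (wt_le _ _).trans (Vinv_anti _ _ h)
      rw [sum_const, nsmul_eq_mul] at h1
      have h2 : (((Ioc k (k + m)).filter (fun j => f j = τ)).card : ℝ) * (V t)⁻¹ ≤
          (1 + ε) * (((Ioc k (k + m)).filter (fun j => f j = τ)).card : ℝ) * (V t)⁻¹ := by
        gcongr
        have : (0 : ℝ) ≤ (((Ioc k (k + m)).filter (fun j => f j = τ)).card : ℝ) := Nat.cast_nonneg _
        nlinarith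
      linarith
    · unfold wt
      rw [← sum_filter, sum_const, nsmul_eq_mul]
      obtain ⟨a, l, hal⟩ := level f hf k m τ
      rw [hal]
      have h1 := hfl t τ a l M r h.le (fun p hp h1 h2 => hM p hp h1 (h2.trans (by omega)))
      rw [Nat.card_Ioc]
      have e2 : a + l - a = l := by omega
      rw [e2]
      rw [abs_le] at h1
      have hsub : (((Ioc a (a + l)).filter (fun b => Rg τ (M * b + r))).card : ℝ) ≤
          (((Ioc a (a + l)).filter (fun b => R2 t τ (M * b + r))).card : ℝ) := by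
        refine Nat.cast_le.2 (card_le_card ?_)
        intro b hb
        rw [mem_filter] at hb ⊢
        exact ⟨hb.1, fun p hp _ hpp => hb.2 p hp hpp⟩
      have h2 : (((Ioc a (a + l)).filter (fun b => Rg τ (M * b + r))).card : ℝ) ≤
          (1 + ε) * (V τ / V t * l) + K * ((τ : ℝ) + 1) ^ B := by
        linarith [h1.2]
      have h3 := mul_le_mul_of_nonneg_right h2 (inv_nonneg.2 hVτ.le)
      refine h3.trans ?_
      have h4 : ((1 + ε) * (V τ / V t * l) + K * ((τ : ℝ) + 1) ^ B) * (V τ)⁻¹ =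
          (1 + ε) * l * (V t)⁻¹ + K * ((τ : ℝ) + 1) ^ B * (V τ)⁻¹ := by
        field_simp
      rw [h4]
      have h5 : (V τ)⁻¹ ≤ (V T')⁻¹ := Vinv_anti _ _ (by omega)
      have h6 : (τ : ℝ) ≤ T' := by exact_mod_cast (by omega : τ ≤ T')
      have h7 : K * ((τ : ℝ) + 1) ^ B * (V τ)⁻¹ ≤ K * ((T' : ℝ) + 1) ^ B * (V T')⁻¹ := by
        gcongr
      linarith
  refine le_trans (sum_le_sum hterm) ?_
  rw [sum_add_distrib, ← sum_mul, ← mul_sum, sum_const, card_range, nsmul_eq_mul]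
  have h8 : (m : ℝ) = ∑ τ ∈ range (T' + 1), (((Ioc k (k + m)).filter (fun j => f j = τ)).card : ℝ) := by
    exact_mod_cast hcard
  rw [← h8]
  push_cast
  refine le_of_eq ?_
  ring

/-- lower bound for the sum over a progression -/
theorem sum_low (ε : ℝ) (hε : 0 < ε) : ∃ B : ℕ, ∃ K : ℝ, 0 < K ∧ ∀ f : ℕ → ℕ, Monotone f →
    ∀ M r k m : ℕ, (∀ p : ℕ, p.Prime → p ≤ f (k + m) → ¬ p ∣ M) →
    (1 - ε) * m - K * ((f (k + m) : ℝ) + 1) ^ B * (V (f (k + m)))⁻¹ ≤
      ∑ b ∈ Ioc k (k + m), wt (f b) (M * b + r) := by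
  obtain ⟨B, K, hK, hfl⟩ := fl3 ε hε
  refine ⟨B + 1, K, hK, fun f hf M r k m hM => ?_⟩
  set T' := f (k + m) with hT'
  have hmaps : ∀ j ∈ Ioc k (k + m), f j ∈ range (T' + 1) := by
    intro j hj
    rw [mem_Ioc] at hj
    rw [mem_range]
    have := hf hj.2
    omega
  rw [← sum_fiberwise_of_maps_to hmaps]
  have hcard := card_eq_sum_card_fiberwise hmaps
  rw [Nat.card_Ioc] at hcard
  have e : k + m - k = m := by omega
  rw [e] at hcard
  have hterm : ∀ t ∈ range (T' + 1), (1 - ε) * (((Ioc k (k + m)).filter (fun j => f j = t)).card : ℝ) -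
      K * ((T' : ℝ) + 1) ^ B * (V T')⁻¹ ≤
      ∑ j ∈ (Ioc k (k + m)).filter (fun j => f j = t), wt (f j) (M * j + r) := by
    intro t ht
    rw [mem_range] at ht
    have e1 : ∑ j ∈ (Ioc k (k + m)).filter (fun j => f j = t), wt (f j) (M * j + r) =
        ∑ j ∈ (Ioc k (k + m)).filter (fun j => f j = t), wt t (M * j + r) := by
      refine sum_congr rfl fun j hj => ?_
      rw [mem_filter] at hj
      rw [hj.2]
    rw [e1]
    unfold wt
    rw [← sum_filter, sum_const, nsmul_eq_mul]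
    obtain ⟨a, l, hal⟩ := level f hf k m t
    rw [hal]
    have h1 := hfl 0 t a l M r (Nat.zero_le _) (fun p hp _ h2 => hM p hp (h2.trans (by omega)))
    have hV := V_pos t
    rw [Nat.card_Ioc]
    have e2 : a + l - a = l := by omega
    rw [e2]
    have e3 : (Ioc a (a + l)).filter (fun b => R2 0 t (M * b + r)) =
        (Ioc a (a + l)).filter (fun b => Rg t (M * b + r)) :=
      filter_congr fun b _ => R2_zero t _
    rw [e3, V_zero, div_one, abs_le] at h1
    have h2 : (1 - ε) * (V t * l) - K * ((t : ℝ) + 1) ^ B ≤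
        (((Ioc a (a + l)).filter (fun b => Rg t (M * b + r))).card : ℝ) := by
      linarith [h1.1]
    have h3 := mul_le_mul_of_nonneg_right h2 (inv_nonneg.2 hV.le)
    refine le_trans ?_ h3
    have h4 : ((1 - ε) * (V t * l) - K * ((t : ℝ) + 1) ^ B) * (V t)⁻¹ =
        (1 - ε) * l - K * ((t : ℝ) + 1) ^ B * (V t)⁻¹ := by
      field_simp
    rw [h4]
    have h5 : (V t)⁻¹ ≤ (V T')⁻¹ := Vinv_anti _ _ (by omega)
    have h6 : (t : ℝ) ≤ T' := by exact_mod_cast (by omega : t ≤ T')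
    have h7 : K * ((t : ℝ) + 1) ^ B * (V t)⁻¹ ≤ K * ((T' : ℝ) + 1) ^ B * (V T')⁻¹ := by
      have := V_pos T'
      gcongr
    linarith
  refine le_trans ?_ (sum_le_sum hterm)
  rw [sum_sub_distrib, ← mul_sum, sum_const, card_range, nsmul_eq_mul]
  have h8 : (m : ℝ) = ∑ t ∈ range (T' + 1), (((Ioc k (k + m)).filter (fun j => f j = t)).card : ℝ) := by
    exact_mod_cast hcard
  rw [← h8]
  push_cast
  refine le_of_eq ?_
  ring

end Pool.Agent.T2H53.CG
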