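import Pool.Agent.T2H53.CG.B

set_option autoImplicit false

/-! # The probabilities of the model -/

open Finset Filter Topology
open Pool.Agent.T2H32.BF (V V_pos V_anti V_ratio mertens)
open Pool.Agent.T2H32.GM (Rg Vinv_anti level V_le_one tlog)

namespace Pool.Agent.T2H53.CG

/-- probability that `n` is a random prime -/
noncomputable def q (T : ℕ → ℕ) (n : ℕ) : ℝ :=
  if Rg (T n) n then min 1 (1 / (V (T n) * Real.log n)) else 0

theorem q_nonneg (T : ℕ → ℕ) (n : ℕ) : 0 ≤ q T n := by
  unfold q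
  split_ifs with h
  · refine le_min zero_le_one ?_
    have := V_pos (T n)
    have := Real.log_natCast_nonneg n
    positivity
  · exact le_rfl

theorem q_le_one (T : ℕ → ℕ) (n : ℕ) : q T n ≤ 1 := by
  unfold q
  split_ifs with h
  · exact min_le_left _ _
  · exact zero_le_one

theorem q_le_wt (T : ℕ → ℕ) (n : ℕ) (hn : 2 ≤ n) : q T n ≤ wt (T n) n / Real.log n := by
  have hl : 0 < Real.log n := Real.log_pos (by exact_mod_cast hn)
  unfold q wt
  split_ifs with h
  · refine (min_le_right _ _).trans (le_of_eq ?_)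
    have := V_pos (T n)
    field_simp
  · rw [zero_div]

theorem Vinv_lin (z : ℕ) : (V z)⁻¹ ≤ z + 1 := by
  have key : ∀ z : ℕ, 1 / ((z : ℝ) + 1) ≤ V (z + 1) := by
    intro z
    induction z with
    | zero =>
      have : V 1 = V 0 := by
        unfold V
        congr 1
      rw [zero_add, this, V_zero]; norm_num
    | succ n ih =>
      have hn : (0 : ℝ) ≤ n := Nat.cast_nonneg n
      unfold V at ih ⊢
      by_cases hp : (n + 1 + 1).Prime
      · rw [range_add_one, filter_insert, if_pos hp, prod_insert (by simp)]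
        have h1 : (0 : ℝ) ≤ 1 - 1 / ((n + 1 + 1 : ℕ) : ℝ) := by
          have : 1 / ((n + 1 + 1 : ℕ) : ℝ) ≤ 1 := by
            rw [div_le_one (by positivity)]
            push_cast
            linarith
          linarith
        calc 1 / (((n + 1 : ℕ) : ℝ) + 1) = (1 - 1 / ((n + 1 + 1 : ℕ) : ℝ)) * (1 / ((n : ℝ) + 1)) := by
              push_cast
              field_simp
              ring
          _ ≤ _ := by gcongr
      · rw [range_add_one, filter_insert, if_neg hp]
        refine le_trans ?_ ih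
        push_cast
        gcongr
        linarith
  have hV := V_pos z
  rcases Nat.eq_zero_or_pos z with h | h
  · subst h
    rw [V_zero]; norm_num
  · have h1 := key (z - 1)
    rw [Nat.sub_add_cancel h] at h1
    have h2 : (((z - 1 : ℕ) : ℝ) + 1) = z := by
      have : (((z - 1 + 1 : ℕ)) : ℝ) = z := by rw [Nat.sub_add_cancel h]
      push_cast at this
      exact this
    rw [h2] at h1
    have hz : (0 : ℝ) < z := by exact_mod_cast h
    rw [div_le_iff₀ hz] at h1
    rw [inv_le_iff_one_le_mul₀ hV]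
    nlinarith

theorem Vinv_log : ∃ A : ℝ, 1 ≤ A ∧ ∀ z : ℕ, (V z)⁻¹ ≤ A * (1 + Real.log z) := by
  set γ := Real.exp (-Real.eulerMascheroniConstant) with hγ
  have hγ0 : 0 < γ := Real.exp_pos _
  obtain ⟨N, hN⟩ := eventually_atTop.1 (mertens.eventually_const_lt (show γ / 2 < γ by linarith))
  refine ⟨max (2 / γ) (N + 1), le_trans (by linarith [(Nat.cast_nonneg N : (0 : ℝ) ≤ N)]) (le_max_right _ _),
    fun z => ?_⟩
  have hlz : 0 ≤ Real.log z := Real.log_natCast_nonneg z
  have hV := V_pos z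
  rcases le_or_gt N z with h | h
  · have h1 := hN z h
    have h2 : (V z)⁻¹ ≤ 2 / γ * Real.log z := by
      rw [inv_le_iff_one_le_mul₀ hV]
      have : 2 / γ * Real.log z * V z = 2 / γ * (V z * Real.log z) := by ring
      rw [this]
      calc (1 : ℝ) = 2 / γ * (γ / 2) := by field_simp
        _ ≤ _ := by gcongr
    refine h2.trans ?_
    have h3 : 0 < 2 / γ := by positivity
    calc 2 / γ * Real.log z ≤ max (2 / γ) (N + 1) * Real.log z := by gcongr; exact le_max_left _ _
      _ ≤ _ := by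
        have : 0 ≤ max (2 / γ) ((N : ℝ) + 1) := h3.le.trans (le_max_left _ _)
        nlinarith
  · have h1 : (V z)⁻¹ ≤ N + 1 := by
      refine (Vinv_lin z).trans ?_
      have : (z : ℝ) ≤ N := by exact_mod_cast h.le
      linarith
    have h2 : 0 ≤ (N : ℝ) + 1 := by positivity
    calc (V z)⁻¹ ≤ N + 1 := h1
      _ ≤ max (2 / γ) (N + 1) := le_max_right _ _
      _ ≤ _ := by
        have : 0 ≤ max (2 / γ) ((N : ℝ) + 1) := h2.trans (le_max_right _ _)
        nlinarith

section

variable (T : ℕ → ℕ) (hT : Monotone T)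
  (hlog : Tendsto (fun n : ℕ => Real.log (T n) / Real.log n) atTop (𝓝 0))

include hlog in
/-- the probabilities are small -/
theorem Vq_small (η : ℝ) (hη : 0 < η) : ∀ᶠ n : ℕ in atTop, (V (T n))⁻¹ / Real.log n ≤ η := by
  obtain ⟨A, hA1, hA⟩ := Vinv_log
  have hA0 : 0 < A := by linarith
  have h1 := hlog.eventually_lt_const (show (0 : ℝ) < η / (2 * A) by positivity)
  filter_upwards [h1, tlog.eventually_ge_atTop (max 1 (2 * A / η))] with n h1 h2
  have hl : 1 ≤ Real.log n := (le_max_left _ _).trans h2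
  have hl2 : 2 * A / η ≤ Real.log n := (le_max_right _ _).trans h2
  rw [div_le_iff₀ hη] at hl2
  rw [div_lt_iff₀ (by linarith)] at h1
  rw [div_le_iff₀ (by linarith)]
  refine (hA (T n)).trans ?_
  have h3 : A * Real.log (T n) ≤ η / 2 * Real.log n := by
    calc A * Real.log (T n) ≤ A * (η / (2 * A) * Real.log n) := by gcongr
      _ = η / 2 * Real.log n := by field_simp
  nlinarith

include hlog in
theorem q_small (η : ℝ) (hη : 0 < η) : ∀ᶠ n : ℕ in atTop, q T n ≤ η := by
  filter_upwards [Vq_small T hlog η hη, eventually_ge_atTop 2] with n h1 h2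
  have hl : 0 < Real.log n := Real.log_pos (by exact_mod_cast h2)
  refine (q_le_wt T n h2).trans (le_trans ?_ h1)
  gcongr
  exact wt_le _ _

include hlog in
theorem q_eq : ∀ᶠ n : ℕ in atTop, q T n = wt (T n) n / Real.log n := by
  filter_upwards [Vq_small T hlog 1 one_pos, eventually_ge_atTop 2] with n h1 h2
  have hl : 0 < Real.log n := Real.log_pos (by exact_mod_cast h2)
  have hV := V_pos (T n)
  unfold q wt
  split_ifs with h
  · have e : 1 / (V (T n) * Real.log n) = (V (T n))⁻¹ / Real.log n := by field_simp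
    rw [e, min_eq_right h1]
  · rw [zero_div]

include hlog in
/-- the sieving limit is smaller than any power -/
theorem T_pow (ξ : ℝ) (hξ : 0 < ξ) : ∀ᶠ d : ℕ in atTop, (T (d ^ 2) : ℝ) ≤ (d : ℝ) ^ ξ := by
  have h0 : Tendsto (fun d : ℕ => d ^ 2) atTop atTop := tendsto_pow_atTop (by norm_num)
  have h1 := (hlog.comp h0).eventually_lt_const (show (0 : ℝ) < ξ / 2 by positivity)
  filter_upwards [h1, eventually_ge_atTop 2] with d h1 h2
  simp only [Function.comp_apply] at h1
  have hd : (2 : ℝ) ≤ d := by exact_mod_cast h2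
  have hl : 0 < Real.log d := Real.log_pos (by linarith)
  push_cast at h1
  rw [Real.log_pow, div_lt_iff₀ (by positivity)] at h1
  push_cast at h1
  rcases Nat.eq_zero_or_pos (T (d ^ 2)) with h | h
  · rw [h, Nat.cast_zero]
    positivity
  · have hT0 : (0 : ℝ) < T (d ^ 2) := by exact_mod_cast h
    rw [← Real.exp_log hT0, Real.rpow_def_of_pos (by linarith)]
    apply Real.exp_le_exp.2
    linarith

include hlog in
/-- the error terms of the sieve are smaller than any power -/
theorem err_pow (K : ℝ) (hK : 0 ≤ K) (B : ℕ) (ξ : ℝ) (hξ : 0 < ξ) : ∀ᶠ d : ℕ in atTop, ∀ z ≤ T (d ^ 2),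
    K * ((z : ℝ) + 1) ^ B * (V z)⁻¹ ≤ (d : ℝ) ^ ξ := by
  set ξ' := ξ / (2 * (B + 1)) with hξ'
  have hξ'0 : 0 < ξ' := by positivity
  have h1 := (tendsto_rpow_atTop (show 0 < ξ / 2 by positivity)).comp (tendsto_natCast_atTop_atTop (R := ℝ))
  filter_upwards [T_pow T hlog ξ' hξ'0, h1.eventually_ge_atTop (K * 2 ^ (B + 1)), eventually_ge_atTop 1]
    with d h1 h2 h3 z hz
  simp only [Function.comp_apply] at h2
  have hd : (1 : ℝ) ≤ d := by exact_mod_cast h3
  have h4 : (z : ℝ) + 1 ≤ 2 * (d : ℝ) ^ ξ' := by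
    have h5 : (z : ℝ) ≤ T (d ^ 2) := by exact_mod_cast hz
    have h6 : (1 : ℝ) ≤ (d : ℝ) ^ ξ' := Real.one_le_rpow hd hξ'0.le
    linarith
  calc K * ((z : ℝ) + 1) ^ B * (V z)⁻¹ ≤ K * ((z : ℝ) + 1) ^ B * (z + 1) := by
        gcongr
        exact Vinv_lin z
    _ = K * ((z : ℝ) + 1) ^ (B + 1) := by ring
    _ ≤ K * (2 * (d : ℝ) ^ ξ') ^ (B + 1) := by gcongr
    _ = K * 2 ^ (B + 1) * (d : ℝ) ^ (ξ / 2) := by
        rw [mul_pow, ← Real.rpow_natCast ((d : ℝ) ^ ξ') (B + 1), ← Real.rpow_mul (by linarith), hξ', mul_assoc]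
        congr 3
        push_cast
        field_simp
    _ ≤ (d : ℝ) ^ (ξ / 2) * (d : ℝ) ^ (ξ / 2) := by gcongr
    _ = (d : ℝ) ^ ξ := by
        rw [← Real.rpow_add (by linarith)]
        congr 1
        ring

end

end Pool.Agent.T2H53.CG
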