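import Pool.Agent.T2H53.CG.C
import Pool.Agent.T2H32.GM.Low

set_option autoImplicit false

/-! # Sums over aligned classes -/

open Finset Filter Topology
open Pool.Agent.T2H32.BF (V V_pos V_anti V_ratio mertens)
open Pool.Agent.T2H32.GM (Rg Vinv_anti level V_le_one tlog one_sub_ge)

namespace Pool.Agent.T2H53.CG

/-- the integers `1 ≤ n ≤ y` in the class `a` modulo `d` -/
def Fb (d a y : ℕ) : Finset ℕ := (Icc 1 y).filter (fun n => n % d = a)

theorem Fb_le (d a y : ℕ) (g : ℕ → ℝ) (hg : ∀ n, 0 ≤ g n) :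
    ∑ n ∈ Fb d a y, g n ≤ ∑ k ∈ range (y / d + 1), g (a + k * d) := by
  have h1 : ∀ n ∈ Fb d a y, n = a + n / d * d := by
    intro n hn
    unfold Fb at hn
    rw [mem_filter] at hn
    have := Nat.mod_add_div n d
    rw [hn.2] at this
    rw [mul_comm]
    exact this.symm
  have hinj : Set.InjOn (fun n => n / d) (Fb d a y : Set ℕ) := by
    intro n hn m hm h
    rw [h1 n hn, h1 m hm]
    simp only at h
    rw [h]
  have h2 : ∑ n ∈ Fb d a y, g n = ∑ k ∈ (Fb d a y).image (fun n => n / d), g (a + k * d) := by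
    rw [sum_image hinj]
    refine sum_congr rfl fun n hn => ?_
    rw [← h1 n hn]
  rw [h2]
  refine sum_le_sum_of_subset_of_nonneg ?_ fun k _ _ => hg _
  intro k hk
  rw [mem_image] at hk
  obtain ⟨n, hn, rfl⟩ := hk
  unfold Fb at hn
  rw [mem_filter, mem_Icc] at hn
  rw [mem_range]
  have := Nat.div_le_div_right (c := d) hn.1.2
  omega

theorem Fb_ge (d a y H : ℕ) (ha : 1 ≤ a) (had : a < d) (hH : a + H * d ≤ y) (g : ℕ → ℝ)
    (hg : ∀ n, 0 ≤ g n) : ∑ k ∈ Ioc 0 H, g (d * k + a) ≤ ∑ n ∈ Fb d a y, g n := by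
  have hinj : Set.InjOn (fun k => d * k + a) (Ioc 0 H : Set ℕ) := by
    intro k _ l _ h
    simp only at h
    have : d * k = d * l := by omega
    exact Nat.eq_of_mul_eq_mul_left (by omega) this
  have h2 : ∑ k ∈ Ioc 0 H, g (d * k + a) = ∑ n ∈ (Ioc 0 H).image (fun k => d * k + a), g n := by
    rw [sum_image (by simpa using hinj)]
  rw [h2]
  refine sum_le_sum_of_subset_of_nonneg ?_ fun k _ _ => hg _
  intro n hn
  rw [mem_image] at hn
  obtain ⟨k, hk, rfl⟩ := hn
  rw [mem_Ioc] at hk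
  unfold Fb
  rw [mem_filter, mem_Icc]
  refine ⟨⟨by omega, ?_⟩, ?_⟩
  · have : d * k ≤ H * d := by
      rw [mul_comm]
      exact Nat.mul_le_mul_right _ hk.2
    omega
  · rw [Nat.mul_add_mod, Nat.mod_eq_of_lt had]

section

variable (T : ℕ → ℕ) (hT : Monotone T)

include hT in
/-- the total over the aligned classes -/
theorem total (ε : ℝ) (hε : 0 < ε) : ∃ B : ℕ, ∃ K : ℝ, 0 < K ∧ ∀ d t b0 m y : ℕ, 2 ≤ d → t ≤ T d →
    Qr 0 t * (b0 + m) < d → d + y ≤ d ^ 2 → ∀ E : ℝ, 0 ≤ E →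
    (∀ z ≤ T (d ^ 2), K * ((z : ℝ) + 1) ^ B * (V z)⁻¹ ≤ E) →
    ∑ b ∈ Ioc b0 (b0 + m), ∑ n ∈ Fb d (Qr 0 t * b) y, q T n ≤
      m + (((Ioc 0 (y / d)).filter (Rg t)).card : ℝ) * (((1 + ε) * m * (V t)⁻¹ + E) / Real.log d) := by
  obtain ⟨B, K, hK, hup⟩ := sum_up ε hε
  refine ⟨B, K, hK, fun d t b0 m y hd ht hb hy E hE0 hE => ?_⟩
  set Pr := Qr 0 t with hPr
  have hl : 0 < Real.log d := Real.log_pos (by exact_mod_cast hd)
  have h1 : ∑ b ∈ Ioc b0 (b0 + m), ∑ n ∈ Fb d (Pr * b) y, q T n ≤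
      ∑ b ∈ Ioc b0 (b0 + m), ∑ k ∈ range (y / d + 1), q T (Pr * b + k * d) :=
    sum_le_sum fun b _ => Fb_le d _ y _ (q_nonneg T)
  refine h1.trans ?_
  rw [sum_comm, sum_range_succ']
  have h0 : ∑ b ∈ Ioc b0 (b0 + m), q T (Pr * b + 0 * d) ≤ m := by
    have : ∑ b ∈ Ioc b0 (b0 + m), q T (Pr * b + 0 * d) ≤ ∑ _b ∈ Ioc b0 (b0 + m), (1 : ℝ) :=
      sum_le_sum fun b _ => q_le_one T _
    rw [sum_const, Nat.card_Ioc, nsmul_eq_mul, mul_one] at this
    have e : b0 + m - b0 = m := by omega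
    rw [e] at this
    exact this
  have hk : ∀ k ∈ Ioc 0 (y / d), ∑ b ∈ Ioc b0 (b0 + m), q T (Pr * b + k * d) ≤
      if Rg t k then ((1 + ε) * m * (V t)⁻¹ + E) / Real.log d else 0 := by
    intro k hk
    rw [mem_Ioc] at hk
    have hkd : d ≤ k * d := Nat.le_mul_of_pos_left _ hk.1
    have hq : ∀ b ∈ Ioc b0 (b0 + m), q T (Pr * b + k * d) ≤
        wt (T (Pr * b + k * d)) (Pr * b + k * d) / Real.log d := by
      intro b _
      have hn : d ≤ Pr * b + k * d := by omega
      refine (q_le_wt T _ (by omega)).trans ?_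
      have := wt_nonneg (T (Pr * b + k * d)) (Pr * b + k * d)
      have h2 : Real.log d ≤ Real.log ((Pr * b + k * d : ℕ) : ℝ) :=
        Real.log_le_log (by exact_mod_cast (by omega : 0 < d)) (by exact_mod_cast hn)
      gcongr
    refine (sum_le_sum hq).trans ?_
    rw [← sum_div]
    by_cases hr : Rg t k
    · rw [if_pos hr]
      have h2 := hup (fun b => T (Pr * b + k * d)) (fun b b' hbb => hT (by gcongr)) t Pr (k * d) b0 m
        (fun p hp h3 _ h4 => by
          rw [hPr, prime_dvd_Qr hp] at h4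
          omega)
      have h5 : Pr * (b0 + m) + k * d ≤ d ^ 2 := by
        have h6 : k * d ≤ y := (Nat.mul_le_mul_right _ hk.2).trans (Nat.div_mul_le_self _ _)
        omega
      have h6 := hE _ (hT h5)
      gcongr
      linarith
    · rw [if_neg hr]
      have h2 : ∑ b ∈ Ioc b0 (b0 + m), wt (T (Pr * b + k * d)) (Pr * b + k * d) = 0 := by
        refine sum_eq_zero fun b _ => ?_
        unfold wt
        rw [if_neg]
        intro h3
        apply hr
        intro p hp hpp hpk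
        have hn : d ≤ Pr * b + k * d := by omega
        refine h3 p (hp.trans (ht.trans (hT hn))) hpp ?_
        refine dvd_add ?_ (hpk.mul_right d)
        have : p ∣ Pr := by
          rw [hPr, prime_dvd_Qr hpp]
          exact ⟨hpp.pos, hp⟩
        exact this.mul_right b
      rw [h2, zero_div]
  have h2 : ∑ k ∈ range (y / d), ∑ b ∈ Ioc b0 (b0 + m), q T (Pr * b + (k + 1) * d) ≤
      (((Ioc 0 (y / d)).filter (Rg t)).card : ℝ) * (((1 + ε) * m * (V t)⁻¹ + E) / Real.log d) := by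
    have e : ∑ k ∈ range (y / d), ∑ b ∈ Ioc b0 (b0 + m), q T (Pr * b + (k + 1) * d) =
        ∑ k ∈ Ioc 0 (y / d), ∑ b ∈ Ioc b0 (b0 + m), q T (Pr * b + k * d) := by
      refine sum_nbij (fun k => k + 1) ?_ ?_ ?_ ?_
      · intro k hk
        rw [mem_range] at hk
        rw [mem_Ioc]
        omega
      · intro k _ l _ h
        simpa using h
      · intro k hk
        have hk' : k ∈ Ioc 0 (y / d) := hk
        rw [mem_Ioc] at hk'
        exact ⟨k - 1, by
          have : k - 1 ∈ range (y / d) := by rw [mem_range]; omega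
          exact this, by simp only; omega⟩
      · intro k _
        rfl
    rw [e]
    refine (sum_le_sum hk).trans (le_of_eq ?_)
    rw [← sum_filter, sum_const, nsmul_eq_mul]
  linarith

end

end Pool.Agent.T2H53.CG
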