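import Pool.Agent.T2H53.GW.Prob

set_option autoImplicit false

/-! # Second moment for empty blocks that share at most one point -/

open Finset MeasureTheory ProbabilityTheory Filter Topology
open Pool.Agent.T2H53.GW

namespace Pool.Agent.T2H53.CG

variable {Ω : Type*} [MeasurableSpace Ω] {μ : Measure Ω} [IsProbabilityMeasure μ] {S : ℕ → Set Ω}

/-- two empty blocks -/
theorem pair_le (hm : ∀ n, MeasurableSet (S n)) (hi : iIndepSet S μ) (F G : Finset ℕ) (η : ℝ)
    (hη0 : 0 ≤ η) (hη : η ≤ 1 / 2) (hFG : (F ∩ G).card ≤ 1) (hq : ∀ n ∈ F, μ.real (S n) ≤ η) :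
    μ.real ((HF S F)ᶜ ∩ (HF S G)ᶜ) ≤ (1 + 2 * η) * (μ.real ((HF S F)ᶜ) * μ.real ((HF S G)ᶜ)) := by
  classical
  have h0 : (HF S F)ᶜ ∩ (HF S G)ᶜ = (HF S (F ∪ G))ᶜ := by
    unfold HF
    rw [← Set.compl_union, Finset.set_biUnion_union]
  rw [h0, real_compl_HF hm hi, real_compl_HF hm hi, real_compl_HF hm hi]
  have h1 := prod_union_inter (s₁ := F) (s₂ := G) (f := fun n => 1 - μ.real (S n))
  have h2 : 1 - η ≤ ∏ n ∈ F ∩ G, (1 - μ.real (S n)) := by
    rcases Nat.lt_or_ge (F ∩ G).card 1 with h | h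
    · have : F ∩ G = ∅ := card_eq_zero.1 (by omega)
      rw [this, prod_empty]
      linarith
    · obtain ⟨x, hx⟩ := card_eq_one.1 (le_antisymm hFG h)
      rw [hx, prod_singleton]
      have hxF : x ∈ F := by
        have : x ∈ F ∩ G := by rw [hx]; exact mem_singleton_self x
        exact (mem_inter.1 this).1
      linarith [hq x hxF]
  have h3 : 0 ≤ ∏ n ∈ F ∪ G, (1 - μ.real (S n)) :=
    prod_nonneg fun n _ => by linarith [measureReal_le_one (μ := μ) (s := S n)]
  rw [← h1]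
  calc ∏ n ∈ F ∪ G, (1 - μ.real (S n))
      ≤ ((1 + 2 * η) * (1 - η)) * ∏ n ∈ F ∪ G, (1 - μ.real (S n)) := by
        have : 1 ≤ (1 + 2 * η) * (1 - η) := by nlinarith
        nlinarith
    _ = (1 + 2 * η) * ((∏ n ∈ F ∪ G, (1 - μ.real (S n))) * (1 - η)) := by ring
    _ ≤ _ := by gcongr

/-- number of the events that happen -/
noncomputable def cnt {ι : Type*} (I : Finset ι) (E : ι → Set Ω) (ω : Ω) : ℝ :=
  ∑ i ∈ I, (E i).indicator (fun _ => (1 : ℝ)) ω

theorem integrable_ind (E : Set Ω) (hE : MeasurableSet E) :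
    Integrable (fun ω => E.indicator (fun _ => (1 : ℝ)) ω) μ :=
  (integrable_const (1 : ℝ)).indicator hE

omit [IsProbabilityMeasure μ] in
theorem integral_ind (E : Set Ω) (hE : MeasurableSet E) :
    ∫ ω, E.indicator (fun _ => (1 : ℝ)) ω ∂μ = μ.real E := by
  rw [integral_indicator hE, setIntegral_const, smul_eq_mul, mul_one]

theorem second_moment {ι : Type*} (I : Finset ι) (E : ι → Set Ω) (hE : ∀ i ∈ I, MeasurableSet (E i))
    (η : ℝ) (hη : 0 ≤ η) (h : ∀ i ∈ I, ∀ j ∈ I, i ≠ j →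
      μ.real (E i ∩ E j) ≤ (1 + 2 * η) * (μ.real (E i) * μ.real (E j)))
    (m : ℝ) (hm : m = ∑ i ∈ I, μ.real (E i)) (hm0 : 0 < m) :
    μ.real {ω | cnt I E ω < m / 2} ≤ 4 * (1 / m + 2 * η) := by
  classical
  have hint : ∀ i ∈ I, Integrable (fun ω => (E i).indicator (fun _ => (1 : ℝ)) ω) μ :=
    fun i hi => integrable_ind _ (hE i hi)
  have hX : Integrable (cnt I E) μ := by
    unfold cnt
    exact integrable_finsetSum _ hint
  have hmean : ∫ ω, cnt I E ω ∂μ = m := by
    unfold cnt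
    rw [integral_finsetSum _ hint, hm]
    exact sum_congr rfl fun i hi => integral_ind _ (hE i hi)
  have hmeas : ∀ i ∈ I, Measurable fun ω => (E i).indicator (fun _ => (1 : ℝ)) ω :=
    fun i hi => measurable_const.indicator (hE i hi)
  have hXm : Measurable (cnt I E) := Finset.measurable_sum I hmeas
  have hsq : ∀ ω, cnt I E ω ^ 2 = ∑ i ∈ I, ∑ j ∈ I, (E i ∩ E j).indicator (fun _ => (1 : ℝ)) ω := by
    intro ω
    unfold cnt
    rw [sq, sum_mul_sum]
    refine sum_congr rfl fun i _ => sum_congr rfl fun j _ => ?_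
    by_cases h1 : ω ∈ E i <;> by_cases h2 : ω ∈ E j <;> simp [h1, h2]
  have hint2 : ∀ i ∈ I, ∀ j ∈ I, Integrable (fun ω => (E i ∩ E j).indicator (fun _ => (1 : ℝ)) ω) μ :=
    fun i hi j hj => integrable_ind _ ((hE i hi).inter (hE j hj))
  have hX2 : ∫ ω, cnt I E ω ^ 2 ∂μ = ∑ i ∈ I, ∑ j ∈ I, μ.real (E i ∩ E j) := by
    simp_rw [hsq]
    rw [integral_finsetSum _ fun i hi => integrable_finsetSum _ fun j hj => hint2 i hi j hj]
    refine sum_congr rfl fun i hi => ?_
    rw [integral_finsetSum _ fun j hj => hint2 i hi j hj]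
    exact sum_congr rfl fun j hj => integral_ind _ ((hE i hi).inter (hE j hj))
  have hle : ∑ i ∈ I, ∑ j ∈ I, μ.real (E i ∩ E j) ≤ m + (1 + 2 * η) * m ^ 2 := by
    have h1 : ∀ i ∈ I, ∑ j ∈ I, μ.real (E i ∩ E j) ≤
        μ.real (E i) + (1 + 2 * η) * (μ.real (E i) * m) := by
      intro i hi
      have h2 : ∀ j ∈ I, μ.real (E i ∩ E j) ≤ (if j = i then μ.real (E i) else 0) +
          (1 + 2 * η) * (μ.real (E i) * μ.real (E j)) := by
        intro j hj
        have hp : 0 ≤ μ.real (E i) * μ.real (E j) := by positivity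
        by_cases hij : j = i
        · subst hij
          rw [if_pos rfl, Set.inter_self]
          nlinarith
        · rw [if_neg hij, zero_add]
          exact h i hi j hj fun e => hij e.symm
      refine (sum_le_sum h2).trans (le_of_eq ?_)
      rw [sum_add_distrib, sum_ite_eq' I i, if_pos hi, ← mul_sum, ← mul_sum, hm]
    refine (sum_le_sum h1).trans (le_of_eq ?_)
    rw [sum_add_distrib, ← mul_sum, ← sum_mul, ← hm]
    ring
  have hL2 : MemLp (cnt I E) 2 μ := by
    unfold cnt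
    refine memLp_finsetSum I fun i hi => ?_
    exact (memLp_const (1 : ℝ)).indicator (hE i hi)
  have h1 := meas_ge_le_variance_div_sq hL2 (show 0 < m / 2 by positivity)
  rw [hmean] at h1
  have hvar : Var[cnt I E; μ] ≤ m + 2 * η * m ^ 2 := by
    rw [variance_eq_sub hL2, hmean]
    have : ∫ ω, (cnt I E ^ 2) ω ∂μ = ∫ ω, cnt I E ω ^ 2 ∂μ := rfl
    rw [this, hX2]
    linarith
  rw [measureReal_def]
  have h2 : μ {ω | cnt I E ω < m / 2} ≤ ENNReal.ofReal (4 * (1 / m + 2 * η)) := by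
    refine (measure_mono ?_).trans (h1.trans (ENNReal.ofReal_le_ofReal ?_))
    · intro ω hω
      rw [Set.mem_ofPred_eq] at hω ⊢
      rw [abs_sub_comm]
      exact (by linarith : m / 2 ≤ m - cnt I E ω).trans (le_abs_self _)
    · calc Var[cnt I E; μ] / (m / 2) ^ 2 ≤ (m + 2 * η * m ^ 2) / (m / 2) ^ 2 := by gcongr
        _ = 4 * (1 / m + 2 * η) := by
          field_simp
          ring
  calc (μ {ω | cnt I E ω < m / 2}).toReal ≤ (ENNReal.ofReal (4 * (1 / m + 2 * η))).toReal :=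
        ENNReal.toReal_mono ENNReal.ofReal_ne_top h2
    _ = _ := ENNReal.toReal_ofReal (by positivity)

omit [MeasurableSpace Ω] in
/-- the number of the events that happen is the count -/
theorem cnt_eq {ι : Type*} (I : Finset ι) (E : ι → Set Ω) (ω : Ω) [DecidablePred fun i => ω ∈ E i] :
    cnt I E ω = ((I.filter (fun i => ω ∈ E i)).card : ℝ) := by
  unfold cnt
  rw [card_filter, Nat.cast_sum]
  refine sum_congr rfl fun i _ => ?_
  by_cases h : ω ∈ E i <;> simp [h]

/-- all the blocks of one family of disjoint blocks contain points -/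
theorem all_hit_le' (hm : ∀ n, MeasurableSet (S n)) (hi : iIndepSet S μ) (𝒜 : Finset ℕ)
    (F : ℕ → Finset ℕ) (hd : ∀ a ∈ 𝒜, ∀ b ∈ 𝒜, a ≠ b → Disjoint (F a) (F b)) :
    μ.real (⋂ a ∈ 𝒜, HF S (F a)) ≤ Real.exp (-(∑ a ∈ 𝒜, ∏ n ∈ F a, (1 - μ.real (S n)))) := by
  rw [real_inter_HF hm hi 𝒜 F hd]
  have h1 : ∏ a ∈ 𝒜, (1 - ∏ n ∈ F a, (1 - μ.real (S n))) ≤
      ∏ a ∈ 𝒜, Real.exp (-(∏ n ∈ F a, (1 - μ.real (S n)))) := by
    refine prod_le_prod (fun a _ => ?_) fun a _ => ?_
    · have : ∏ n ∈ F a, (1 - μ.real (S n)) ≤ 1 :=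
        prod_le_one (fun n _ => by linarith [measureReal_le_one (μ := μ) (s := S n)])
          fun n _ => by linarith [measureReal_nonneg (μ := μ) (s := S n)]
      linarith
    · have h3 := Real.add_one_le_exp (-(∏ n ∈ F a, (1 - μ.real (S n))))
      linarith
  refine h1.trans (le_of_eq ?_)
  rw [← Real.exp_sum, sum_neg_distrib]

/-- if the probabilities of the events do not stay away from `1` on a sequence then infinitely many of them happen -/
theorem freq_of_tendsto (G : ℕ → Set Ω) (φ : ℕ → ℕ) (hφ : Tendsto φ atTop atTop)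
    (h : Tendsto (fun j => μ.real ((G (φ j))ᶜ)) atTop (𝓝 0)) : ∀ᵐ ω ∂μ, ∃ᶠ n in atTop, ω ∈ G n := by
  have hbad : ∀ N : ℕ, μ {ω | ∀ n, N ≤ n → ω ∉ G n} = 0 := by
    intro N
    rw [← measureReal_eq_zero_iff]
    refine le_antisymm (ge_of_tendsto h ?_) measureReal_nonneg
    filter_upwards [hφ.eventually_ge_atTop N] with j hj
    refine measureReal_mono ?_
    intro ω hω
    exact hω _ hj
  have h2 : ∀ᵐ ω ∂μ, ∀ N : ℕ, ¬ ∀ n, N ≤ n → ω ∉ G n := by
    rw [ae_all_iff]
    intro N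
    rw [ae_iff]
    simpa using hbad N
  filter_upwards [h2] with ω hω
  rw [frequently_atTop]
  intro N
  have := hω N
  push Not at this
  obtain ⟨n, h1, h2⟩ := this
  exact ⟨n, h1, h2⟩

end Pool.Agent.T2H53.CG
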