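import Pool.Agent.T2H53.CG.D

set_option autoImplicit false

/-! # Lower bound for the expected number of empty aligned classes -/

open Finset Filter Topology
open Pool.Agent.T2H32.BF (V V_pos V_anti V_ratio mertens)
open Pool.Agent.T2H32.GM (Rg Vinv_anti level V_le_one tlog one_sub_ge)

namespace Pool.Agent.T2H53.CG

/-- Jensen's inequality for the exponential function -/
theorem jensen {ι : Type*} (s : Finset ι) (hs : 0 < s.card) (x : ι → ℝ) :
    (s.card : ℝ) * Real.exp (-((∑ i ∈ s, x i) / s.card)) ≤ ∑ i ∈ s, Real.exp (-(x i)) := by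
  have hc : (0 : ℝ) < s.card := by exact_mod_cast hs
  have h := convexOn_exp.map_sum_le (t := s) (w := fun _ => (s.card : ℝ)⁻¹) (p := fun i => -(x i))
    (fun i _ => by positivity) (by rw [sum_const, nsmul_eq_mul, mul_inv_cancel₀ hc.ne'])
    (fun i _ => Set.mem_univ _)
  simp only [smul_eq_mul] at h
  rw [← mul_sum, ← mul_sum, sum_neg_distrib] at h
  have e : (s.card : ℝ)⁻¹ * -∑ i ∈ s, x i = -((∑ i ∈ s, x i) / s.card) := by
    rw [div_eq_inv_mul]; ring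
  rw [e] at h
  calc (s.card : ℝ) * Real.exp (-((∑ i ∈ s, x i) / s.card)) ≤
      (s.card : ℝ) * ((s.card : ℝ)⁻¹ * ∑ i ∈ s, Real.exp (-(x i))) := by gcongr
    _ = _ := by field_simp

section

variable (T : ℕ → ℕ) (hT : Monotone T)
  (hlog : Tendsto (fun n : ℕ => Real.log (T n) / Real.log n) atTop (𝓝 0))

include hlog in
theorem q_small_half (η : ℝ) (hη : 0 < η) : ∀ᶠ d : ℕ in atTop, ∀ n : ℕ, d < 2 * n → q T n ≤ η := by
  obtain ⟨N, hN⟩ := eventually_atTop.1 (q_small T hlog η hη)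
  filter_upwards [eventually_ge_atTop (2 * N)] with d hd n hn
  exact hN n (by omega)

/-- `d ^ a` tends to infinity -/
theorem dpow_atTop (a : ℝ) (ha : 0 < a) : Tendsto (fun d : ℕ => (d : ℝ) ^ a) atTop atTop :=
  (tendsto_rpow_atTop ha).comp tendsto_natCast_atTop_atTop

/-- `log d ^ 2` is smaller than any power -/
theorem log_sq_le (C a : ℝ) (ha : 0 < a) : ∀ᶠ d : ℕ in atTop, C * Real.log d ^ 2 ≤ (d : ℝ) ^ a := by
  have h1 : (fun x : ℝ => Real.log x ^ 2) =o[atTop] fun x : ℝ => x ^ a := by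
    have := isLittleO_log_rpow_rpow_atTop (s := a) 2 ha
    simpa using this
  have h2 : (fun x : ℝ => C * Real.log x ^ 2) =o[atTop] fun x : ℝ => x ^ a := h1.const_mul_left C
  have h3 := (h2.bound one_pos)
  have h4 := tendsto_natCast_atTop_atTop (R := ℝ) |>.eventually h3
  filter_upwards [h4] with d hd
  rw [one_mul, Real.norm_eq_abs, Real.norm_eq_abs, abs_of_nonneg (by positivity : (0 : ℝ) ≤ (d : ℝ) ^ a)] at hd
  exact (le_abs_self _).trans hd

include hT hlog in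
/-- **Aligned classes.** -/
theorem E1 (c κ ρ : ℝ) (hc : 0 < c) (hκ : 0 ≤ κ) (hρ : 0 < ρ) (hρ1 : ρ ≤ 1) :
    ∀ᶠ d : ℕ in atTop, ∀ t ≤ T d, (Qr 0 t : ℝ) ≤ (d : ℝ) ^ (ρ / 3) → ∀ y : ℕ,
      (y : ℝ) ≤ c * d * Real.log d ^ 2 →
      (((Ioc 0 (y / d)).filter (Rg t)).card : ℝ) * (V t)⁻¹ ≤ κ * c * Real.log d ^ 2 →
      (d : ℝ) ^ (1 - κ * c - ρ) ≤ ∑ b ∈ Ioc (d / (2 * Qr 0 t)) ((d - 1) / Qr 0 t),
        ∏ n ∈ Fb d (Qr 0 t * b) y, (1 - q T n) := by
  set ε := min 1 (ρ / (3 * (3 * (κ * c) + 4))) with hε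
  have hκc : 0 ≤ κ * c := mul_nonneg hκ hc.le
  have hε0 : 0 < ε := lt_min one_pos (by positivity)
  have hε1 : ε ≤ 1 := min_le_left _ _
  have hερ : ε * (3 * (κ * c) + 4) ≤ ρ / 3 := by
    have h1 : ε ≤ ρ / (3 * (3 * (κ * c) + 4)) := min_le_right _ _
    rw [le_div_iff₀ (by positivity)] at h1
    linarith
  obtain ⟨B, K, hK, htot⟩ := total T hT ε hε0
  have hsq : ∀ᶠ d : ℕ in atTop, (c * Real.log d ^ 2 + 1) * d ≤ (d : ℝ) ^ 2 := by
    filter_upwards [log_sq_le (2 * c) 1 one_pos, eventually_ge_atTop 2] with d h1 h2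
    rw [Real.rpow_one] at h1
    have hd : (2 : ℝ) ≤ d := by exact_mod_cast h2
    nlinarith
  filter_upwards [q_small_half T hlog (ε / (1 + ε)) (by positivity),
    err_pow T hlog K hK.le B (1 / 6) (by norm_num), (dpow_atTop (ρ / 3) (by positivity)).eventually_ge_atTop 6,
    (dpow_atTop (1 / 6) (by norm_num)).eventually_ge_atTop (c / ε), tlog.eventually_ge_atTop (1 / ε), hsq,
    eventually_ge_atTop 2] with d hq hE hd6 hdc hdl hdsq hd2 t ht hPr y hy hcnt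
  have hd2' : (2 : ℝ) ≤ d := by exact_mod_cast hd2
  have hd0 : (0 : ℝ) < d := by linarith
  have hl : 0 < Real.log d := Real.log_pos (by linarith)
  set Pr := Qr 0 t with hPrdef
  have hPr1 : 1 ≤ Pr := Qr_pos 0 t
  have hPr0 : (0 : ℝ) < Pr := by exact_mod_cast hPr1
  set b0 := d / (2 * Pr) with hb0
  have hle : b0 ≤ (d - 1) / Pr := by
    rw [Nat.le_div_iff_mul_le hPr1]
    have h1 : b0 * (2 * Pr) ≤ d := Nat.div_mul_le_self _ _
    have h2 : b0 * (2 * Pr) = 2 * (b0 * Pr) := by ring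
    omega
  obtain ⟨m, hm⟩ : ∃ m, (d - 1) / Pr = b0 + m := ⟨(d - 1) / Pr - b0, by omega⟩
  rw [hm]
  have hlast : Pr * (b0 + m) < d := by
    rw [← hm]
    have := Nat.mul_div_le (d - 1) Pr
    omega
  -- size of `m`
  have hm1 : (d : ℝ) ^ (1 - 2 * ρ / 3) ≤ m := by
    have h1 : (d : ℝ) - 1 < ((b0 + m : ℕ) : ℝ) * Pr + Pr := by
      have h2 : d - 1 < (d - 1) / Pr * Pr + Pr := Nat.lt_div_mul_add hPr1
      rw [hm] at h2
      have h3 : ((d - 1 : ℕ) : ℝ) < (((b0 + m) * Pr + Pr : ℕ) : ℝ) := by exact_mod_cast h2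
      push_cast [Nat.cast_sub (by omega : 1 ≤ d)] at h3
      push_cast
      linarith
    have h2 : (b0 : ℝ) * (2 * Pr) ≤ d := by
      exact_mod_cast Nat.div_mul_le_self d (2 * Pr)
    push_cast at h1
    have h3 : (d : ℝ) / (2 * Pr) - 2 ≤ m := by
      rw [sub_le_iff_le_add, div_le_iff₀ (by positivity)]
      have h4 : (1 : ℝ) ≤ Pr := by exact_mod_cast hPr1
      nlinarith
    have h4 : (d : ℝ) ^ (1 - 2 * ρ / 3) * (d : ℝ) ^ (ρ / 3) * (d : ℝ) ^ (ρ / 3) = d := by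
      rw [← Real.rpow_add hd0, ← Real.rpow_add hd0]
      have : 1 - 2 * ρ / 3 + ρ / 3 + ρ / 3 = 1 := by ring
      rw [this, Real.rpow_one]
    have h5 : (d : ℝ) ^ (1 - 2 * ρ / 3) * (d : ℝ) ^ (ρ / 3) ≤ d / Pr := by
      rw [le_div_iff₀ hPr0]
      calc (d : ℝ) ^ (1 - 2 * ρ / 3) * (d : ℝ) ^ (ρ / 3) * Pr ≤
          (d : ℝ) ^ (1 - 2 * ρ / 3) * (d : ℝ) ^ (ρ / 3) * (d : ℝ) ^ (ρ / 3) := by gcongr
        _ = d := h4
    have h6 : (1 : ℝ) ≤ (d : ℝ) ^ (1 - 2 * ρ / 3) := Real.one_le_rpow (by linarith) (by linarith)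
    have h7 : (d : ℝ) / (2 * Pr) = d / Pr / 2 := by field_simp
    rw [h7] at h3
    nlinarith
  have hm2 : c * (d : ℝ) ^ (1 / 6 : ℝ) ≤ ε * m := by
    have h1 : c ≤ ε * (d : ℝ) ^ (1 / 6 : ℝ) := by
      rw [div_le_iff₀ hε0] at hdc
      linarith
    have h2 : (d : ℝ) ^ (1 / 6 : ℝ) * (d : ℝ) ^ (1 / 6 : ℝ) ≤ (d : ℝ) ^ (1 - 2 * ρ / 3) := by
      rw [← Real.rpow_add hd0]
      apply Real.rpow_le_rpow_of_exponent_le (by linarith)
      linarith
    calc c * (d : ℝ) ^ (1 / 6 : ℝ) ≤ ε * (d : ℝ) ^ (1 / 6 : ℝ) * (d : ℝ) ^ (1 / 6 : ℝ) := by gcongr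
      _ = ε * ((d : ℝ) ^ (1 / 6 : ℝ) * (d : ℝ) ^ (1 / 6 : ℝ)) := by ring
      _ ≤ ε * m := by gcongr; exact h2.trans hm1
  have hm0 : (0 : ℝ) < m := lt_of_lt_of_le (by positivity) hm1
  have hy2 : d + y ≤ d ^ 2 := by
    have : ((d + y : ℕ) : ℝ) ≤ ((d ^ 2 : ℕ) : ℝ) := by
      push_cast
      refine le_trans ?_ hdsq
      linarith
    exact_mod_cast this
  have hyd : ((y / d : ℕ) : ℝ) ≤ c * Real.log d ^ 2 := by
    refine Nat.cast_div_le.trans ?_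
    rw [div_le_iff₀ hd0]
    linarith
  have h1 := htot d t b0 m y hd2 ht hlast hy2 ((d : ℝ) ^ (1 / 6 : ℝ)) (by positivity) hE
  set C : ℝ := (((Ioc 0 (y / d)).filter (Rg t)).card : ℝ) with hC
  have hC0 : 0 ≤ C := Nat.cast_nonneg _
  have hC1 : C ≤ c * Real.log d ^ 2 := by
    refine le_trans ?_ hyd
    have : ((Ioc 0 (y / d)).filter (Rg t)).card ≤ y / d := by
      refine (card_filter_le _ _).trans ?_
      rw [Nat.card_Ioc, Nat.sub_zero]
    rw [hC]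
    exact_mod_cast this
  have h2 : ∑ b ∈ Ioc b0 (b0 + m), ∑ n ∈ Fb d (Pr * b) y, q T n ≤
      m * (((1 + ε) * (κ * c) + 2 * ε) * Real.log d) := by
    refine h1.trans ?_
    have h3 : C * (((1 + ε) * m * (V t)⁻¹ + (d : ℝ) ^ (1 / 6 : ℝ)) / Real.log d) =
        (1 + ε) * m * (C * (V t)⁻¹) / Real.log d + C * (d : ℝ) ^ (1 / 6 : ℝ) / Real.log d := by
      ring
    rw [h3]
    have h4 : (1 + ε) * m * (C * (V t)⁻¹) / Real.log d ≤ (1 + ε) * m * (κ * c * Real.log d) := by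
      rw [div_le_iff₀ hl]
      calc (1 + ε) * m * (C * (V t)⁻¹) ≤ (1 + ε) * m * (κ * c * Real.log d ^ 2) := by gcongr
        _ = _ := by ring
    have h5 : C * (d : ℝ) ^ (1 / 6 : ℝ) / Real.log d ≤ ε * m * Real.log d := by
      rw [div_le_iff₀ hl]
      calc C * (d : ℝ) ^ (1 / 6 : ℝ) ≤ c * Real.log d ^ 2 * (d : ℝ) ^ (1 / 6 : ℝ) := by gcongr
        _ = (c * (d : ℝ) ^ (1 / 6 : ℝ)) * Real.log d ^ 2 := by ring
        _ ≤ (ε * m) * Real.log d ^ 2 := by gcongr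
        _ = _ := by ring
    have h6 : (m : ℝ) ≤ m * (ε * Real.log d) := by
      rw [div_le_iff₀ hε0] at hdl
      nlinarith
    calc (m : ℝ) + ((1 + ε) * m * (C * (V t)⁻¹) / Real.log d + C * (d : ℝ) ^ (1 / 6 : ℝ) / Real.log d) ≤
        m * (ε * Real.log d) + ((1 + ε) * m * (κ * c * Real.log d) + ε * m * Real.log d) := by
          linarith
      _ = _ := by ring
  -- Jensen
  have hcard : (Ioc b0 (b0 + m)).card = m := by rw [Nat.card_Ioc]; omega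
  have hcard0 : 0 < (Ioc b0 (b0 + m)).card := by
    rw [hcard]
    exact_mod_cast hm0
  have h3 := jensen (Ioc b0 (b0 + m)) hcard0 (fun b => (1 + ε) * ∑ n ∈ Fb d (Pr * b) y, q T n)
  rw [hcard] at h3
  have h4 : ∀ b ∈ Ioc b0 (b0 + m), Real.exp (-((1 + ε) * ∑ n ∈ Fb d (Pr * b) y, q T n)) ≤
      ∏ n ∈ Fb d (Pr * b) y, (1 - q T n) := by
    intro b hb
    rw [mem_Ioc] at hb
    rw [mul_sum, ← sum_neg_distrib, Real.exp_sum]
    refine prod_le_prod (fun n _ => (Real.exp_pos _).le) fun n hn => ?_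
    refine one_sub_ge ε _ hε0 (q_nonneg T n) (hq n ?_)
    unfold Fb at hn
    rw [mem_filter] at hn
    have h5 : Pr * b ≤ n := by
      rw [← hn.2]
      exact Nat.mod_le _ _
    have h6 : d < b * (2 * Pr) := by
      have h7 := (Nat.div_lt_iff_lt_mul (show 0 < 2 * Pr by omega)).1 hb.1
      exact h7
    have h7 : b * (2 * Pr) = 2 * (Pr * b) := by ring
    omega
  refine le_trans ?_ (h3.trans (sum_le_sum h4))
  rw [← mul_sum]
  have h5 : (1 + ε) * (∑ b ∈ Ioc b0 (b0 + m), ∑ n ∈ Fb d (Pr * b) y, q T n) / m ≤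
      (κ * c + ρ / 3) * Real.log d := by
    rw [div_le_iff₀ hm0]
    calc (1 + ε) * (∑ b ∈ Ioc b0 (b0 + m), ∑ n ∈ Fb d (Pr * b) y, q T n) ≤
        (1 + ε) * (m * (((1 + ε) * (κ * c) + 2 * ε) * Real.log d)) := by gcongr
      _ = ((1 + ε) * ((1 + ε) * (κ * c) + 2 * ε)) * (Real.log d * m) := by ring
      _ ≤ (κ * c + ρ / 3) * (Real.log d * m) := by
        refine mul_le_mul_of_nonneg_right ?_ (by positivity)
        have h6 : ε * ε ≤ ε := by nlinarith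
        nlinarith [mul_le_mul_of_nonneg_right h6 hκc]
      _ = _ := by ring
  calc (d : ℝ) ^ (1 - κ * c - ρ) = (d : ℝ) ^ (1 - 2 * ρ / 3) * Real.exp (-((κ * c + ρ / 3) * Real.log d)) := by
        have : Real.exp (-((κ * c + ρ / 3) * Real.log d)) = (d : ℝ) ^ (-(κ * c + ρ / 3)) := by
          rw [Real.rpow_def_of_pos hd0]
          congr 1
          ring
        rw [this, ← Real.rpow_add hd0]
        congr 1
        ring
    _ ≤ m * Real.exp (-((1 + ε) * (∑ b ∈ Ioc b0 (b0 + m), ∑ n ∈ Fb d (Pr * b) y, q T n) / m)) := by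
        gcongr

end

end Pool.Agent.T2H53.CG
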