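import Pool.Agent.T2H53.CG.F
import Pool.Agent.T2H32.GM.Fin

set_option autoImplicit false

/-! # The expected number of empty classes -/

open Finset Filter Topology
open Pool.Agent.T2H32.BF (V V_pos V_anti V_ratio mertens)
open Pool.Agent.T2H32.GM (Rg Vinv_anti level V_le_one tlog one_sub_ge om osc2 Phi Phi_mono Phi_eq Phi_upper om_pos)

namespace Pool.Agent.T2H53.CG

/-- the large classes modulo `d` -/
def U (d : ℕ) : Finset ℕ := (range d).filter (fun a => d < 2 * a)

/-- expected number of the large classes without random primes up to `y` -/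
noncomputable def Emp (T : ℕ → ℕ) (d y : ℕ) : ℝ := ∑ a ∈ U d, ∏ n ∈ Fb d a y, (1 - q T n)

theorem prod_q_nonneg (T : ℕ → ℕ) (F : Finset ℕ) : 0 ≤ ∏ n ∈ F, (1 - q T n) :=
  prod_nonneg fun n _ => by linarith [q_le_one T n]

theorem Emp_ge (T : ℕ → ℕ) (d Pr y : ℕ) (hd : 2 ≤ d) (hP : 1 ≤ Pr) :
    ∑ b ∈ Ioc (d / (2 * Pr)) ((d - 1) / Pr), ∏ n ∈ Fb d (Pr * b) y, (1 - q T n) ≤ Emp T d y := by
  have hinj : Set.InjOn (fun b => Pr * b) (Ioc (d / (2 * Pr)) ((d - 1) / Pr) : Set ℕ) := by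
    intro b _ b' _ h
    exact Nat.eq_of_mul_eq_mul_left hP h
  have h1 : ∑ b ∈ Ioc (d / (2 * Pr)) ((d - 1) / Pr), ∏ n ∈ Fb d (Pr * b) y, (1 - q T n) =
      ∑ a ∈ (Ioc (d / (2 * Pr)) ((d - 1) / Pr)).image (fun b => Pr * b),
        ∏ n ∈ Fb d a y, (1 - q T n) := by
    rw [sum_image (by simpa using hinj)]
  rw [h1]
  refine sum_le_sum_of_subset_of_nonneg ?_ fun a _ _ => prod_q_nonneg T _
  intro a ha
  rw [mem_image] at ha
  obtain ⟨b, hb, rfl⟩ := ha
  rw [mem_Ioc] at hb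
  unfold U
  rw [mem_filter, mem_range]
  constructor
  · have h2 := (Nat.le_div_iff_mul_le hP).1 hb.2
    have h3 : b * Pr = Pr * b := mul_comm _ _
    omega
  · have h2 := (Nat.div_lt_iff_lt_mul (show 0 < 2 * Pr by omega)).1 hb.1
    have h3 : b * (2 * Pr) = 2 * (Pr * b) := by ring
    omega

section

variable (T : ℕ → ℕ) (hT : Monotone T)
  (hlog : Tendsto (fun n : ℕ => Real.log (T n) / Real.log n) atTop (𝓝 0))

include hT hlog in
/-- lower bound, no sieving -/
theorem low1 (c ρ : ℝ) (hc : 0 < c) (hρ : 0 < ρ) (hρ1 : ρ ≤ 1) :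
    ∀ᶠ d : ℕ in atTop, ∀ y : ℕ, (y : ℝ) ≤ c * d * Real.log d ^ 2 → (d : ℝ) ^ (1 - 1 * c - ρ) ≤ Emp T d y := by
  filter_upwards [E1 T hT hlog c 1 ρ hc zero_le_one hρ hρ1, eventually_ge_atTop 2] with d h1 hd y hy
  have hd2' : (2 : ℝ) ≤ d := by exact_mod_cast hd
  have hd0 : (0 : ℝ) < d := by linarith
  have hQ : Qr 0 0 = 1 := by unfold Qr; rfl
  refine (h1 0 (Nat.zero_le _) ?_ y hy ?_).trans (Emp_ge T d _ y hd (Qr_pos 0 0))
  · rw [hQ, Nat.cast_one]
    exact Real.one_le_rpow (by linarith) (by positivity)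
  · rw [V_zero, inv_one, mul_one, one_mul]
    have h2 : (((Ioc 0 (y / d)).filter (Rg 0)).card : ℝ) ≤ ((y / d : ℕ) : ℝ) := by
      have : ((Ioc 0 (y / d)).filter (Rg 0)).card ≤ y / d := by
        refine (card_filter_le _ _).trans ?_
        rw [Nat.card_Ioc, Nat.sub_zero]
      exact_mod_cast this
    refine h2.trans (Nat.cast_div_le.trans ?_)
    rw [div_le_iff₀ hd0]
    linarith

/-- the sieving limit used in the lower bound -/
noncomputable def tt (v c : ℝ) (d : ℕ) : ℕ := ⌈(c * Real.log d ^ 2) ^ (1 / v)⌉₊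

theorem tt_log (v c a : ℝ) (hv : 0 < v) (hc : 0 < c) (hva : 2 < a * v) :
    Tendsto (fun d : ℕ => (tt v c d : ℝ) / Real.log d ^ a) atTop (𝓝 0) := by
  have ha : 0 < a := by
    by_contra h
    push Not at h
    nlinarith
  have h1 : Tendsto (fun d : ℕ => Real.log d ^ (-(a - 2 / v))) atTop (𝓝 0) := by
    have h2v : 0 < a - 2 / v := by
      rw [sub_pos, div_lt_iff₀ hv]
      exact hva
    exact (tendsto_rpow_neg_atTop h2v).comp tlog
  have h2 : Tendsto (fun d : ℕ => Real.log d ^ (-a)) atTop (𝓝 0) := (tendsto_rpow_neg_atTop ha).comp tlog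
  have h3 := (h1.const_mul (c ^ (1 / v))).add h2
  rw [mul_zero, add_zero] at h3
  refine squeeze_zero' ?_ ?_ h3
  · filter_upwards [tlog.eventually_ge_atTop 1] with d hd
    have : 0 ≤ Real.log d ^ a := Real.rpow_nonneg (by linarith) _
    positivity
  · filter_upwards [tlog.eventually_ge_atTop 1] with d hd
    have hl : 0 < Real.log d := by linarith
    rw [div_le_iff₀ (by positivity), add_mul, mul_assoc, ← Real.rpow_add hl, ← Real.rpow_add hl]
    have e1 : -(a - 2 / v) + a = 2 / v := by ring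
    have e2 : -a + a = 0 := by ring
    rw [e1, e2, Real.rpow_zero]
    unfold tt
    refine (Nat.ceil_lt_add_one (by positivity)).le.trans ?_
    rw [Real.mul_rpow hc.le (by positivity)]
    have : (Real.log d ^ 2) ^ (1 / v) = Real.log d ^ (2 / v) := by
      rw [← Real.rpow_natCast, ← Real.rpow_mul hl.le]
      congr 1
      push_cast
      ring
    rw [this]

include hT hlog in
/-- lower bound, with sieving -/
theorem low2 (θ : ℝ) (hθ : 0 < θ) : ∃ κ : ℝ, 0 < κ ∧ κ < 1 ∧ ∀ c ρ : ℝ, 0 < c → 0 < ρ → ρ ≤ 1 →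
    ∀ᶠ d : ℕ in atTop, Real.log d ^ θ ≤ T d → ∀ y : ℕ, (y : ℝ) ≤ c * d * Real.log d ^ 2 →
      (d : ℝ) ^ (1 - κ * c - ρ) ≤ Emp T d y := by
  obtain ⟨v, hv1, hv2, δ, hδ, hδ2⟩ := osc2 (min θ 1) (lt_min hθ one_pos)
  set E := Real.exp Real.eulerMascheroniConstant * om v with hE
  have hE0 : 0 < E := mul_pos (Real.exp_pos _) (om_pos v hv1.le)
  have hE1 : E < 1 := by nlinarith
  have hvθ : 2 < θ * v := lt_of_lt_of_le hv2 (mul_le_mul_of_nonneg_right (min_le_left _ _) (by linarith))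
  have hv3 : 2 < 1 * v := lt_of_lt_of_le hv2 (mul_le_mul_of_nonneg_right (min_le_right _ _) (by linarith))
  have hv0 : 0 < v := by linarith
  set κ := (1 + E) / 2 with hκ
  have hκ0 : 0 < κ := by positivity
  have hκ1 : κ < 1 := by rw [hκ]; linarith
  have hEκ : E < κ := by rw [hκ]; linarith
  set ε := min 1 ((κ - E) / (3 * E)) with hε
  have hε0 : 0 < ε := lt_min one_pos (by
    have : 0 < κ - E := by linarith
    positivity)
  have hε1 : (1 + ε) * (1 + ε) * E ≤ κ := by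
    have h1 : ε ≤ (κ - E) / (3 * E) := min_le_right _ _
    have h2 : ε ≤ 1 := min_le_left _ _
    rw [le_div_iff₀ (by positivity)] at h1
    nlinarith
  refine ⟨κ, hκ0, hκ1, fun c ρ hc hρ hρ1 => ?_⟩
  -- `t ^ v ≤ (1 + ε) c log²`
  have hX : Tendsto (fun d : ℕ => (c * Real.log d ^ 2) ^ (1 / v)) atTop atTop := by
    have h1 : Tendsto (fun d : ℕ => c * Real.log d ^ 2) atTop atTop :=
      Tendsto.const_mul_atTop hc ((tendsto_pow_atTop (by norm_num)).comp tlog)
    exact (tendsto_rpow_atTop (by positivity)).comp h1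
  have hcont : ∀ᶠ x : ℝ in atTop, (x + 1) ^ v ≤ (1 + ε) * x ^ v := by
    have h1 : Tendsto (fun x : ℝ => (1 + 1 / x) ^ v) atTop (𝓝 1) := by
      have h2 : Tendsto (fun x : ℝ => 1 + 1 / x) atTop (𝓝 (1 + 0)) :=
        tendsto_const_nhds.add (tendsto_const_nhds.div_atTop tendsto_id)
      rw [add_zero] at h2
      have h3 := h2.rpow_const (p := v) (Or.inl one_ne_zero)
      rwa [Real.one_rpow] at h3
    filter_upwards [h1.eventually_lt_const (show (1 : ℝ) < 1 + ε by linarith), eventually_gt_atTop 0] with x h2 h3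
    have h4 : x + 1 = x * (1 + 1 / x) := by field_simp
    rw [h4, Real.mul_rpow h3.le (by positivity), mul_comm]
    exact mul_le_mul_of_nonneg_right h2.le (by positivity)
  have htt : Tendsto (fun d : ℕ => tt v c d) atTop atTop := by
    refine tendsto_natCast_atTop_iff.1 (tendsto_atTop_mono (fun d => ?_) hX)
    exact Nat.le_ceil _
  have hlog4 : 0 < Real.log 4 := Real.log_pos (by norm_num)
  filter_upwards [E1 T hT hlog c κ ρ hc hκ0.le hρ hρ1, eventually_ge_atTop 2, hX.eventually hcont,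
    htt.eventually (Phi_upper v ε hv1 hε0), (tt_log v c θ hv0 hc hvθ).eventually_lt_const one_pos,
    (tt_log v c 1 hv0 hc hv3).eventually_lt_const (show 0 < ρ / 3 / Real.log 4 by positivity),
    tlog.eventually_ge_atTop 1] with d h1 hd h2 h3 h4 h5 hl1 hTd y hy
  have hd2' : (2 : ℝ) ≤ d := by exact_mod_cast hd
  have hd0 : (0 : ℝ) < d := by linarith
  have hl : 0 < Real.log d := by linarith
  set X := c * Real.log d ^ 2 with hXdef
  have hX0 : 0 < X := by positivity
  obtain ⟨t, ht⟩ : ∃ t, t = tt v c d := ⟨_, rfl⟩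
  rw [← ht] at h3 h4 h5
  have hV := V_pos t
  refine (h1 t ?_ ?_ y hy ?_).trans (Emp_ge T d _ y hd (Qr_pos 0 t))
  · rw [div_lt_one (by positivity)] at h4
    have : (t : ℝ) ≤ T d := h4.le.trans hTd
    exact_mod_cast this
  · rw [Real.rpow_one, div_lt_iff₀ hl, div_mul_eq_mul_div, lt_div_iff₀ hlog4] at h5
    have h6 : Qr 0 t ≤ 4 ^ t := (Qr_le 0 t t le_rfl).trans (primorial_le_four_pow t)
    have h7 : (Qr 0 t : ℝ) ≤ 4 ^ t := by exact_mod_cast h6
    refine h7.trans ?_
    rw [Real.rpow_def_of_pos hd0, ← Real.rpow_natCast, Real.rpow_def_of_pos (by norm_num)]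
    apply Real.exp_le_exp.2
    linarith
  · have hXt : X ≤ (t : ℝ) ^ v := by
      have h6 : X ^ (1 / v) ≤ t := by
        rw [ht]
        exact Nat.le_ceil _
      calc X = (X ^ (1 / v)) ^ v := by
            rw [← Real.rpow_mul hX0.le, one_div_mul_cancel hv0.ne', Real.rpow_one]
        _ ≤ _ := Real.rpow_le_rpow (by positivity) h6 hv0.le
    have htX : (t : ℝ) ^ v ≤ (1 + ε) * X := by
      have h6 : (t : ℝ) ≤ X ^ (1 / v) + 1 := by
        rw [ht]
        exact (Nat.ceil_lt_add_one (by positivity)).le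
      have h7 : (X ^ (1 / v)) ^ v = X := by
        rw [← Real.rpow_mul hX0.le, one_div_mul_cancel hv0.ne', Real.rpow_one]
      rw [h7] at h2
      exact (Real.rpow_le_rpow (by positivity) h6 hv0.le).trans h2
    have h6 : (((Ioc 0 (y / d)).filter (Rg t)).card : ℝ) ≤ Phi t ((t : ℝ) ^ v) := by
      have h7 : (((Ioc 0 (y / d)).filter (Rg t)).card : ℝ) = Phi t ((y / d : ℕ) : ℝ) := by
        rw [Phi_eq, Nat.floor_natCast, zero_add]
      rw [h7]
      apply Phi_mono
      refine (Nat.cast_div_le.trans ?_).trans hXt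
      rw [div_le_iff₀ hd0]
      rw [hXdef]
      linarith
    have h7 := h6.trans h3
    have h8 : (((Ioc 0 (y / d)).filter (Rg t)).card : ℝ) * (V t)⁻¹ ≤ (1 + ε) * E * (t : ℝ) ^ v := by
      rw [← div_eq_mul_inv, div_le_iff₀ hV]
      calc _ ≤ _ := h7
        _ = _ := by ring
    calc _ ≤ _ := h8
      _ ≤ (1 + ε) * E * ((1 + ε) * X) := by gcongr
      _ = ((1 + ε) * (1 + ε) * E) * X := by ring
      _ ≤ κ * X := by gcongr
      _ = _ := by rw [hXdef]; ring

end

end Pool.Agent.T2H53.CG
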