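import Pool.Agent.T2H53.CG.D
import Pool.Agent.T2H53.CG.F
import Pool.Agent.T2H53.GW.Prob

set_option autoImplicit false

/-! # Upper bound for the probability of an empty class -/

open Finset Filter Topology MeasureTheory ProbabilityTheory
open Pool.Agent.T2H32.BF (V V_pos V_anti V_ratio mertens)
open Pool.Agent.T2H32.GM (Rg Vinv_anti level V_le_one tlog one_sub_ge)
open Pool.Agent.T2H53.GW (HF real_compl_HF some_empty_le)

namespace Pool.Agent.T2H53.CG

section

variable (T : ℕ → ℕ) (hT : Monotone T)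
  (hlog : Tendsto (fun n : ℕ => Real.log (T n) / Real.log n) atTop (𝓝 0))

include hT hlog in
/-- **Every class**, small sieving limits. -/
theorem sum_class (c ρ : ℝ) (hc : 0 < c) (hρ : 0 < ρ) : ∃ ξ : ℝ, 0 < ξ ∧ ∀ᶠ d : ℕ in atTop,
    d.Prime → (T (d ^ 2) : ℝ) ≤ Real.log d ^ ξ → ∀ a : ℕ, 1 ≤ a → a < d → ∀ y : ℕ,
      (y : ℝ) ≤ c * d * Real.log d ^ 2 → c * (d - 1) * Real.log d ^ 2 < y + 1 →
      (c - ρ) * Real.log d ≤ ∑ n ∈ Fb d a y, q T n := by
  set ε := min (1 / 8) (ρ / (4 * c)) with hε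
  have hε0 : 0 < ε := lt_min (by norm_num) (by positivity)
  have hε1 : ε ≤ 1 / 8 := min_le_left _ _
  have hερ : 4 * ε * c ≤ ρ := by
    have h1 : ε ≤ ρ / (4 * c) := min_le_right _ _
    rw [le_div_iff₀ (by positivity)] at h1
    linarith
  obtain ⟨B, K, hK, hlow⟩ := sum_low ε hε0
  refine ⟨1 / ((B : ℝ) + 1), by positivity, ?_⟩
  obtain ⟨N, hN⟩ := eventually_atTop.1 (q_eq T hlog)
  filter_upwards [log_sq_le c ε hε0, eventually_ge_atTop N, eventually_ge_atTop 2,
    tlog.eventually_ge_atTop 1, (tendsto_natCast_atTop_atTop (R := ℝ)).eventually_ge_atTop (2 / ε),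
    tlog.eventually_ge_atTop (K * 2 ^ (B + 1) / (ε * c)),
    tlog.eventually_ge_atTop (6 / (ε * c)), T_pow T hlog (1 / 2) (by norm_num)]
    with d h1 hdN hd2 hl1 h4 h5 h6 h7 hdp hTd a ha1 had y hy1 hy2
  have hd2' : (2 : ℝ) ≤ d := by exact_mod_cast hd2
  have hd0 : (0 : ℝ) < d := by linarith
  have hl : 0 < Real.log d := by linarith
  have hεc : 0 < ε * c := by positivity
  rw [div_le_iff₀ hεc] at h5 h6
  set H := y / d - 1 with hH
  -- size of `H`
  have hHge : (1 - ε) * (c * Real.log d ^ 2) ≤ H := by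
    have h8 : ((y / d : ℕ) : ℝ) ≤ (H : ℝ) + 1 := by
      have : y / d ≤ H + 1 := by omega
      exact_mod_cast this
    have h9 : (y : ℝ) < ((y / d : ℕ) : ℝ) * d + d := by
      have := Nat.lt_div_mul_add (show 0 < d by omega) (a := y)
      exact_mod_cast this
    have h10 : c * (d - 1) * Real.log d ^ 2 < ((H : ℝ) + 2) * d + 1 := by nlinarith
    by_contra hcon
    push Not at hcon
    have h12 : (H : ℝ) * d < (1 - ε) * (c * Real.log d ^ 2) * d := by gcongr
    have h13 : c * d * Real.log d ^ 2 - c * Real.log d ^ 2 < (1 - ε) * (c * Real.log d ^ 2) * d + 2 * d + 1 := by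
      nlinarith
    have h14 : ε * c * Real.log d ^ 2 * d < c * Real.log d ^ 2 + 2 * d + 1 := by nlinarith
    have h15 : 6 ≤ ε * c * Real.log d ^ 2 := by nlinarith
    have h16 : c * Real.log d ^ 2 ≤ (c * Real.log d ^ 2) * (ε * d / 2) := by
      have : (1 : ℝ) ≤ ε * d / 2 := by
        rw [div_le_iff₀ hε0] at h4
        linarith
      exact le_mul_of_one_le_right (by positivity) this
    nlinarith
  have hHd : a + H * d ≤ y := by
    have h8 : 1 ≤ y / d := by
      by_contra h9
      have h10 : H = 0 := by omega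
      rw [h10, Nat.cast_zero] at hHge
      have : 0 < (1 - ε) * (c * Real.log d ^ 2) := by
        have : 0 < 1 - ε := by linarith
        positivity
      linarith
    have h9 := Nat.div_mul_le_self y d
    have h10 : H * d + d = y / d * d := by
      rw [hH, ← Nat.succ_mul]
      congr 1
      omega
    omega
  have hyd2 : (y : ℝ) ≤ (d : ℝ) * (d : ℝ) ^ ε := by
    calc (y : ℝ) ≤ d * (c * Real.log d ^ 2) := by linarith
      _ ≤ _ := by gcongr
  have hyd : y ≤ d ^ 2 := by
    have h8 : (d : ℝ) ^ ε ≤ d := by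
      calc (d : ℝ) ^ ε ≤ (d : ℝ) ^ (1 : ℝ) :=
            Real.rpow_le_rpow_of_exponent_le (by linarith) (by linarith)
        _ = d := Real.rpow_one _
    have h9 : (y : ℝ) ≤ ((d ^ 2 : ℕ) : ℝ) := by
      push_cast
      refine hyd2.trans ?_
      nlinarith
    exact_mod_cast h9
  have hlogn : ∀ k ∈ Ioc 0 H, Real.log ((d * k + a : ℕ) : ℝ) ≤ (1 + ε) * Real.log d := by
    intro k hk
    rw [mem_Ioc] at hk
    have h8 : d * k + a ≤ y := by
      have : d * k ≤ H * d := by rw [mul_comm]; exact Nat.mul_le_mul_right _ hk.2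
      omega
    have h9 : ((d * k + a : ℕ) : ℝ) ≤ (d : ℝ) * (d : ℝ) ^ ε :=
      le_trans (by exact_mod_cast h8) hyd2
    have h10 : (0 : ℝ) < ((d * k + a : ℕ) : ℝ) := by
      have : 0 < d * k + a := by omega
      exact_mod_cast this
    refine (Real.log_le_log h10 h9).trans (le_of_eq ?_)
    rw [Real.log_mul hd0.ne' (by positivity), Real.log_rpow hd0]
    ring
  have hqw : ∀ k ∈ Ioc 0 H, wt (T (d * k + a)) (d * k + a) / ((1 + ε) * Real.log d) ≤ q T (d * k + a) := by
    intro k hk
    have hk' := mem_Ioc.1 hk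
    have hdk : d ≤ d * k := Nat.le_mul_of_pos_right _ hk'.1
    rw [hN (d * k + a) (by omega)]
    have h8 := wt_nonneg (T (d * k + a)) (d * k + a)
    have h9 : 0 < Real.log ((d * k + a : ℕ) : ℝ) := by
      apply Real.log_pos
      have : 1 < d * k + a := by omega
      exact_mod_cast this
    gcongr
    exact hlogn k hk
  have hTH : T (d * H + a) ≤ T (d ^ 2) := hT (by
    have : d * H = H * d := mul_comm _ _
    omega)
  have hTd1 : T (d ^ 2) < d := by
    have h8 : (T (d ^ 2) : ℝ) < d := by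
      refine lt_of_le_of_lt h7 ?_
      calc (d : ℝ) ^ (1 / 2 : ℝ) < (d : ℝ) ^ (1 : ℝ) :=
            Real.rpow_lt_rpow_of_exponent_lt (by linarith) (by norm_num)
        _ = d := Real.rpow_one _
    exact_mod_cast h8
  have hlow' := hlow (fun b => T (d * b + a)) (fun b b' hbb => hT (by gcongr)) d a 0 H
    (fun p hp hpT hpd => by
      have h8 : p = d := (Nat.prime_dvd_prime_iff_eq hp hdp).1 hpd
      rw [zero_add] at hpT
      omega)
  rw [zero_add] at hlow'
  have herr : K * ((T (d * H + a) : ℝ) + 1) ^ B * (V (T (d * H + a)))⁻¹ ≤ ε * (c * Real.log d ^ 2) := by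
    have h8 : (T (d * H + a) : ℝ) ≤ Real.log d ^ (1 / ((B : ℝ) + 1)) :=
      le_trans (by exact_mod_cast hTH) hTd
    have h9 : (1 : ℝ) ≤ Real.log d ^ (1 / ((B : ℝ) + 1)) := Real.one_le_rpow hl1 (by positivity)
    calc K * ((T (d * H + a) : ℝ) + 1) ^ B * (V (T (d * H + a)))⁻¹ ≤
        K * ((T (d * H + a) : ℝ) + 1) ^ B * ((T (d * H + a) : ℝ) + 1) := by
          gcongr
          exact Vinv_lin _
      _ = K * ((T (d * H + a) : ℝ) + 1) ^ (B + 1) := by ring
      _ ≤ K * (2 * Real.log d ^ (1 / ((B : ℝ) + 1))) ^ (B + 1) := by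
          gcongr
          linarith
      _ = K * 2 ^ (B + 1) * Real.log d := by
          rw [mul_pow, ← Real.rpow_natCast (Real.log d ^ (1 / ((B : ℝ) + 1))), ← Real.rpow_mul hl.le,
            mul_assoc]
          congr 2
          have : 1 / ((B : ℝ) + 1) * ((B + 1 : ℕ) : ℝ) = 1 := by
            push_cast
            field_simp
          rw [this, Real.rpow_one]
      _ ≤ Real.log d * (ε * c) * Real.log d := by gcongr
      _ = _ := by ring
  have hsum : (c - ρ) * Real.log d ≤ ∑ k ∈ Ioc 0 H, q T (d * k + a) := by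
    refine le_trans ?_ (sum_le_sum hqw)
    rw [← sum_div, le_div_iff₀ (by positivity)]
    refine le_trans ?_ hlow'
    have h8 : (1 - ε) * ((1 - ε) * (c * Real.log d ^ 2)) ≤ (1 - ε) * H := by
      have : 0 ≤ 1 - ε := by linarith
      gcongr
    have h9 : (c - ρ) * (1 + ε) ≤ (1 - ε) * (1 - ε) * c - ε * c := by nlinarith
    have h10 : (c - ρ) * (1 + ε) * Real.log d ^ 2 ≤ ((1 - ε) * (1 - ε) * c - ε * c) * Real.log d ^ 2 := by
      gcongr
    nlinarith
  exact hsum.trans (Fb_ge d a y H ha1 had hHd (q T) (q_nonneg T))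

/-! ## every class contains random primes -/

include hlog in
theorem T_lt : ∀ᶠ n : ℕ in atTop, T n < n := by
  filter_upwards [hlog.eventually_lt_const (show (0 : ℝ) < 1 by norm_num), eventually_ge_atTop 2] with n h1 h2
  have hn : (2 : ℝ) ≤ n := by exact_mod_cast h2
  have hl : 0 < Real.log n := Real.log_pos (by linarith)
  rw [div_lt_one hl] at h1
  rcases Nat.eq_zero_or_pos (T n) with h | h
  · omega
  · have h3 : (T n : ℝ) < n := (Real.log_lt_log_iff (by exact_mod_cast h) (by linarith)).1 h1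
    exact_mod_cast h3

include hlog in
theorem q_prime : ∀ᶠ n : ℕ in atTop, n.Prime → 1 / Real.log n ≤ q T n := by
  have hTr : Tendsto (fun n : ℕ => (n : ℝ)) atTop atTop := tendsto_natCast_atTop_atTop
  filter_upwards [T_lt T hlog, hTr.eventually_ge_atTop 3] with n h1 h2 hp
  have hn0 : (0 : ℝ) < n := by linarith
  have hl : 1 ≤ Real.log n := by
    rw [Real.le_log_iff_exp_le hn0]
    have := Real.exp_one_lt_d9
    linarith
  have hV := V_pos (T n)
  unfold q
  rw [if_pos]
  · apply le_min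
    · rw [div_le_one (by linarith)]; exact hl
    · apply one_div_le_one_div_of_le (by positivity)
      have := V_le_one (T n)
      nlinarith
  · intro p hpT hpp hdvd
    have : p = n := (Nat.prime_dvd_prime_iff_eq hpp hp).mp hdvd
    omega

include hlog in
theorem not_summable_class (d a : ℕ) (hd : 0 < d) (had : Nat.Coprime a d) :
    ¬ Summable fun n : ℕ => if n % d = a % d then q T n else 0 := by
  intro H
  have : NeZero d := ⟨hd.ne'⟩
  have hu : IsUnit (a : ZMod d) := (ZMod.isUnit_iff_coprime a d).mpr had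
  apply ArithmeticFunction.vonMangoldt.not_summable_residueClass_prime_div hu
  have hTr : Tendsto (fun n : ℕ => (n : ℝ)) atTop atTop := tendsto_natCast_atTop_atTop
  have t1 : Tendsto (fun n : ℕ => Real.log (n : ℝ) / (n : ℝ) ^ (1 / 2 : ℝ)) atTop (𝓝 0) :=
    ((isLittleO_log_rpow_atTop (show (0 : ℝ) < 1 / 2 by norm_num)).tendsto_div_nhds_zero).comp hTr
  refine Summable.of_norm_bounded_eventually_nat H ?_
  filter_upwards [q_prime T hlog, t1.eventually (eventually_lt_nhds (show (0 : ℝ) < 1 by norm_num)),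
    hTr.eventually_ge_atTop 3] with n h1 h2 h3
  have hn0 : (0 : ℝ) < n := by linarith
  by_cases hp : n.Prime
  · rw [if_pos hp]
    unfold ArithmeticFunction.vonMangoldt.residueClass
    by_cases hna : (n : ZMod d) = (a : ZMod d)
    · have hmem : n ∈ {n : ℕ | (n : ZMod d) = (a : ZMod d)} := hna
      rw [Set.indicator_of_mem hmem]
      have hmod : n % d = a % d := (ZMod.natCast_eq_natCast_iff' n a d).mp hna
      rw [if_pos hmod, ArithmeticFunction.vonMangoldt_apply_prime hp]
      have hl : 0 < Real.log n := Real.log_pos (by linarith)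
      rw [Real.norm_of_nonneg (by positivity)]
      refine le_trans ?_ (h1 hp)
      rw [div_le_div_iff₀ hn0 hl, one_mul]
      have hs : 0 < (n : ℝ) ^ (1 / 2 : ℝ) := Real.rpow_pos_of_pos hn0 _
      rw [div_lt_one hs] at h2
      have hss : (n : ℝ) ^ (1 / 2 : ℝ) * (n : ℝ) ^ (1 / 2 : ℝ) = n := by
        rw [← Real.rpow_add hn0]; norm_num
      nlinarith
    · have hmem : n ∉ {n : ℕ | (n : ZMod d) = (a : ZMod d)} := hna
      rw [Set.indicator_of_notMem hmem]
      simp only [zero_div, norm_zero]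
      split_ifs
      · exact q_nonneg T n
      · exact le_rfl
  · rw [if_neg hp]
    simp only [zero_div, norm_zero]
    split_ifs
    · exact q_nonneg T n
    · exact le_rfl

include hlog in
theorem class_nonempty (d a : ℕ) (hd : 0 < d) (had : Nat.Coprime a d)
    {Ω : Type*} [MeasurableSpace Ω] {μ : Measure Ω} [IsProbabilityMeasure μ] {S : ℕ → Set Ω}
    (hm : ∀ n, MeasurableSet (S n)) (hi : iIndepSet S μ) (hp : ∀ n, μ.real (S n) = q T n) :
    ∀ᵐ ω ∂μ, ∃ n : ℕ, n % d = a % d ∧ ω ∈ S n := by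
  classical
  have hns := not_summable_class T hlog d a hd had
  rw [not_summable_iff_tendsto_nat_atTop_of_nonneg (fun n => by
    split_ifs
    · exact q_nonneg T n
    · exact le_rfl)] at hns
  rw [ae_iff]
  have h1 : ∀ N : ℕ, μ.real {ω | ¬ ∃ n : ℕ, n % d = a % d ∧ ω ∈ S n} ≤
      Real.exp (-(∑ n ∈ range N, if n % d = a % d then q T n else 0)) := by
    intro N
    have h2 := some_empty_le hm hi {0} (fun _ => (range N).filter fun n => n % d = a % d)
      (∑ n ∈ range N, if n % d = a % d then q T n else 0) (fun _ _ => by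
        rw [← sum_filter]
        exact (sum_congr rfl fun n _ => (hp n).symm).le)
    simp only [card_singleton, Nat.cast_one, one_mul] at h2
    refine le_trans (measureReal_mono ?_ (measure_ne_top _ _)) h2
    intro ω hω
    simp only [Finset.mem_singleton, Set.iUnion_iUnion_eq_left]
    intro hc
    apply hω
    unfold HF at hc
    simp only [Set.mem_iUnion, mem_filter] at hc
    obtain ⟨n, ⟨_, hn⟩, hn2⟩ := hc
    exact ⟨n, hn, hn2⟩
  have h3 : μ.real {ω | ¬ ∃ n : ℕ, n % d = a % d ∧ ω ∈ S n} ≤ 0 :=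
    ge_of_tendsto' (Real.tendsto_exp_neg_atTop_nhds_zero.comp hns) h1
  have h4 := le_antisymm h3 measureReal_nonneg
  rw [measureReal_eq_zero_iff] at h4
  exact h4

include hlog in
theorem all_classes {Ω : Type*} [MeasurableSpace Ω] {μ : Measure Ω} [IsProbabilityMeasure μ]
    {S : ℕ → Set Ω} (hm : ∀ n, MeasurableSet (S n)) (hi : iIndepSet S μ)
    (hp : ∀ n, μ.real (S n) = q T n) :
    ∀ᵐ ω ∂μ, ∀ d a : ℕ, 0 < d → Nat.Coprime a d → ∃ n : ℕ, n % d = a % d ∧ ω ∈ S n := by
  rw [ae_all_iff]
  intro d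
  rw [ae_all_iff]
  intro a
  by_cases hd : 0 < d
  · by_cases ha : Nat.Coprime a d
    · filter_upwards [class_nonempty T hlog d a hd ha hm hi hp] with ω hω _ _
      exact hω
    · exact Filter.Eventually.of_forall fun ω _ h => absurd h ha
  · exact Filter.Eventually.of_forall fun ω h => absurd h hd

end

end Pool.Agent.T2H53.CG
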