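import Pool.Agent.T2H53.CG.E
import Pool.Agent.T2H53.CG.G
import Pool.Agent.T2H53.CG.H

set_option autoImplicit false

/-! # Probability assembly -/

open Finset Filter Topology MeasureTheory ProbabilityTheory
open Pool.Agent.T2H32.BF (V V_pos V_anti V_ratio mertens pnt)
open Pool.Agent.T2H32.GM (Rg Vinv_anti level V_le_one tlog one_sub_ge)
open Pool.Agent.T2H53.GW (HF real_compl_HF some_empty_le bc measurable_HF)

namespace Pool.Agent.T2H53.CG

/-- the largest, over the classes modulo `d` prime to `d`, of the least element of `R` in the class -/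
noncomputable def LL (R : Set ℕ) (d : ℕ) : ℕ :=
  ((Finset.range d).filter (fun a => Nat.Coprime a d)).sup (fun a => sInf {n : ℕ | n ∈ R ∧ n % d = a})

/-- its quotient by `φ(d) (log d)²` -/
noncomputable def ratio (R : Set ℕ) (d : ℕ) : ℝ :=
  (LL R d : ℝ) / ((d.totient : ℝ) * Real.log d ^ 2)

/-- the bound `c (d - 1) log² d` -/
noncomputable def yy (c : ℝ) (d : ℕ) : ℕ := ⌊c * (d - 1) * Real.log d ^ 2⌋₊

theorem yy_le (c : ℝ) (hc : 0 < c) (d : ℕ) (hd : 1 ≤ d) : (yy c d : ℝ) ≤ c * d * Real.log d ^ 2 := by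
  have hd' : (1 : ℝ) ≤ d := by exact_mod_cast hd
  have h0 : 0 ≤ c * ((d : ℝ) - 1) * Real.log d ^ 2 := by
    have : 0 ≤ (d : ℝ) - 1 := by linarith
    positivity
  refine (Nat.floor_le h0).trans ?_
  have : (d : ℝ) - 1 ≤ d := by linarith
  gcongr

section det

variable {Ω : Type*} {S : ℕ → Set Ω}

/-- an empty class makes the ratio large -/
theorem ratio_gt {ω : Ω} {d a : ℕ} (hd : d.Prime) (ha1 : 1 ≤ a) (had : a < d) (c : ℝ)
    (hne : ∃ n : ℕ, n % d = a % d ∧ ω ∈ S n) (h : ω ∉ HF S (Fb d a (yy c d))) :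
    c < ratio {n | ω ∈ S n} d := by
  have hd2 : (2 : ℝ) ≤ d := by exact_mod_cast hd.two_le
  have hlog : 0 < Real.log (d : ℝ) := Real.log_pos (by linarith)
  have hd1 : 1 ≤ d := hd.one_le
  obtain ⟨m, hm1, hm2⟩ := hne
  rw [Nat.mod_eq_of_lt had] at hm1
  have hnes : ({n : ℕ | n ∈ {n | ω ∈ S n} ∧ n % d = a}).Nonempty := ⟨m, hm2, hm1⟩
  have hmem := Nat.sInf_mem hnes
  set n0 := sInf {n : ℕ | n ∈ {n | ω ∈ S n} ∧ n % d = a} with hn0
  have hco : Nat.Coprime a d := (Nat.Coprime.symm (Nat.coprime_of_lt_prime (by omega) had hd))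
  have h1 : n0 ≤ LL {n | ω ∈ S n} d := by
    unfold LL
    exact Finset.le_sup (f := fun a => sInf {n : ℕ | n ∈ {n | ω ∈ S n} ∧ n % d = a})
      (mem_filter.mpr ⟨mem_range.mpr had, hco⟩)
  have h2 : yy c d < n0 := by
    by_contra hc
    push Not at hc
    apply h
    unfold HF
    simp only [Set.mem_iUnion]
    refine ⟨n0, ?_, hmem.1⟩
    unfold Fb
    rw [mem_filter, mem_Icc]
    refine ⟨⟨?_, hc⟩, hmem.2⟩
    by_contra h0
    have h00 : n0 = 0 := by omega
    have := hmem.2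
    rw [h00, Nat.zero_mod] at this
    omega
  have h3 : c * (d - 1) * Real.log d ^ 2 < n0 := Nat.lt_of_floor_lt h2
  unfold ratio
  rw [Nat.totient_prime hd, Nat.cast_sub hd1, Nat.cast_one]
  have : 0 < (d : ℝ) - 1 := by linarith
  rw [lt_div_iff₀ (by positivity)]
  have h6 : (n0 : ℝ) ≤ (LL {n | ω ∈ S n} d : ℝ) := by exact_mod_cast h1
  linarith

/-- no empty class makes the ratio small -/
theorem ratio_le {ω : Ω} {d : ℕ} (hd : d.Prime) (c : ℝ) (hc : 0 < c)
    (h : ∀ a : ℕ, 1 ≤ a → a < d → ω ∈ HF S (Fb d a (yy c d))) :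
    ratio {n | ω ∈ S n} d ≤ c := by
  have hd2 : (2 : ℝ) ≤ d := by exact_mod_cast hd.two_le
  have hlog : 0 < Real.log (d : ℝ) := Real.log_pos (by linarith)
  have hd1 : 1 ≤ d := hd.one_le
  have h1 : LL {n | ω ∈ S n} d ≤ yy c d := by
    unfold LL
    apply Finset.sup_le
    intro a ha
    rw [mem_filter, mem_range] at ha
    have ha1 : 1 ≤ a := by
      by_contra h0
      have h00 : a = 0 := by omega
      have h2 := ha.2
      rw [h00, Nat.coprime_zero_left] at h2
      exact hd.one_lt.ne' h2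
    have h2 := h a ha1 ha.1
    unfold HF at h2
    simp only [Set.mem_iUnion] at h2
    obtain ⟨n, hn, hω⟩ := h2
    unfold Fb at hn
    rw [mem_filter, mem_Icc] at hn
    exact (Nat.sInf_le (⟨hω, hn.2⟩ : n ∈ {n : ℕ | n ∈ {n | ω ∈ S n} ∧ n % d = a})).trans hn.1.2
  unfold ratio
  rw [Nat.totient_prime hd, Nat.cast_sub hd1, Nat.cast_one]
  have h0 : 0 < (d : ℝ) - 1 := by linarith
  rw [div_le_iff₀ (by positivity)]
  have h2 : (LL {n | ω ∈ S n} d : ℝ) ≤ (yy c d : ℝ) := by exact_mod_cast h1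
  have h3 := Nat.floor_le (show 0 ≤ c * ((d : ℝ) - 1) * Real.log d ^ 2 by positivity)
  unfold yy at h2
  linarith

end det

/-- number of primes between `D` and `2 D` -/
theorem primes_dyadic (ρ : ℝ) (hρ : 0 < ρ) : ∀ᶠ D : ℕ in atTop,
    (D : ℝ) ^ (1 - ρ) ≤ (((Ioc D (2 * D)).filter Nat.Prime).card : ℝ) := by
  have h2 : Tendsto (fun D : ℕ => 2 * D) atTop atTop := tendsto_id.const_mul_atTop' (by norm_num)
  have hpnt := pnt
  filter_upwards [hpnt.eventually_lt_const (show (1 : ℝ) < 11 / 10 by norm_num),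
    (hpnt.comp h2).eventually_const_lt (show (9 / 10 : ℝ) < 1 by norm_num),
    tlog.eventually_ge_atTop 100, log_sq_le 4 ρ hρ, eventually_ge_atTop 2] with D h1 h2 h3 h4 hD
  have hD' : (2 : ℝ) ≤ D := by exact_mod_cast hD
  have hl : 0 < Real.log D := by linarith
  simp only [Function.comp_apply] at h2
  push_cast at h2
  rw [div_lt_iff₀ (by linarith)] at h1
  rw [lt_div_iff₀ (by linarith)] at h2
  have h5 : Real.log (2 * D) ≤ 101 / 100 * Real.log D := by
    rw [Real.log_mul (by norm_num) (by linarith)]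
    have := Real.log_two_lt_d9
    linarith
  have hcard : (Nat.primeCounting (2 * D) : ℝ) = Nat.primeCounting D +
      (((Ioc D (2 * D)).filter Nat.Prime).card : ℝ) := by
    have h6 : Nat.primeCounting (2 * D) = Nat.primeCounting D + ((Ioc D (2 * D)).filter Nat.Prime).card := by
      unfold Nat.primeCounting Nat.primeCounting'
      rw [Nat.count_eq_card_filter_range, Nat.count_eq_card_filter_range, ← card_union_of_disjoint]
      · congr 1
        ext p
        simp only [mem_filter, mem_range, mem_union, mem_Ioc]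
        constructor
        · rintro ⟨h7, h8⟩
          by_cases h9 : p < D + 1
          · exact Or.inl ⟨h9, h8⟩
          · exact Or.inr ⟨by omega, h8⟩
        · rintro (⟨h7, h8⟩ | ⟨h7, h8⟩)
          · exact ⟨by omega, h8⟩
          · exact ⟨by omega, h8⟩
      · rw [disjoint_left]
        intro p hp1 hp2
        simp only [mem_filter, mem_range, mem_Ioc] at hp1 hp2
        omega
    exact_mod_cast h6
  set C : ℝ := (((Ioc D (2 * D)).filter Nat.Prime).card : ℝ) with hC
  rw [hcard] at h2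
  have hC0 : 0 ≤ C := Nat.cast_nonneg _
  have hπ0 : (0 : ℝ) ≤ Nat.primeCounting D := Nat.cast_nonneg _
  -- `(π(D) + C) * 1.01 log D > 1.8 D`, `π(D) log D < 1.1 D`
  have h6 : 9 / 10 * (2 * (D : ℝ)) < ((Nat.primeCounting D : ℝ) + C) * (101 / 100 * Real.log D) :=
    lt_of_lt_of_le h2 (by gcongr)
  have h7 : (D : ℝ) / 2 ≤ C * Real.log D := by nlinarith
  have h8 : (D : ℝ) ^ (1 - ρ) * (D : ℝ) ^ ρ = D := by
    rw [← Real.rpow_add (by linarith)]
    have : 1 - ρ + ρ = 1 := by ring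
    rw [this, Real.rpow_one]
  have h9 : 4 * Real.log D ≤ (D : ℝ) ^ ρ := by nlinarith
  have h10 : 0 ≤ (D : ℝ) ^ (1 - ρ) := by positivity
  have h11 : (D : ℝ) ^ (1 - ρ) * (4 * Real.log D) ≤ D := by
    calc _ ≤ (D : ℝ) ^ (1 - ρ) * (D : ℝ) ^ ρ := by gcongr
      _ = D := h8
  have h12 : (D : ℝ) ^ (1 - ρ) * Real.log D ≤ C * Real.log D := by nlinarith
  exact le_of_mul_le_mul_right h12 hl

section

variable (T : ℕ → ℕ) (hT : Monotone T)
  (hlog : Tendsto (fun n : ℕ => Real.log (T n) / Real.log n) atTop (𝓝 0))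
  {Ω : Type*} [MeasurableSpace Ω] {μ : Measure Ω} [IsProbabilityMeasure μ] {S : ℕ → Set Ω}

omit [IsProbabilityMeasure μ] in
theorem prod_eq (hp : ∀ n, μ.real (S n) = q T n) (F : Finset ℕ) :
    ∏ n ∈ F, (1 - μ.real (S n)) = ∏ n ∈ F, (1 - q T n) :=
  prod_congr rfl fun n _ => by rw [hp]

/-- **P1**: all large prime moduli have an empty class -/
theorem P1 (hm : ∀ n, MeasurableSet (S n)) (hi : iIndepSet S μ)
    (hp : ∀ n, μ.real (S n) = q T n) (hne : ∀ᵐ ω ∂μ, ∀ d a : ℕ, 0 < d → Nat.Coprime a d →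
      ∃ n : ℕ, n % d = a % d ∧ ω ∈ S n) (c e : ℝ) (he : 0 < e)
    (h : ∀ᶠ d : ℕ in atTop, d.Prime → (d : ℝ) ^ e ≤ Emp T d (yy c d)) :
    ∀ᵐ ω ∂μ, ∀ᶠ d : ℕ in atTop, d.Prime → c < ratio {n | ω ∈ S n} d := by
  have hexp : ∀ᶠ d : ℕ in atTop, Real.exp (-((d : ℝ) ^ e)) ≤ 1 / (d : ℝ) ^ 2 := by
    filter_upwards [log_sq_le 2 e he, tlog.eventually_ge_atTop 1, eventually_ge_atTop 1] with d h1 h2 h3
    have hd : (0 : ℝ) < d := by exact_mod_cast h3
    have h4 : 2 * Real.log d ≤ (d : ℝ) ^ e := by nlinarith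
    have h5 : (1 : ℝ) / (d : ℝ) ^ 2 = Real.exp (-(2 * Real.log d)) := by
      rw [Real.exp_neg, mul_comm, Real.exp_mul, Real.exp_log hd]
      norm_num
    rw [h5]
    exact Real.exp_le_exp.2 (by linarith)
  obtain ⟨d₀, hd₀⟩ := eventually_atTop.1 (h.and hexp)
  have h1 := bc (μ := μ) (fun d => if d.Prime then ⋂ a ∈ U d, HF S (Fb d a (yy c d)) else ∅) d₀
    (fun d => 1 / (d : ℝ) ^ 2) (Real.summable_one_div_nat_pow.mpr (by norm_num)) (by
      intro d hd
      by_cases hdp : d.Prime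
      · simp only [if_pos hdp]
        obtain ⟨h2, h3⟩ := hd₀ d hd
        refine (all_hit_le' hm hi (U d) (fun a => Fb d a (yy c d)) ?_).trans ?_
        · intro a _ b _ hab
          rw [disjoint_left]
          intro n hn1 hn2
          unfold Fb at hn1 hn2
          rw [mem_filter] at hn1 hn2
          exact hab (hn1.2.symm.trans hn2.2)
        · refine le_trans ?_ h3
          apply Real.exp_le_exp.2
          have h4 := h2 hdp
          unfold Emp at h4
          simp only [prod_eq T hp]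
          linarith
      · simp only [if_neg hdp, measureReal_empty]
        positivity)
  filter_upwards [h1, hne] with ω hω hω2
  filter_upwards [hω] with d hd hdp
  rw [if_pos hdp] at hd
  simp only [Set.mem_iInter, not_forall] at hd
  obtain ⟨a, ha, hda⟩ := hd
  unfold U at ha
  rw [mem_filter, mem_range] at ha
  have ha1 : 1 ≤ a := by omega
  exact ratio_gt hdp ha1 ha.1 c (hω2 d a hdp.pos
    (Nat.Coprime.symm (Nat.coprime_of_lt_prime (by omega) ha.1 hdp))) hda

/-- **P3**: all large prime moduli have no empty class -/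
theorem P3 (hm : ∀ n, MeasurableSet (S n)) (hi : iIndepSet S μ)
    (hp : ∀ n, μ.real (S n) = q T n) (c e : ℝ) (hc : 0 < c) (he : 2 < e)
    (h : ∀ᶠ d : ℕ in atTop, d.Prime → ∀ a : ℕ, 1 ≤ a → a < d →
      e * Real.log d ≤ ∑ n ∈ Fb d a (yy c d), q T n) :
    ∀ᵐ ω ∂μ, ∀ᶠ d : ℕ in atTop, d.Prime → ratio {n | ω ∈ S n} d ≤ c := by
  obtain ⟨d₀, hd₀⟩ := eventually_atTop.1 h
  have h1 := bc (μ := μ) (fun d => if d.Prime then ⋃ a ∈ Ico 1 d, (HF S (Fb d a (yy c d)))ᶜ else ∅) (max d₀ 1)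
    (fun d => 1 / (d : ℝ) ^ (e - 1)) (Real.summable_one_div_nat_rpow.mpr (by linarith)) (by
      intro d hd
      by_cases hdp : d.Prime
      · simp only [if_pos hdp]
        have h2 := hd₀ d ((le_max_left _ _).trans hd) hdp
        refine (some_empty_le hm hi (Ico 1 d) (fun a => Fb d a (yy c d)) (e * Real.log d) ?_).trans ?_
        · intro a ha
          rw [mem_Ico] at ha
          simp only [hp]
          exact h2 a ha.1 ha.2
        · have hd0 : (0 : ℝ) < d := by exact_mod_cast hdp.pos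
          rw [Nat.card_Ico]
          have h3 : Real.exp (-(e * Real.log d)) = (d : ℝ) ^ (-e) := by
            rw [Real.rpow_def_of_pos hd0]
            congr 1
            ring
          rw [h3, one_div, ← Real.rpow_neg hd0.le]
          calc ((d - 1 : ℕ) : ℝ) * (d : ℝ) ^ (-e) ≤ (d : ℝ) * (d : ℝ) ^ (-e) := by
                gcongr
                exact_mod_cast Nat.sub_le d 1
            _ = (d : ℝ) ^ (-(e - 1)) := by
                have h4 : -(e - 1) = 1 + (-e) := by ring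
                rw [h4, Real.rpow_add hd0, Real.rpow_one]
      · simp only [if_neg hdp, measureReal_empty]
        positivity)
  filter_upwards [h1] with ω hω
  filter_upwards [hω] with d hd hdp
  rw [if_pos hdp] at hd
  refine ratio_le hdp c hc fun a ha1 had => ?_
  by_contra hcon
  apply hd
  simp only [Set.mem_iUnion]
  exact ⟨a, mem_Ico.2 ⟨ha1, had⟩, hcon⟩

/-- **P4**: infinitely many prime moduli have no empty class -/
theorem P4 (hm : ∀ n, MeasurableSet (S n)) (hi : iIndepSet S μ)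
    (hp : ∀ n, μ.real (S n) = q T n) (c e : ℝ) (hc : 0 < c) (he : 1 < e)
    (h : ∃ᶠ d : ℕ in atTop, d.Prime ∧ ∀ a : ℕ, 1 ≤ a → a < d →
      e * Real.log d ≤ ∑ n ∈ Fb d a (yy c d), q T n) :
    ∀ᵐ ω ∂μ, ∃ᶠ d : ℕ in atTop, d.Prime ∧ ratio {n | ω ∈ S n} d ≤ c := by
  obtain ⟨φ, hφ, hφ2⟩ := extraction_of_frequently_atTop h
  have h1 := freq_of_tendsto (μ := μ)
    (fun d => if d.Prime then (⋃ a ∈ Ico 1 d, (HF S (Fb d a (yy c d)))ᶜ)ᶜ else ∅) φ hφ.tendsto_atTop (by
      have h0 : Tendsto (fun d : ℕ => (d : ℝ) ^ (-(e - 1))) atTop (𝓝 0) :=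
        (tendsto_rpow_neg_atTop (by linarith)).comp tendsto_natCast_atTop_atTop
      refine squeeze_zero (fun _ => measureReal_nonneg) (fun j => ?_) (h0.comp hφ.tendsto_atTop)
      obtain ⟨hdp, h2⟩ := hφ2 j
      set d := φ j with hd
      simp only [if_pos hdp, compl_compl, Function.comp_apply]
      rw [← hd]
      refine (some_empty_le hm hi (Ico 1 d) (fun a => Fb d a (yy c d)) (e * Real.log d) ?_).trans ?_
      · intro a ha
        rw [mem_Ico] at ha
        simp only [hp]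
        exact h2 a ha.1 ha.2
      · have hd0 : (0 : ℝ) < d := by exact_mod_cast hdp.pos
        rw [Nat.card_Ico]
        have h3 : Real.exp (-(e * Real.log d)) = (d : ℝ) ^ (-e) := by
          rw [Real.rpow_def_of_pos hd0]
          congr 1
          ring
        rw [h3]
        calc ((d - 1 : ℕ) : ℝ) * (d : ℝ) ^ (-e) ≤ (d : ℝ) * (d : ℝ) ^ (-e) := by
              gcongr
              exact_mod_cast Nat.sub_le d 1
          _ = (d : ℝ) ^ (-(e - 1)) := by
              have h4 : -(e - 1) = 1 + (-e) := by ring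
              rw [h4, Real.rpow_add hd0, Real.rpow_one])
  filter_upwards [h1] with ω hω
  refine hω.mono fun d hd => ?_
  by_cases hdp : d.Prime
  · simp only [if_pos hdp] at hd
    refine ⟨hdp, ratio_le hdp c hc fun a ha1 had => ?_⟩
    by_contra hcon
    apply hd
    simp only [Set.mem_iUnion]
    exact ⟨a, mem_Ico.2 ⟨ha1, had⟩, hcon⟩
  · simp only [if_neg hdp] at hd
    exact absurd hd (Set.notMem_empty _)

/-- blocks of different classes share at most one element -/
theorem inter_le_one (d d' a a' y y' : ℕ) (hd : d.Prime) (hd' : d'.Prime) (hne : (d, a) ≠ (d', a'))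
    (hy : y < d * d') : (Fb d a y ∩ Fb d' a' y').card ≤ 1 := by
  rw [card_le_one]
  intro n hn m hm
  simp only [mem_inter, Fb, mem_filter, mem_Icc] at hn hm
  obtain ⟨⟨⟨_, hn1⟩, hn2⟩, ⟨_, hn3⟩⟩ := hn
  obtain ⟨⟨⟨_, hm1⟩, hm2⟩, ⟨_, hm3⟩⟩ := hm
  by_cases hdd : d = d'
  · subst hdd
    exact absurd (by rw [← hn2, hn3]) hne
  · have hco : Nat.Coprime d d' := (Nat.coprime_primes hd hd').2 hdd
    have h1 : n ≡ m [MOD d] := by unfold Nat.ModEq; rw [hn2, hm2]
    have h2 : n ≡ m [MOD d'] := by unfold Nat.ModEq; rw [hn3, hm3]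
    have h3 : n ≡ m [MOD d * d'] := (Nat.modEq_and_modEq_iff_modEq_mul hco).1 ⟨h1, h2⟩
    exact Nat.ModEq.eq_of_lt_of_lt h3 (by omega) (by omega)

end

end Pool.Agent.T2H53.CG
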