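import Pool.Agent.T2H53.CG.I

set_option autoImplicit false

/-! # The second moment -/

open Finset Filter Topology MeasureTheory ProbabilityTheory
open Pool.Agent.T2H32.BF (V V_pos V_anti V_ratio mertens pnt)
open Pool.Agent.T2H32.GM (Rg Vinv_anti level V_le_one tlog one_sub_ge)
open Pool.Agent.T2H53.GW (HF real_compl_HF some_empty_le bc measurable_HF)

namespace Pool.Agent.T2H53.CG

/-- the pairs (modulus, class) -/
def II (D : ℕ) : Finset (Σ _ : ℕ, ℕ) := ((Ioc D (2 * D)).filter Nat.Prime).sigma fun d => U d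

section

variable (T : ℕ → ℕ) (hT : Monotone T)
  (hlog : Tendsto (fun n : ℕ => Real.log (T n) / Real.log n) atTop (𝓝 0))
  {Ω : Type*} [MeasurableSpace Ω] {μ : Measure Ω} [IsProbabilityMeasure μ] {S : ℕ → Set Ω}

theorem pow_low (e x : ℝ) (D : ℝ) (hD : 0 < D) (h1 : D ≤ x) (h2 : x ≤ 2 * D) :
    (2 : ℝ) ^ (-|e|) * D ^ e ≤ x ^ e := by
  have hx : x ^ e = (x / D) ^ e * D ^ e := by
    rw [← Real.mul_rpow (div_nonneg (by linarith) hD.le) hD.le]
    congr 1
    field_simp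
  rw [hx]
  refine mul_le_mul_of_nonneg_right ?_ (by positivity)
  have h3 : 1 ≤ x / D := by rw [le_div_iff₀ hD]; linarith
  have h4 : x / D ≤ 2 := by rw [div_le_iff₀ hD]; linarith
  rcases le_total 0 e with he | he
  · rw [abs_of_nonneg he]
    calc (2 : ℝ) ^ (-e) ≤ 1 := Real.rpow_le_one_of_one_le_of_nonpos (by norm_num) (by linarith)
      _ ≤ _ := Real.one_le_rpow h3 he
  · rw [abs_of_nonpos he, neg_neg]
    exact Real.rpow_le_rpow_of_nonpos (by linarith) h4 he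

include hlog in
theorem P2_aux (hm : ∀ n, MeasurableSet (S n)) (hi : iIndepSet S μ)
    (hp : ∀ n, μ.real (S n) = q T n) (c e : ℝ) (hc : 0 < c) (he : -1 < e) (η : ℝ) (hη : 0 < η) (hη2 : η ≤ 1 / 2) :
    ∀ᶠ D : ℕ in atTop, (∀ d ∈ Ioc D (2 * D), d.Prime → (d : ℝ) ^ e ≤ Emp T d (yy c d)) →
      ∃ m : ℝ, 1 / η ≤ m ∧ m = ∑ i ∈ II D, μ.real ((HF S (Fb i.1 i.2 (yy c i.1)))ᶜ) ∧
      (2 : ℝ) ^ (-|e|) * (D : ℝ) ^ ((1 + e) / 2) ≤ m ∧
      μ.real {ω | cnt (II D) (fun i => (HF S (Fb i.1 i.2 (yy c i.1)))ᶜ) ω < m / 2} ≤ 4 * (1 / m + 2 * η) := by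
  have hρ : 0 < (1 + e) / 2 := by linarith
  obtain ⟨d₀, hd₀⟩ := eventually_atTop.1 (q_small_half T hlog η hη)
  filter_upwards [primes_dyadic ((1 + e) / 2) hρ, eventually_ge_atTop d₀,
    (dpow_atTop ((1 + e) / 2) hρ).eventually_ge_atTop (1 / η / (2 : ℝ) ^ (-|e|)),
    log_sq_le (4 * c) 1 one_pos, eventually_ge_atTop 2, tlog.eventually_ge_atTop 1] with
    D h1 h2 h3 h4 h5 h6 h
  have hD : (2 : ℝ) ≤ D := by exact_mod_cast h5
  have hD0 : (0 : ℝ) < D := by linarith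
  have h2e : (0 : ℝ) < (2 : ℝ) ^ (-|e|) := by positivity
  set E : (Σ _ : ℕ, ℕ) → Set Ω := fun i => (HF S (Fb i.1 i.2 (yy c i.1)))ᶜ with hE
  have hsum : ∑ i ∈ II D, μ.real (E i) = ∑ d ∈ (Ioc D (2 * D)).filter Nat.Prime, Emp T d (yy c d) := by
    unfold II
    rw [sum_sigma]
    refine sum_congr rfl fun d _ => ?_
    unfold Emp
    refine sum_congr rfl fun a _ => ?_
    rw [hE]
    simp only
    rw [real_compl_HF hm hi, prod_eq T hp]
  have hmge : (2 : ℝ) ^ (-|e|) * (D : ℝ) ^ ((1 + e) / 2) ≤ ∑ i ∈ II D, μ.real (E i) := by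
    rw [hsum]
    have h7 : ∀ d ∈ (Ioc D (2 * D)).filter Nat.Prime, (2 : ℝ) ^ (-|e|) * (D : ℝ) ^ e ≤ Emp T d (yy c d) := by
      intro d hd
      rw [mem_filter] at hd
      refine le_trans ?_ (h d hd.1 hd.2)
      have h8 := mem_Ioc.1 hd.1
      exact pow_low e d D hD0 (by exact_mod_cast h8.1.le) (by exact_mod_cast h8.2)
    have h8 := card_nsmul_le_sum _ _ _ h7
    rw [nsmul_eq_mul] at h8
    refine le_trans ?_ h8
    have h9 : (D : ℝ) ^ (1 - (1 + e) / 2) * (D : ℝ) ^ e = (D : ℝ) ^ ((1 + e) / 2) := by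
      rw [← Real.rpow_add hD0]
      congr 1
      ring
    calc (2 : ℝ) ^ (-|e|) * (D : ℝ) ^ ((1 + e) / 2) =
        (D : ℝ) ^ (1 - (1 + e) / 2) * ((2 : ℝ) ^ (-|e|) * (D : ℝ) ^ e) := by rw [← h9]; ring
      _ ≤ _ := by gcongr
  have hmη : 1 / η ≤ ∑ i ∈ II D, μ.real (E i) := by
    refine le_trans ?_ hmge
    rw [div_le_iff₀ h2e] at h3
    linarith
  refine ⟨∑ i ∈ II D, μ.real (E i), hmη, rfl, hmge, ?_⟩
  have hm0 : 0 < ∑ i ∈ II D, μ.real (E i) := lt_of_lt_of_le (by positivity) hmη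
  refine second_moment (II D) E (fun i _ => (measurable_HF hm _).compl) η hη.le ?_ _ rfl hm0
  rintro ⟨d, a⟩ hi1 ⟨d', a'⟩ hi2 hne
  unfold II at hi1 hi2
  rw [mem_sigma, mem_filter, mem_Ioc] at hi1 hi2
  obtain ⟨⟨⟨k1, k2⟩, k3⟩, k4⟩ := hi1
  obtain ⟨⟨⟨l1, l2⟩, l3⟩, l4⟩ := hi2
  simp only at k1 k2 k3 k4 l1 l2 l3 l4
  refine pair_le hm hi _ _ η hη.le hη2 ?_ ?_
  · refine inter_le_one d d' a a' _ _ k3 l3 (fun h => hne ?_) ?_
    · simp only [Prod.mk.injEq] at h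
      rw [h.1, h.2]
    · have hd0 : (0 : ℝ) < d := by exact_mod_cast k3.pos
      have hlogd : Real.log d ≤ 2 * Real.log D := by
        have h7 : (d : ℝ) ≤ 2 * D := by exact_mod_cast k2
        have h8 : Real.log d ≤ Real.log (2 * D) := Real.log_le_log hd0 h7
        rw [Real.log_mul (by norm_num) hD0.ne'] at h8
        have := Real.log_two_lt_d9
        linarith
      have hlogd0 : 0 ≤ Real.log d := Real.log_natCast_nonneg d
      have h7 : c * Real.log d ^ 2 < d' := by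
        rw [Real.rpow_one] at h4
        have h8 : (D : ℝ) < d' := by exact_mod_cast l1
        calc c * Real.log d ^ 2 ≤ c * (2 * Real.log D) ^ 2 := by gcongr
          _ = 4 * c * Real.log D ^ 2 := by ring
          _ ≤ D := h4
          _ < d' := h8
      have h8 : (yy c d : ℝ) < ((d * d' : ℕ) : ℝ) := by
        push_cast
        calc (yy c d : ℝ) ≤ c * d * Real.log d ^ 2 := yy_le c hc d k3.one_le
          _ = d * (c * Real.log d ^ 2) := by ring
          _ < d * d' := by gcongr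
      exact_mod_cast h8
  · intro n hn
    rw [hp]
    refine hd₀ d (by omega) n ?_
    unfold Fb at hn
    rw [mem_filter] at hn
    unfold U at k4
    rw [mem_filter] at k4
    have h9 : n % d = a := hn.2
    have := Nat.mod_le n d
    omega

include hlog in
/-- **P2**: infinitely many prime moduli have an empty class -/
theorem P2 (hm : ∀ n, MeasurableSet (S n)) (hi : iIndepSet S μ)
    (hp : ∀ n, μ.real (S n) = q T n) (hne : ∀ᵐ ω ∂μ, ∀ d a : ℕ, 0 < d → Nat.Coprime a d →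
      ∃ n : ℕ, n % d = a % d ∧ ω ∈ S n) (c e : ℝ) (hc : 0 < c) (he : -1 < e)
    (h : ∃ᶠ D : ℕ in atTop, ∀ d ∈ Ioc D (2 * D), d.Prime → (d : ℝ) ^ e ≤ Emp T d (yy c d)) :
    ∀ᵐ ω ∂μ, ∃ᶠ d : ℕ in atTop, d.Prime ∧ c < ratio {n | ω ∈ S n} d := by
  obtain ⟨φ, hφ, hφ2⟩ := extraction_of_frequently_atTop h
  have h1 := freq_of_tendsto (μ := μ)
    (fun D => {ω | ∃ i ∈ II D, ω ∈ (HF S (Fb i.1 i.2 (yy c i.1)))ᶜ}) φ hφ.tendsto_atTop (by
      rw [Metric.tendsto_atTop]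
      intro δ hδ
      have hη : 0 < min (1 / 2) (δ / 24) := lt_min (by norm_num) (by positivity)
      obtain ⟨j₀, hj₀⟩ := eventually_atTop.1 (hφ.tendsto_atTop.eventually
        (P2_aux T hlog hm hi hp c e hc he (min (1 / 2) (δ / 24)) hη (min_le_left _ _)))
      refine ⟨j₀, fun j hj => ?_⟩
      obtain ⟨m, hm1, hm2, -, hm3⟩ := hj₀ j hj (hφ2 j)
      set η := min (1 / 2) (δ / 24) with hηdef
      have hηδ : η ≤ δ / 24 := min_le_right _ _
      have hm0 : 0 < m := lt_of_lt_of_le (by positivity) hm1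
      rw [Real.dist_eq, sub_zero, abs_of_nonneg measureReal_nonneg]
      have h2 : μ.real ({ω | ∃ i ∈ II (φ j), ω ∈ (HF S (Fb i.1 i.2 (yy c i.1)))ᶜ}ᶜ) ≤
          μ.real {ω | cnt (II (φ j)) (fun i => (HF S (Fb i.1 i.2 (yy c i.1)))ᶜ) ω < m / 2} := by
        refine measureReal_mono ?_
        intro ω hω
        have h3 : cnt (II (φ j)) (fun i => (HF S (Fb i.1 i.2 (yy c i.1)))ᶜ) ω = 0 := by
          unfold cnt
          refine sum_eq_zero fun i hi => ?_
          rw [Set.indicator_of_notMem]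
          intro h4
          exact hω ⟨i, hi, h4⟩
        change cnt (II (φ j)) (fun i => (HF S (Fb i.1 i.2 (yy c i.1)))ᶜ) ω < m / 2
        rw [h3]
        positivity
      refine lt_of_le_of_lt (h2.trans hm3) ?_
      have h3 : 1 / m ≤ η := by
        rw [div_le_iff₀ hη] at hm1
        rw [div_le_iff₀ hm0]
        linarith
      linarith)
  filter_upwards [h1, hne] with ω hω hω2
  rw [frequently_atTop] at hω ⊢
  intro N
  obtain ⟨D, hD, ⟨d, a⟩, hi, hia⟩ := hω N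
  unfold II at hi
  rw [mem_sigma, mem_filter, mem_Ioc] at hi
  obtain ⟨⟨⟨k1, k2⟩, k3⟩, k4⟩ := hi
  simp only at k1 k2 k3 k4
  unfold U at k4
  rw [mem_filter, mem_range] at k4
  refine ⟨d, by omega, k3, ?_⟩
  have ha1 : 1 ≤ a := by omega
  exact ratio_gt k3 ha1 k4.1 c (hω2 d a k3.pos
    (Nat.Coprime.symm (Nat.coprime_of_lt_prime (by omega) k4.1 k3))) hia

end

end Pool.Agent.T2H53.CG
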