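import Pool.Agent.T2H53.CG.J

set_option autoImplicit false

/-! # Counting tools -/

open Finset Filter Topology MeasureTheory ProbabilityTheory
open scoped ENNReal
open Pool.Agent.T2H53.GW (HF real_compl_HF some_empty_le bc measurable_HF)

namespace Pool.Agent.T2H53.CG

section

variable {Ω : Type*} [MeasurableSpace Ω] {μ : Measure Ω} [IsProbabilityMeasure μ]

theorem integrable_cnt {ι : Type*} (I : Finset ι) (E : ι → Set Ω) (hE : ∀ i ∈ I, MeasurableSet (E i)) :
    Integrable (cnt I E) μ := by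
  unfold cnt
  exact integrable_finsetSum _ fun i hi => integrable_ind _ (hE i hi)

theorem integral_cnt {ι : Type*} (I : Finset ι) (E : ι → Set Ω) (hE : ∀ i ∈ I, MeasurableSet (E i)) :
    ∫ ω, cnt I E ω ∂μ = ∑ i ∈ I, μ.real (E i) := by
  unfold cnt
  rw [integral_finsetSum _ fun i hi => integrable_ind _ (hE i hi)]
  exact sum_congr rfl fun i hi => integral_ind _ (hE i hi)

omit [MeasurableSpace Ω] in
theorem cnt_nonneg {ι : Type*} (I : Finset ι) (E : ι → Set Ω) (ω : Ω) : 0 ≤ cnt I E ω :=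
  sum_nonneg fun _ _ => Set.indicator_nonneg (fun _ _ => zero_le_one) _

/-- Markov's inequality -/
theorem markov {ι : Type*} (I : Finset ι) (E : ι → Set Ω) (hE : ∀ i ∈ I, MeasurableSet (E i)) (t : ℝ)
    (ht : 0 < t) : μ.real {ω | t ≤ cnt I E ω} ≤ (∑ i ∈ I, μ.real (E i)) / t := by
  have h1 := mul_meas_ge_le_integral_of_nonneg (μ := μ) (f := cnt I E)
    (Filter.Eventually.of_forall fun ω => cnt_nonneg I E ω) (integrable_cnt I E hE) t
  rw [integral_cnt I E hE] at h1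
  rw [le_div_iff₀ ht, mul_comm]
  exact h1

/-- Chebyshev's inequality with a bound for the sum of the covariances -/
theorem second_moment_d {ι : Type*} (I : Finset ι) (E : ι → Set Ω) (hE : ∀ i ∈ I, MeasurableSet (E i))
    (δ : ι → ι → ℝ) (hδ : ∀ i ∈ I, ∀ j ∈ I, 0 ≤ δ i j) (h : ∀ i ∈ I, ∀ j ∈ I, i ≠ j →
      μ.real (E i ∩ E j) ≤ μ.real (E i) * μ.real (E j) + δ i j)
    (m : ℝ) (hm : m = ∑ i ∈ I, μ.real (E i)) (hm0 : 0 < m) (Δ : ℝ) (hΔ : ∑ i ∈ I, ∑ j ∈ I, δ i j ≤ Δ) :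
    μ.real {ω | cnt I E ω < m / 2} ≤ 4 * (1 / m + Δ / m ^ 2) := by
  classical
  have hmean : ∫ ω, cnt I E ω ∂μ = m := by rw [integral_cnt I E hE, hm]
  have hsq : ∀ ω, cnt I E ω ^ 2 = ∑ i ∈ I, ∑ j ∈ I, (E i ∩ E j).indicator (fun _ => (1 : ℝ)) ω := by
    intro ω
    unfold cnt
    rw [sq, sum_mul_sum]
    refine sum_congr rfl fun i _ => sum_congr rfl fun j _ => ?_
    by_cases h1 : ω ∈ E i <;> by_cases h2 : ω ∈ E j <;> simp [h1, h2]
  have hint2 : ∀ i ∈ I, ∀ j ∈ I, Integrable (fun ω => (E i ∩ E j).indicator (fun _ => (1 : ℝ)) ω) μ :=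
    fun i hi j hj => integrable_ind _ ((hE i hi).inter (hE j hj))
  have hX2 : ∫ ω, cnt I E ω ^ 2 ∂μ = ∑ i ∈ I, ∑ j ∈ I, μ.real (E i ∩ E j) := by
    simp_rw [hsq]
    rw [integral_finsetSum _ fun i hi => integrable_finsetSum _ fun j hj => hint2 i hi j hj]
    refine sum_congr rfl fun i hi => ?_
    rw [integral_finsetSum _ fun j hj => hint2 i hi j hj]
    exact sum_congr rfl fun j hj => integral_ind _ ((hE i hi).inter (hE j hj))
  have hle : ∑ i ∈ I, ∑ j ∈ I, μ.real (E i ∩ E j) ≤ m + (m ^ 2 + Δ) := by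
    have h1 : ∀ i ∈ I, ∑ j ∈ I, μ.real (E i ∩ E j) ≤
        μ.real (E i) + (μ.real (E i) * m + ∑ j ∈ I, δ i j) := by
      intro i hi
      have h2 : ∀ j ∈ I, μ.real (E i ∩ E j) ≤ (if j = i then μ.real (E i) else 0) +
          (μ.real (E i) * μ.real (E j) + δ i j) := by
        intro j hj
        have hp : 0 ≤ μ.real (E i) * μ.real (E j) := by positivity
        have hd := hδ i hi j hj
        by_cases hij : j = i
        · subst hij
          rw [if_pos rfl, Set.inter_self]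
          linarith
        · rw [if_neg hij, zero_add]
          exact h i hi j hj fun e => hij e.symm
      refine (sum_le_sum h2).trans (le_of_eq ?_)
      rw [sum_add_distrib, sum_ite_eq' I i, if_pos hi, sum_add_distrib, ← mul_sum, hm]
    refine (sum_le_sum h1).trans ?_
    rw [sum_add_distrib, sum_add_distrib, ← sum_mul, ← hm]
    nlinarith
  have hL2 : MemLp (cnt I E) 2 μ := by
    unfold cnt
    refine memLp_finsetSum I fun i hi => ?_
    exact (memLp_const (1 : ℝ)).indicator (hE i hi)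
  have h1 := meas_ge_le_variance_div_sq hL2 (show 0 < m / 2 by positivity)
  rw [hmean] at h1
  have hvar : Var[cnt I E; μ] ≤ m + Δ := by
    rw [variance_eq_sub hL2, hmean]
    have : ∫ ω, (cnt I E ^ 2) ω ∂μ = ∫ ω, cnt I E ω ^ 2 ∂μ := rfl
    rw [this, hX2]
    linarith
  have hΔ0 : 0 ≤ Δ := (sum_nonneg fun i hi => sum_nonneg fun j hj => hδ i hi j hj).trans hΔ
  rw [measureReal_def]
  have h2 : μ {ω | cnt I E ω < m / 2} ≤ ENNReal.ofReal (4 * (1 / m + Δ / m ^ 2)) := by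
    refine (measure_mono ?_).trans (h1.trans (ENNReal.ofReal_le_ofReal ?_))
    · intro ω hω
      rw [Set.mem_ofPred_eq] at hω ⊢
      rw [abs_sub_comm]
      exact (by linarith : m / 2 ≤ m - cnt I E ω).trans (le_abs_self _)
    · calc Var[cnt I E; μ] / (m / 2) ^ 2 ≤ (m + Δ) / (m / 2) ^ 2 := by gcongr
        _ = 4 * (1 / m + Δ / m ^ 2) := by
          field_simp
          ring
  calc (μ {ω | cnt I E ω < m / 2}).toReal ≤ (ENNReal.ofReal (4 * (1 / m + Δ / m ^ 2))).toReal :=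
        ENNReal.toReal_mono ENNReal.ofReal_ne_top h2
    _ = _ := ENNReal.toReal_ofReal (by positivity)

/-- double counting of the intersections -/
theorem inter_sum {ι : Type*} (I : Finset ι) (F : ι → Finset ℕ) (Y R : ℕ) (hY : ∀ i ∈ I, F i ⊆ Icc 1 Y)
    (hR : ∀ n, (I.filter (fun i => n ∈ F i)).card ≤ R) :
    ∑ i ∈ I, ∑ j ∈ I, ((F i ∩ F j).card : ℝ) ≤ Y * (R : ℝ) ^ 2 := by
  have h1 : ∀ i ∈ I, ∀ j ∈ I, ((F i ∩ F j).card : ℝ) =
      ∑ n ∈ Icc 1 Y, (if n ∈ F i then (1 : ℝ) else 0) * (if n ∈ F j then (1 : ℝ) else 0) := by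
    intro i hi j hj
    have h2 : F i ∩ F j = (Icc 1 Y).filter (fun n => n ∈ F i ∧ n ∈ F j) := by
      ext n
      rw [mem_inter, mem_filter]
      exact ⟨fun h => ⟨hY i hi h.1, h⟩, fun h => h.2⟩
    rw [h2, card_filter]
    push_cast
    refine sum_congr rfl fun n _ => ?_
    by_cases k1 : n ∈ F i <;> by_cases k2 : n ∈ F j <;> simp [k1, k2]
  rw [sum_congr rfl fun i hi => sum_congr rfl fun j hj => h1 i hi j hj]
  have h2 : ∑ i ∈ I, ∑ j ∈ I, ∑ n ∈ Icc 1 Y, (if n ∈ F i then (1 : ℝ) else 0) *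
      (if n ∈ F j then (1 : ℝ) else 0) = ∑ n ∈ Icc 1 Y, (∑ i ∈ I, if n ∈ F i then (1 : ℝ) else 0) ^ 2 := by
    simp_rw [sq, sum_mul_sum]
    rw [sum_comm' (s := Icc 1 Y) (t := fun _ => I) (t' := I) (s' := fun _ => Icc 1 Y) (by simp [and_comm])]
    refine sum_congr rfl fun i _ => ?_
    rw [sum_comm]
  rw [h2]
  have h3 : ∀ n ∈ Icc 1 Y, (∑ i ∈ I, if n ∈ F i then (1 : ℝ) else 0) ^ 2 ≤ (R : ℝ) ^ 2 := by
    intro n _
    have h4 : (∑ i ∈ I, if n ∈ F i then (1 : ℝ) else 0) = ((I.filter (fun i => n ∈ F i)).card : ℝ) := by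
      rw [card_filter]
      push_cast
      rfl
    rw [h4]
    have := hR n
    gcongr
  refine (sum_le_sum h3).trans ?_
  rw [sum_const, Nat.card_Icc, nsmul_eq_mul]
  simp

/-- **Counting.** If `∑ (k+1)^(-s) P(E k)` converges then the number of the `k ≤ x` with `E k` is `O(x^s)`. -/
theorem count_ae (E : ℕ → Set Ω) (hE : ∀ k, MeasurableSet (E k)) (s : ℝ) (hs : 0 ≤ s)
    (hsum : Summable fun k : ℕ => ((k : ℝ) + 1) ^ (-s) * μ.real (E k)) :
    ∀ᵐ ω ∂μ, ∃ C : ℝ, ∀ x : ℕ, cnt (range (x + 1)) E ω ≤ C * ((x : ℝ) + 1) ^ s := by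
  set f : ℕ → ℝ := fun k => ((k : ℝ) + 1) ^ (-s) * μ.real (E k) with hf
  set W : Ω → ℝ≥0∞ := fun ω => ∑' k : ℕ, (E k).indicator
    (fun _ => ENNReal.ofReal (((k : ℝ) + 1) ^ (-s))) ω with hW
  have hWi : ∫⁻ ω, W ω ∂μ ≠ ∞ := by
    simp only [hW]
    rw [lintegral_tsum fun k => (measurable_const.indicator (hE k)).aemeasurable]
    have h1 : ∀ k : ℕ, ∫⁻ ω, (E k).indicator (fun _ => ENNReal.ofReal (((k : ℝ) + 1) ^ (-s))) ω ∂μ =
        ENNReal.ofReal (f k) := by
      intro k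
      rw [lintegral_indicator_const (hE k)]
      simp only [hf]
      rw [ENNReal.ofReal_mul (by positivity), ofReal_measureReal]
    simp only [h1]
    exact hsum.tsum_ofReal_ne_top
  have hWm : Measurable W := by
    simp only [hW]
    exact Measurable.tsum fun k => measurable_const.indicator (hE k)
  filter_upwards [ae_lt_top hWm hWi] with ω hω
  refine ⟨(W ω).toReal, fun x => ?_⟩
  have hx0 : (0 : ℝ) < (x : ℝ) + 1 := by positivity
  have h1 : cnt (range (x + 1)) E ω ≤ ∑ k ∈ range (x + 1), ((x : ℝ) + 1) ^ s *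
      (E k).indicator (fun _ => ((k : ℝ) + 1) ^ (-s)) ω := by
    unfold cnt
    refine sum_le_sum fun k hk => ?_
    rw [mem_range] at hk
    by_cases h : ω ∈ E k
    · rw [Set.indicator_of_mem h, Set.indicator_of_mem h]
      have hk0 : (0 : ℝ) < (k : ℝ) + 1 := by positivity
      have hkx : (k : ℝ) + 1 ≤ (x : ℝ) + 1 := by
        have : (k : ℝ) ≤ x := by exact_mod_cast Nat.lt_succ_iff.1 hk
        linarith
      rw [Real.rpow_neg hk0.le, ← div_eq_mul_inv, le_div_iff₀ (by positivity), one_mul]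
      exact Real.rpow_le_rpow hk0.le hkx hs
    · rw [Set.indicator_of_notMem h, Set.indicator_of_notMem h, mul_zero]
  refine h1.trans ?_
  rw [← mul_sum, mul_comm]
  refine mul_le_mul_of_nonneg_right ?_ (by positivity)
  have h2 : ∑ k ∈ range (x + 1), (E k).indicator (fun _ => ((k : ℝ) + 1) ^ (-s)) ω =
      (∑ k ∈ range (x + 1), (E k).indicator (fun _ => ENNReal.ofReal (((k : ℝ) + 1) ^ (-s))) ω).toReal := by
    rw [ENNReal.toReal_sum]
    · refine sum_congr rfl fun k _ => ?_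
      by_cases h : ω ∈ E k
      · rw [Set.indicator_of_mem h, Set.indicator_of_mem h, ENNReal.toReal_ofReal (by positivity)]
      · rw [Set.indicator_of_notMem h, Set.indicator_of_notMem h, ENNReal.toReal_zero]
    · intro k _
      by_cases h : ω ∈ E k
      · rw [Set.indicator_of_mem h]
        exact ENNReal.ofReal_ne_top
      · rw [Set.indicator_of_notMem h]
        exact ENNReal.zero_ne_top
  rw [h2]
  exact ENNReal.toReal_mono hω.ne (ENNReal.sum_le_tsum _)

end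

end Pool.Agent.T2H53.CG
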