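import Pool.Agent.T2H53.CG.L
import Pool.Agent.T2H53.CG.K

set_option autoImplicit false

/-! # Many prime moduli with an empty class -/

open Finset Filter Topology MeasureTheory ProbabilityTheory
open Pool.Agent.T2H32.BF (V V_pos V_anti V_ratio mertens pnt)
open Pool.Agent.T2H32.GM (Rg Vinv_anti level V_le_one tlog one_sub_ge)
open Pool.Agent.T2H53.GW (HF real_compl_HF some_empty_le bc measurable_HF)

namespace Pool.Agent.T2H53.CG

/-- the block of the pair `(d, a)` is empty -/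
def EE {Ω : Type*} (S : ℕ → Set Ω) (c : ℝ) (d a : ℕ) : Set Ω := (HF S (Fb d a (yy c d)))ᶜ

/-- pairs of empty classes with the same modulus -/
def JJ (D : ℕ) : Finset (Σ _ : ℕ, ℕ × ℕ) := ((Ioc D (2 * D)).filter Nat.Prime).sigma fun d => (U d).offDiag

open Classical in
/-- prime moduli in `(D, 2 D]` with an empty large class -/
noncomputable def ND {Ω : Type*} (S : ℕ → Set Ω) (c : ℝ) (D : ℕ) (ω : Ω) : Finset ℕ :=
  ((Ioc D (2 * D)).filter Nat.Prime).filter fun d => ∃ a ∈ U d, ω ∈ EE S c d a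

theorem det {Ω : Type*} (S : ℕ → Set Ω) (c : ℝ) (D : ℕ) (ω : Ω) :
    cnt (II D) (fun i => EE S c i.1 i.2) ω - cnt (JJ D) (fun i => EE S c i.1 i.2.1 ∩ EE S c i.1 i.2.2) ω ≤
      ((ND S c D ω).card : ℝ) := by
  classical
  unfold cnt II JJ
  rw [sum_sigma, sum_sigma, ← sum_sub_distrib]
  have h1 : ((ND S c D ω).card : ℝ) = ∑ d ∈ (Ioc D (2 * D)).filter Nat.Prime,
      if ∃ a ∈ U d, ω ∈ EE S c d a then (1 : ℝ) else 0 := by
    unfold ND
    rw [card_filter]
    push_cast
    rfl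
  rw [h1]
  refine sum_le_sum fun d _ => ?_
  simp only
  set x : ℕ → ℝ := fun a => (EE S c d a).indicator (fun _ => (1 : ℝ)) ω with hx
  have h2 : ∑ p ∈ (U d).offDiag, (EE S c d p.1 ∩ EE S c d p.2).indicator (fun _ => (1 : ℝ)) ω =
      ∑ p ∈ (U d).offDiag, x p.1 * x p.2 := by
    refine sum_congr rfl fun p _ => ?_
    by_cases h1 : ω ∈ EE S c d p.1 <;> by_cases h2 : ω ∈ EE S c d p.2 <;> simp [hx, h1, h2]
  have h3 : ∑ p ∈ (U d).diag, x p.1 * x p.2 = ∑ a ∈ U d, x a := by
    rw [sum_diag]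
    refine sum_congr rfl fun a _ => ?_
    by_cases h1 : ω ∈ EE S c d a <;> simp [hx, h1]
  have h4 : (∑ a ∈ U d, x a) * (∑ a ∈ U d, x a) =
      ∑ a ∈ U d, x a + ∑ p ∈ (U d).offDiag, x p.1 * x p.2 := by
    rw [sum_mul_sum, ← sum_product', ← diag_union_offDiag, sum_union (disjoint_diag_offDiag _), h3]
  rw [h2]
  set s := ∑ a ∈ U d, x a with hs
  split_ifs with h5
  · nlinarith [sq_nonneg (s - 1)]
  · have h6 : s = 0 := by
      rw [hs]
      refine sum_eq_zero fun a ha => ?_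
      rw [hx]
      simp only
      rw [Set.indicator_of_notMem]
      intro h7
      exact h5 ⟨a, ha, h7⟩
    have h7 : ∑ p ∈ (U d).offDiag, x p.1 * x p.2 = s * s - s := by linarith
    rw [h7, h6]
    norm_num

section

variable (T : ℕ → ℕ) (hT : Monotone T)
  (hlog : Tendsto (fun n : ℕ => Real.log (T n) / Real.log n) atTop (𝓝 0))
  (hll : Tendsto (fun k : ℕ => Real.log (T k) / Real.log (Real.log k)) atTop (𝓝 0))
  {Ω : Type*} [MeasurableSpace Ω] {μ : Measure Ω} [IsProbabilityMeasure μ] {S : ℕ → Set Ω}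

include hT hlog hll in
/-- every block is empty with small probability -/
theorem prob_le (hm : ∀ n, MeasurableSet (S n)) (hi : iIndepSet S μ)
    (hp : ∀ n, μ.real (S n) = q T n) (c ρ : ℝ) (hc : 0 < c) (hρ : 0 < ρ) :
    ∀ᶠ d : ℕ in atTop, d.Prime → ∀ a : ℕ, 1 ≤ a → a < d → μ.real (EE S c d a) ≤ (d : ℝ) ^ (-(c - ρ)) := by
  obtain ⟨ξ, hξ, hsum⟩ := sum_class T hT hlog c ρ hc hρ
  filter_upwards [C3 T hll ξ hξ, hsum, eventually_ge_atTop 1] with d h1 h2 h3 hd a ha1 had
  have hd0 : (0 : ℝ) < d := by exact_mod_cast h3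
  have h4 := h2 hd h1 a ha1 had _ (yy_le c hc d h3) (Nat.lt_floor_add_one _)
  have h5 := some_empty_le hm hi {a} (fun a => Fb d a (yy c d)) ((c - ρ) * Real.log d) (by
    intro b hb
    rw [mem_singleton] at hb
    rw [hb]
    simp only [hp]
    exact h4)
  simp only [card_singleton, Nat.cast_one, one_mul, Finset.mem_singleton, Set.iUnion_iUnion_eq_left] at h5
  refine h5.trans (le_of_eq ?_)
  rw [Real.rpow_def_of_pos hd0]
  congr 1
  ring

theorem card_U (d : ℕ) : (U d).card ≤ d := by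
  unfold U
  exact (card_filter_le _ _).trans (by rw [card_range])

theorem U_pos {d a : ℕ} (h : a ∈ U d) : 1 ≤ a ∧ a < d ∧ d < 2 * a := by
  unfold U at h
  rw [mem_filter, mem_range] at h
  omega

include hT hlog hll in
/-- **The second moment with a power saving.** -/
theorem lowM (hm : ∀ n, MeasurableSet (S n)) (hi : iIndepSet S μ)
    (hp : ∀ n, μ.real (S n) = q T n) (c ρ τ : ℝ) (hc : 1 < c) (hρ : 0 < ρ) (hρ1 : ρ ≤ 1)
    (h1 : τ ≤ 2 - c - 3 * ρ) (h2 : τ ≤ 1 - 9 * ρ) (h3 : τ ≤ c - 1 - 5 * ρ) :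
    ∀ᶠ D : ℕ in atTop, μ.real {ω | ((ND S c D ω).card : ℝ) < (D : ℝ) ^ (2 - c - 3 * ρ) / 4} ≤
      24 * (D : ℝ) ^ (-τ) := by
  classical
  have hc0 : 0 < c := by linarith
  obtain ⟨N1, hN1⟩ := eventually_atTop.1 (low1 T hT hlog c ρ hc0 hρ hρ1)
  obtain ⟨N2, hN2⟩ := eventually_atTop.1 (prob_le T hT hlog hll hm hi hp c ρ hc0 hρ)
  obtain ⟨N3, hN3⟩ := eventually_atTop.1 (q_small_half T hlog (1 / 2) (by norm_num))
  set e := 1 - 1 * c - ρ with he
  filter_upwards [primes_dyadic ρ hρ, eventually_ge_atTop (max N1 (max N2 N3)),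
    (dpow_atTop ρ hρ).eventually_ge_atTop (1 / (2 : ℝ) ^ (-|e|)),
    log_sq_le (8 * c) ρ hρ, eventually_ge_atTop 2, tlog.eventually_ge_atTop 1] with
    D g1 g2 g3 g4 g5 g6
  have hD : (2 : ℝ) ≤ D := by exact_mod_cast g5
  have hD0 : (0 : ℝ) < D := by linarith
  have hN1' : N1 ≤ D := (le_max_left _ _).trans g2
  have hN2' : N2 ≤ D := ((le_max_left _ _).trans (le_max_right _ _)).trans g2
  have hN3' : N3 ≤ D := ((le_max_right _ _).trans (le_max_right _ _)).trans g2
  have h2e : (0 : ℝ) < (2 : ℝ) ^ (-|e|) := by positivity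
  set M0 : ℝ := (D : ℝ) ^ (-(c - ρ)) with hM0
  have hM00 : 0 < M0 := by positivity
  have hEm : ∀ d a, MeasurableSet (EE S c d a) := fun d a => (measurable_HF hm _).compl
  have hreal : ∀ d a, μ.real (EE S c d a) = ∏ n ∈ Fb d a (yy c d), (1 - q T n) := fun d a => by
    unfold EE
    rw [real_compl_HF hm hi, prod_eq T hp]
  have hcρ : 0 ≤ c - ρ := by linarith
  -- probabilities
  have hle : ∀ d, D < d → d.Prime → ∀ a ∈ U d, μ.real (EE S c d a) ≤ M0 := by
    intro d hd hdp a ha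
    obtain ⟨k1, k2, k3⟩ := U_pos ha
    refine (hN2 d (by omega) hdp a k1 k2).trans ?_
    rw [hM0]
    exact Real.rpow_le_rpow_of_nonpos hD0 (by exact_mod_cast hd.le) (by linarith)
  -- the mean
  set m : ℝ := ∑ i ∈ II D, μ.real (EE S c i.1 i.2) with hmdef
  have hmge : (D : ℝ) ^ (2 - c - 3 * ρ) ≤ m := by
    have h7 : ∀ d ∈ (Ioc D (2 * D)).filter Nat.Prime, (2 : ℝ) ^ (-|e|) * (D : ℝ) ^ e ≤
        ∑ a ∈ U d, μ.real (EE S c d a) := by
      intro d hd
      rw [mem_filter] at hd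
      have h8 := mem_Ioc.1 hd.1
      have h9 := hN1 d (by omega) (yy c d) (yy_le c hc0 d hd.2.one_le)
      unfold Emp at h9
      simp only [hreal]
      exact (pow_low e d D hD0 (by exact_mod_cast h8.1.le) (by exact_mod_cast h8.2)).trans h9
    have h8 := card_nsmul_le_sum _ _ _ h7
    rw [nsmul_eq_mul] at h8
    have h9 : m = ∑ d ∈ (Ioc D (2 * D)).filter Nat.Prime, ∑ a ∈ U d, μ.real (EE S c d a) := by
      rw [hmdef]
      unfold II
      rw [sum_sigma]
    rw [h9]
    refine le_trans ?_ h8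
    rw [div_le_iff₀ h2e] at g3
    have h10 : (D : ℝ) ^ (2 - c - 3 * ρ) * (D : ℝ) ^ ρ = (D : ℝ) ^ (1 - ρ) * (D : ℝ) ^ e := by
      rw [← Real.rpow_add hD0, ← Real.rpow_add hD0]
      congr 1
      rw [he]
      ring
    calc (D : ℝ) ^ (2 - c - 3 * ρ) = (D : ℝ) ^ (2 - c - 3 * ρ) * 1 := by ring
      _ ≤ (D : ℝ) ^ (2 - c - 3 * ρ) * ((D : ℝ) ^ ρ * (2 : ℝ) ^ (-|e|)) := by gcongr
      _ = (D : ℝ) ^ (1 - ρ) * ((2 : ℝ) ^ (-|e|) * (D : ℝ) ^ e) := by
          rw [← mul_assoc, h10]; ring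
      _ ≤ _ := by gcongr
  have hm0 : 0 < m := lt_of_lt_of_le (by positivity) hmge
  -- blocks are short
  have hY : ∀ d, D < d → d ≤ 2 * D → yy c d ≤ ⌊(D : ℝ) ^ (1 + ρ)⌋₊ := by
    intro d hd1 hd2
    apply Nat.le_floor
    have hd0 : (0 : ℝ) < d := by
      have : 0 < d := by omega
      exact_mod_cast this
    have hd2' : (d : ℝ) ≤ 2 * D := by exact_mod_cast hd2
    have hlogd : Real.log d ≤ 2 * Real.log D := by
      have h8 : Real.log d ≤ Real.log (2 * D) := Real.log_le_log hd0 hd2'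
      rw [Real.log_mul (by norm_num) hD0.ne'] at h8
      have := Real.log_two_lt_d9
      linarith
    have hlogd0 : 0 ≤ Real.log d := Real.log_natCast_nonneg d
    calc (yy c d : ℝ) ≤ c * d * Real.log d ^ 2 := yy_le c hc0 d (by omega)
      _ ≤ c * (2 * D) * (2 * Real.log D) ^ 2 := by gcongr
      _ = D * (8 * c * Real.log D ^ 2) := by ring
      _ ≤ D * (D : ℝ) ^ ρ := by gcongr
      _ = (D : ℝ) ^ (1 + ρ) := by rw [Real.rpow_add hD0, Real.rpow_one]
  set Y : ℕ := ⌊(D : ℝ) ^ (1 + ρ)⌋₊ with hYdef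
  have hYle : (Y : ℝ) ≤ (D : ℝ) ^ (1 + ρ) := Nat.floor_le (by positivity)
  -- first part: second moment
  have hpart1 : μ.real {ω | cnt (II D) (fun i => EE S c i.1 i.2) ω < m / 2} ≤
      4 * (1 / m + M0 ^ 2 * (Y * (D : ℝ) ^ 2) / m ^ 2) := by
    refine second_moment_d (II D) (fun i => EE S c i.1 i.2) (fun i _ => hEm _ _)
      (fun i j => M0 ^ 2 * ((Fb i.1 i.2 (yy c i.1) ∩ Fb j.1 j.2 (yy c j.1)).card : ℝ))
      (fun i _ j _ => by positivity) ?_ m hmdef hm0 _ ?_
    · rintro ⟨d, a⟩ hi1 ⟨d', a'⟩ hi2 hne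
      unfold II at hi1 hi2
      rw [mem_sigma, mem_filter, mem_Ioc] at hi1 hi2
      obtain ⟨⟨⟨k1, k2⟩, k3⟩, k4⟩ := hi1
      obtain ⟨⟨⟨l1, l2⟩, l3⟩, l4⟩ := hi2
      simp only at k1 k2 k3 k4 l1 l2 l3 l4 ⊢
      have hcard : (Fb d a (yy c d) ∩ Fb d' a' (yy c d')).card ≤ 1 := by
        refine inter_le_one d d' a a' _ _ k3 l3 (fun h => hne ?_) ?_
        · simp only [Prod.mk.injEq] at h
          rw [h.1, h.2]
        · have h7 := hY d k1 k2
          have h8 : (Y : ℝ) < ((d * d' : ℕ) : ℝ) := by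
            refine lt_of_le_of_lt hYle ?_
            push_cast
            have h9 : (D : ℝ) < d := by exact_mod_cast k1
            have h10 : (D : ℝ) < d' := by exact_mod_cast l1
            calc (D : ℝ) ^ (1 + ρ) ≤ (D : ℝ) ^ (2 : ℝ) :=
                  Real.rpow_le_rpow_of_exponent_le (by linarith) (by linarith)
              _ = D * D := by
                  rw [show (2 : ℝ) = 1 + 1 by norm_num, Real.rpow_add hD0, Real.rpow_one]
              _ < d * d' := by nlinarith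
          have h9 : Y < d * d' := by exact_mod_cast h8
          omega
      have hpr := pair_le hm hi (Fb d a (yy c d)) (Fb d' a' (yy c d')) (1 / 2) (by norm_num) le_rfl hcard
        (fun n hn => by
          rw [hp]
          refine hN3 d (by omega) n ?_
          unfold Fb at hn
          rw [mem_filter] at hn
          have := (U_pos k4).2.2
          have h9 := Nat.mod_le n d
          omega)
      have hP1 := hle d k1 k3 a k4
      have hP2 := hle d' l1 l3 a' l4
      have hP0 : 0 ≤ μ.real (EE S c d a) := measureReal_nonneg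
      have hP0' : 0 ≤ μ.real (EE S c d' a') := measureReal_nonneg
      rcases Nat.lt_or_ge (Fb d a (yy c d) ∩ Fb d' a' (yy c d')).card 1 with h0 | h0
      · -- disjoint blocks
        have hemp : Fb d a (yy c d) ∩ Fb d' a' (yy c d') = ∅ := card_eq_zero.1 (by omega)
        rw [hemp, card_empty, Nat.cast_zero, mul_zero, add_zero]
        have h9 : EE S c d a ∩ EE S c d' a' = (HF S (Fb d a (yy c d) ∪ Fb d' a' (yy c d')))ᶜ := by
          unfold EE HF
          rw [← Set.compl_union, Finset.set_biUnion_union]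
        rw [h9, real_compl_HF hm hi, prod_union (disjoint_iff_inter_eq_empty.2 hemp)]
        unfold EE
        rw [real_compl_HF hm hi, real_compl_HF hm hi]
      · have h9 : (Fb d a (yy c d) ∩ Fb d' a' (yy c d')).card = 1 := by omega
        rw [h9, Nat.cast_one, mul_one]
        have h10 : μ.real (EE S c d a) * μ.real (EE S c d' a') ≤ M0 ^ 2 := by
          rw [sq]
          exact mul_le_mul hP1 hP2 hP0' hM00.le
        have h11 : μ.real (EE S c d a ∩ EE S c d' a') ≤
            (1 + 2 * (1 / 2)) * (μ.real (EE S c d a) * μ.real (EE S c d' a')) := hpr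
        linarith
    · simp only [← mul_sum]
      refine mul_le_mul_of_nonneg_left ?_ (by positivity)
      refine (inter_sum (II D) (fun i => Fb i.1 i.2 (yy c i.1)) Y D ?_ ?_)
      · rintro ⟨d, a⟩ hi1
        unfold II at hi1
        rw [mem_sigma, mem_filter, mem_Ioc] at hi1
        obtain ⟨⟨⟨k1, k2⟩, k3⟩, k4⟩ := hi1
        intro n hn
        have h7 := hY d k1 k2
        unfold Fb at hn
        rw [mem_filter, mem_Icc] at hn
        rw [mem_Icc]
        exact ⟨hn.1.1, hn.1.2.trans h7⟩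
      · intro n
        have h7 : ((II D).filter (fun i => n ∈ Fb i.1 i.2 (yy c i.1))).card ≤ (Ioc D (2 * D)).card := by
          refine card_le_card_of_injOn (fun i => i.1) ?_ ?_
          · rintro ⟨d, a⟩ hi1
            rw [mem_coe, mem_filter] at hi1
            have hi2 := hi1.1
            unfold II at hi2
            rw [mem_sigma, mem_filter] at hi2
            exact hi2.1.1
          · rintro ⟨d, a⟩ hi1 ⟨d', a'⟩ hi2 h
            rw [mem_coe, mem_filter] at hi1 hi2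
            simp only at h
            subst h
            have k1 := hi1.2
            have k2 := hi2.2
            unfold Fb at k1 k2
            rw [mem_filter] at k1 k2
            have k3 : n % d = a := k1.2
            have k4 : n % d = a' := k2.2
            rw [← k3, ← k4]
        rw [Nat.card_Ioc] at h7
        omega
  -- second part: pairs with the same modulus
  have hpart2 : μ.real {ω | m / 4 ≤ cnt (JJ D) (fun i => EE S c i.1 i.2.1 ∩ EE S c i.1 i.2.2) ω} ≤
      (D * (2 * D) ^ 2 * M0 ^ 2) / (m / 4) := by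
    refine (markov (JJ D) _ (fun i _ => (hEm _ _).inter (hEm _ _)) (m / 4) (by positivity)).trans ?_
    refine div_le_div_of_nonneg_right ?_ (by positivity)
    unfold JJ
    rw [sum_sigma]
    have h7 : ∀ d ∈ (Ioc D (2 * D)).filter Nat.Prime,
        ∑ p ∈ (U d).offDiag, μ.real (EE S c d p.1 ∩ EE S c d p.2) ≤ (2 * D) ^ 2 * M0 ^ 2 := by
      intro d hd
      rw [mem_filter, mem_Ioc] at hd
      obtain ⟨⟨k1, k2⟩, k3⟩ := hd
      have h8 : ∀ p ∈ (U d).offDiag, μ.real (EE S c d p.1 ∩ EE S c d p.2) ≤ M0 ^ 2 := by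
        intro p hpm
        rw [mem_offDiag] at hpm
        obtain ⟨l1, l2, l3⟩ := hpm
        have hdisj : Disjoint (Fb d p.1 (yy c d)) (Fb d p.2 (yy c d)) := by
          rw [disjoint_left]
          intro n hn1 hn2
          unfold Fb at hn1 hn2
          rw [mem_filter] at hn1 hn2
          exact l3 (hn1.2.symm.trans hn2.2)
        have h9 : EE S c d p.1 ∩ EE S c d p.2 = (HF S (Fb d p.1 (yy c d) ∪ Fb d p.2 (yy c d)))ᶜ := by
          unfold EE HF
          rw [← Set.compl_union, Finset.set_biUnion_union]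
        have h10 : μ.real (EE S c d p.1 ∩ EE S c d p.2) = μ.real (EE S c d p.1) * μ.real (EE S c d p.2) := by
          rw [h9, real_compl_HF hm hi, prod_union hdisj]
          unfold EE
          rw [real_compl_HF hm hi, real_compl_HF hm hi]
        rw [h10, sq]
        exact mul_le_mul (hle d k1 k3 _ l1) (hle d k1 k3 _ l2) measureReal_nonneg hM00.le
      refine (sum_le_sum h8).trans ?_
      rw [sum_const, nsmul_eq_mul]
      refine mul_le_mul_of_nonneg_right ?_ (by positivity)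
      have h11 : (U d).offDiag.card ≤ (2 * D) ^ 2 := by
        rw [offDiag_card]
        calc (U d).card * (U d).card - (U d).card ≤ (U d).card * (U d).card := Nat.sub_le _ _
          _ ≤ (2 * D) * (2 * D) := Nat.mul_le_mul ((card_U d).trans k2) ((card_U d).trans k2)
          _ = (2 * D) ^ 2 := by ring
      exact_mod_cast h11
    refine (sum_le_sum h7).trans ?_
    rw [sum_const, nsmul_eq_mul, mul_assoc (D : ℝ)]
    refine mul_le_mul_of_nonneg_right ?_ (by positivity)
    have h12 : ((Ioc D (2 * D)).filter Nat.Prime).card ≤ D := by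
      refine (card_filter_le _ _).trans ?_
      rw [Nat.card_Ioc]
      omega
    exact_mod_cast h12
  -- conclusion
  have hsub : {ω | ((ND S c D ω).card : ℝ) < (D : ℝ) ^ (2 - c - 3 * ρ) / 4} ⊆
      {ω | cnt (II D) (fun i => EE S c i.1 i.2) ω < m / 2} ∪
      {ω | m / 4 ≤ cnt (JJ D) (fun i => EE S c i.1 i.2.1 ∩ EE S c i.1 i.2.2) ω} := by
    intro ω hω
    by_contra hcon
    rw [Set.mem_union, not_or] at hcon
    obtain ⟨hc1, hc2⟩ := hcon
    have hc1' : m / 2 ≤ cnt (II D) (fun i => EE S c i.1 i.2) ω := not_lt.1 hc1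
    have hc2' : cnt (JJ D) (fun i => EE S c i.1 i.2.1 ∩ EE S c i.1 i.2.2) ω < m / 4 := not_le.1 hc2
    have h7 := det S c D ω
    have h8 : ((ND S c D ω).card : ℝ) < (D : ℝ) ^ (2 - c - 3 * ρ) / 4 := hω
    linarith
  refine (measureReal_mono hsub).trans ((measureReal_union_le _ _).trans ((add_le_add hpart1 hpart2).trans ?_))
  have hA : 1 / m ≤ (D : ℝ) ^ (-τ) := by
    rw [Real.rpow_neg hD0.le, one_div]
    refine inv_anti₀ (by positivity) (le_trans ?_ hmge)
    exact Real.rpow_le_rpow_of_exponent_le (by linarith) h1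
  have hB : M0 ^ 2 * (Y * (D : ℝ) ^ 2) / m ^ 2 ≤ (D : ℝ) ^ (-τ) := by
    rw [div_le_iff₀ (by positivity)]
    have h7 : M0 ^ 2 * (Y * (D : ℝ) ^ 2) ≤ (D : ℝ) ^ (-(2 * (c - ρ)) + (1 + ρ) + 2) := by
      have h8 : M0 ^ 2 = (D : ℝ) ^ (-(2 * (c - ρ))) := by
        rw [hM0, ← Real.rpow_natCast, ← Real.rpow_mul hD0.le]
        congr 1
        push_cast
        ring
      have h9 : (D : ℝ) ^ 2 = (D : ℝ) ^ (2 : ℝ) := by
        rw [← Real.rpow_natCast]
        norm_num
      rw [h8, h9, Real.rpow_add hD0, Real.rpow_add hD0, mul_assoc]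
      gcongr
    have h8 : ((D : ℝ) ^ (2 - c - 3 * ρ)) ^ 2 ≤ m ^ 2 := by gcongr
    have h9 : ((D : ℝ) ^ (2 - c - 3 * ρ)) ^ 2 = (D : ℝ) ^ (2 * (2 - c - 3 * ρ)) := by
      rw [← Real.rpow_natCast, ← Real.rpow_mul hD0.le]
      congr 1
      push_cast
      ring
    calc _ ≤ _ := h7
      _ ≤ (D : ℝ) ^ (-τ + 2 * (2 - c - 3 * ρ)) :=
          Real.rpow_le_rpow_of_exponent_le (by linarith) (by linarith)
      _ = (D : ℝ) ^ (-τ) * ((D : ℝ) ^ (2 - c - 3 * ρ)) ^ 2 := by rw [h9, Real.rpow_add hD0]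
      _ ≤ _ := by gcongr
  have hC : (D * (2 * D) ^ 2 * M0 ^ 2) / (m / 4) ≤ 16 * (D : ℝ) ^ (-τ) := by
    rw [div_le_iff₀ (by positivity)]
    have h8 : M0 ^ 2 = (D : ℝ) ^ (-(2 * (c - ρ))) := by
      rw [hM0, ← Real.rpow_natCast, ← Real.rpow_mul hD0.le]
      congr 1
      push_cast
      ring
    have h9 : (D : ℝ) * (2 * D) ^ 2 * M0 ^ 2 = 4 * (D : ℝ) ^ (3 + -(2 * (c - ρ))) := by
      rw [h8, Real.rpow_add hD0]
      have : (D : ℝ) ^ (3 : ℝ) = D ^ 3 := by
        rw [← Real.rpow_natCast]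
        norm_num
      rw [this]
      ring
    rw [h9]
    have h10 : (D : ℝ) ^ (3 + -(2 * (c - ρ))) ≤ (D : ℝ) ^ (-τ) * m := by
      calc (D : ℝ) ^ (3 + -(2 * (c - ρ))) ≤ (D : ℝ) ^ (-τ + (2 - c - 3 * ρ)) :=
            Real.rpow_le_rpow_of_exponent_le (by linarith) (by linarith)
        _ = (D : ℝ) ^ (-τ) * (D : ℝ) ^ (2 - c - 3 * ρ) := Real.rpow_add hD0 _ _
        _ ≤ _ := by gcongr
    linarith
  linarith

end

end Pool.Agent.T2H53.CG
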