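import Pool.Agent.T2H53.CG.M

set_option autoImplicit false

/-! # The number of the prime moduli with a large ratio -/

open Finset Filter Topology MeasureTheory ProbabilityTheory
open Pool.Agent.T2H32.BF (V V_pos V_anti V_ratio mertens pnt)
open Pool.Agent.T2H32.GM (Rg Vinv_anti level V_le_one tlog one_sub_ge)
open Pool.Agent.T2H53.GW (HF real_compl_HF some_empty_le bc measurable_HF)

namespace Pool.Agent.T2H53.CG

open Classical in
/-- prime moduli up to `x` with ratio at least `c` -/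
noncomputable def NN (R : Set ℕ) (c : ℝ) (x : ℕ) : ℕ :=
  ((Icc 1 x).filter fun d => d.Prime ∧ c ≤ ratio R d).card

theorem NN_mono_c (R : Set ℕ) (c c' : ℝ) (h : c ≤ c') (x : ℕ) : NN R c' x ≤ NN R c x := by
  classical
  unfold NN
  refine card_le_card fun d hd => ?_
  rw [mem_filter] at hd ⊢
  exact ⟨hd.1, hd.2.1, h.trans hd.2.2⟩

section

variable (T : ℕ → ℕ) (hT : Monotone T)
  (hlog : Tendsto (fun n : ℕ => Real.log (T n) / Real.log n) atTop (𝓝 0))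
  (hll : Tendsto (fun k : ℕ => Real.log (T k) / Real.log (Real.log k)) atTop (𝓝 0))
  {Ω : Type*} [MeasurableSpace Ω] {μ : Measure Ω} [IsProbabilityMeasure μ] {S : ℕ → Set Ω}

include hT hlog hll in
/-- lower bound -/
theorem count_low (hm : ∀ n, MeasurableSet (S n)) (hi : iIndepSet S μ)
    (hp : ∀ n, μ.real (S n) = q T n) (c ρ : ℝ) (hc : 1 < c) (hρ : 0 < ρ)
    (h1 : 4 * ρ < 2 - c) (h3 : 5 * ρ < c - 1) :
    ∀ᵐ ω ∂μ, ∀ᶠ x : ℕ in atTop, (x : ℝ) ^ (2 - c - 4 * ρ) ≤ NN {n | ω ∈ S n} c x := by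
  classical
  set τ := min (2 - c - 3 * ρ) (min (1 - 9 * ρ) (c - 1 - 5 * ρ)) with hτ
  have hτ0 : 0 < τ := lt_min (by linarith) (lt_min (by linarith) (by linarith))
  have t1 : τ ≤ 2 - c - 3 * ρ := min_le_left _ _
  have t2 : τ ≤ 1 - 9 * ρ := (min_le_right _ _).trans (min_le_left _ _)
  have t3 : τ ≤ c - 1 - 5 * ρ := (min_le_right _ _).trans (min_le_right _ _)
  have hlow := lowM T hT hlog hll hm hi hp c ρ τ hc hρ (by linarith) t1 t2 t3
  have h2pow : Tendsto (fun j : ℕ => 2 ^ j) atTop (atTop : Filter ℕ) := tendsto_pow_atTop_atTop_of_one_lt (by norm_num)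
  obtain ⟨j₀, hj₀⟩ := eventually_atTop.1 (h2pow.eventually hlow)
  have hgeo : Summable fun j : ℕ => 24 * ((2 : ℝ) ^ (-τ)) ^ j := by
    refine (summable_geometric_of_lt_one (by positivity) ?_).mul_left 24
    exact Real.rpow_lt_one_of_one_lt_of_neg (by norm_num) (by linarith)
  have hbc := bc (μ := μ) (fun j => {ω | ((ND S c (2 ^ j) ω).card : ℝ) < ((2 ^ j : ℕ) : ℝ) ^ (2 - c - 3 * ρ) / 4}) j₀
    (fun j : ℕ => 24 * ((2 : ℝ) ^ (-τ)) ^ j) hgeo (by
      intro j hj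
      refine (hj₀ j hj).trans (le_of_eq ?_)
      congr 1
      push_cast
      rw [← Real.rpow_natCast, ← Real.rpow_mul (by norm_num), ← Real.rpow_natCast, ← Real.rpow_mul (by norm_num)]
      congr 1
      ring)
  filter_upwards [hbc, all_classes T hlog hm hi hp] with ω hω hne
  obtain ⟨j₁, hj₁⟩ := eventually_atTop.1 hω
  have hlam : 0 < 2 - c - 3 * ρ := by linarith
  filter_upwards [eventually_ge_atTop (2 ^ (j₁ + 2)),
    (dpow_atTop ρ hρ).eventually_ge_atTop (4 * (4 : ℝ) ^ (2 - c - 3 * ρ))] with x hx1 hx2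
  have hx4 : 4 ≤ x := le_trans (by
    calc 4 = 2 ^ 2 := by norm_num
      _ ≤ 2 ^ (j₁ + 2) := Nat.pow_le_pow_right (by norm_num) (by omega)) hx1
  have hx0 : (0 : ℝ) < x := by
    have : 0 < x := by omega
    exact_mod_cast this
  have hlg1 : 2 ^ (Nat.log 2 x) ≤ x := Nat.pow_log_le_self 2 (by omega)
  have hlg2 : x < 2 ^ (Nat.log 2 x + 1) := Nat.lt_pow_succ_log_self (by norm_num) x
  have hlgj : j₁ + 2 ≤ Nat.log 2 x := (Nat.le_log_iff_pow_le (by norm_num) (by omega)).2 hx1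
  obtain ⟨j, hj⟩ : ∃ j, Nat.log 2 x = j + 1 := ⟨Nat.log 2 x - 1, by omega⟩
  rw [hj] at hlg1 hlg2 hlgj
  have hjb := hj₁ j (by omega)
  have hjb' : ((2 ^ j : ℕ) : ℝ) ^ (2 - c - 3 * ρ) / 4 ≤ ((ND S c (2 ^ j) ω).card : ℝ) := not_lt.1 hjb
  have hsub : (ND S c (2 ^ j) ω).card ≤ NN {n | ω ∈ S n} c x := by
    unfold NN
    refine card_le_card fun d hd => ?_
    unfold ND at hd
    rw [mem_filter, mem_filter, mem_Ioc] at hd
    obtain ⟨⟨⟨k1, k2⟩, k3⟩, a, ha, k4⟩ := hd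
    rw [mem_filter, mem_Icc]
    obtain ⟨l1, l2, l3⟩ := U_pos ha
    refine ⟨⟨by omega, ?_⟩, k3, ?_⟩
    · calc d ≤ 2 * 2 ^ j := k2
        _ = 2 ^ (j + 1) := by ring
        _ ≤ x := hlg1
    · exact (ratio_gt k3 l1 l2 c (hne d a k3.pos
        (Nat.Coprime.symm (Nat.coprime_of_lt_prime (by omega) l2 k3))) k4).le
  have hsub' : ((ND S c (2 ^ j) ω).card : ℝ) ≤ NN {n | ω ∈ S n} c x := by exact_mod_cast hsub
  refine le_trans ?_ (hjb'.trans hsub')
  have hx4' : (x : ℝ) / 4 ≤ ((2 ^ j : ℕ) : ℝ) := by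
    rw [div_le_iff₀ (by norm_num)]
    have : x ≤ 2 ^ j * 4 := by
      calc x ≤ 2 ^ (j + 1 + 1) := hlg2.le
        _ = 2 ^ j * 4 := by ring
    exact_mod_cast this
  have h5 : (x : ℝ) ^ (2 - c - 4 * ρ) * (x : ℝ) ^ ρ = (x : ℝ) ^ (2 - c - 3 * ρ) := by
    rw [← Real.rpow_add hx0]
    congr 1
    ring
  have h6 : ((x : ℝ) / 4) ^ (2 - c - 3 * ρ) ≤ ((2 ^ j : ℕ) : ℝ) ^ (2 - c - 3 * ρ) :=
    Real.rpow_le_rpow (by positivity) hx4' hlam.le
  rw [Real.div_rpow hx0.le (by norm_num)] at h6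
  have h7 : 0 < (4 : ℝ) ^ (2 - c - 3 * ρ) := by positivity
  have h8 : (x : ℝ) ^ (2 - c - 4 * ρ) ≤ (x : ℝ) ^ (2 - c - 3 * ρ) / (4 * (4 : ℝ) ^ (2 - c - 3 * ρ)) := by
    rw [le_div_iff₀ (by positivity), ← h5]
    gcongr
  calc (x : ℝ) ^ (2 - c - 4 * ρ) ≤ (x : ℝ) ^ (2 - c - 3 * ρ) / (4 * (4 : ℝ) ^ (2 - c - 3 * ρ)) := h8
    _ = (x : ℝ) ^ (2 - c - 3 * ρ) / (4 : ℝ) ^ (2 - c - 3 * ρ) / 4 := by field_simp
    _ ≤ _ := by gcongr

include hT hlog hll in
/-- upper bound -/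
theorem count_up (hm : ∀ n, MeasurableSet (S n)) (hi : iIndepSet S μ)
    (hp : ∀ n, μ.real (S n) = q T n) (c ρ : ℝ) (hρ : 0 < ρ) (hc : 1 + 2 * ρ < c) (hc2 : c < 2) :
    ∀ᵐ ω ∂μ, ∀ᶠ x : ℕ in atTop, (NN {n | ω ∈ S n} c x : ℝ) ≤ (x : ℝ) ^ (2 - c + 4 * ρ) := by
  classical
  set c' := c - ρ with hc'
  have hc'0 : 0 < c' := by linarith
  set A : ℕ → Set Ω := fun d => if d.Prime then ⋃ a ∈ Ico 1 d, EE S c' d a else ∅ with hA
  have hAm : ∀ d, MeasurableSet (A d) := by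
    intro d
    simp only [hA]
    split_ifs
    · exact Finset.measurableSet_biUnion _ fun a _ => (measurable_HF hm _).compl
    · exact MeasurableSet.empty
  have hAle : ∀ᶠ d : ℕ in atTop, μ.real (A d) ≤ (d : ℝ) ^ (1 - (c' - ρ)) := by
    filter_upwards [prob_le T hT hlog hll hm hi hp c' ρ hc'0 hρ, eventually_ge_atTop 1] with d h1 h2
    have hd0 : (0 : ℝ) < d := by exact_mod_cast h2
    simp only [hA]
    split_ifs with hd
    · refine (measureReal_biUnion_finset_le _ _).trans ?_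
      have h3 : ∀ a ∈ Ico 1 d, μ.real (EE S c' d a) ≤ (d : ℝ) ^ (-(c' - ρ)) := fun a ha => by
        rw [mem_Ico] at ha
        exact h1 hd a ha.1 ha.2
      refine (sum_le_sum h3).trans ?_
      rw [sum_const, Nat.card_Ico, nsmul_eq_mul]
      calc ((d - 1 : ℕ) : ℝ) * (d : ℝ) ^ (-(c' - ρ)) ≤ (d : ℝ) * (d : ℝ) ^ (-(c' - ρ)) := by
            gcongr
            exact_mod_cast Nat.sub_le d 1
        _ = (d : ℝ) ^ (1 - (c' - ρ)) := by
            have h4 : 1 - (c' - ρ) = 1 + (-(c' - ρ)) := by ring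
            rw [h4, Real.rpow_add hd0, Real.rpow_one]
    · rw [measureReal_empty]
      positivity
  have hsum : Summable fun k : ℕ => ((k : ℝ) + 1) ^ (-(2 - c + 3 * ρ)) * μ.real (A k) := by
    have h1 : Summable (fun k : ℕ => (k : ℝ) ^ (-(1 + ρ))) := Real.summable_nat_rpow.2 (by linarith)
    refine summable_of_isBigO_nat h1 ?_
    refine Asymptotics.IsBigO.of_bound 1 ?_
    filter_upwards [hAle, eventually_ge_atTop 1] with k h2 h3
    have hk0 : (0 : ℝ) < k := by exact_mod_cast h3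
    have hf0 : 0 ≤ ((k : ℝ) + 1) ^ (-(2 - c + 3 * ρ)) * μ.real (A k) := by positivity
    rw [Real.norm_of_nonneg hf0, Real.norm_of_nonneg (by positivity), one_mul]
    calc ((k : ℝ) + 1) ^ (-(2 - c + 3 * ρ)) * μ.real (A k) ≤
        (k : ℝ) ^ (-(2 - c + 3 * ρ)) * (k : ℝ) ^ (1 - (c' - ρ)) := by
          have : ((k : ℝ) + 1) ^ (-(2 - c + 3 * ρ)) ≤ (k : ℝ) ^ (-(2 - c + 3 * ρ)) :=
            Real.rpow_le_rpow_of_nonpos hk0 (by linarith) (by linarith)
          gcongr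
      _ = _ := by
          rw [← Real.rpow_add hk0]
          congr 1
          rw [hc']
          ring
  filter_upwards [count_ae A hAm (2 - c + 3 * ρ) (by linarith) hsum] with ω hω
  obtain ⟨C, hC⟩ := hω
  filter_upwards [eventually_ge_atTop 1,
    (dpow_atTop ρ hρ).eventually_ge_atTop (C * (2 : ℝ) ^ (2 - c + 3 * ρ))] with x hx1 hx2
  have hx0 : (0 : ℝ) < x := by exact_mod_cast hx1
  have hxx : (1 : ℝ) ≤ x := by exact_mod_cast hx1
  have h1 : (NN {n | ω ∈ S n} c x : ℝ) ≤ cnt (range (x + 1)) A ω := by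
    rw [cnt_eq]
    have : NN {n | ω ∈ S n} c x ≤ ((range (x + 1)).filter (fun i => ω ∈ A i)).card := by
      unfold NN
      refine card_le_card fun d hd => ?_
      rw [mem_filter, mem_Icc] at hd
      obtain ⟨⟨k1, k2⟩, k3, k4⟩ := hd
      rw [mem_filter, mem_range]
      refine ⟨by omega, ?_⟩
      simp only [hA, if_pos k3]
      by_contra hcon
      have h5 : ratio {n | ω ∈ S n} d ≤ c' := by
        refine ratio_le k3 c' hc'0 fun a ha1 had => ?_
        by_contra h6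
        apply hcon
        simp only [Set.mem_iUnion]
        exact ⟨a, mem_Ico.2 ⟨ha1, had⟩, h6⟩
      linarith
    exact_mod_cast this
  refine h1.trans ((hC x).trans ?_)
  have hC0 : 0 ≤ C := by
    have h5 := hC 0
    have h6 := cnt_nonneg (range (0 + 1)) A ω
    rw [Nat.cast_zero, zero_add, zero_add, Real.one_rpow, mul_one] at h5
    rw [zero_add] at h6
    linarith
  have h7 : ((x : ℝ) + 1) ^ (2 - c + 3 * ρ) ≤ (2 * x) ^ (2 - c + 3 * ρ) :=
    Real.rpow_le_rpow (by positivity) (by linarith) (by linarith)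
  calc C * ((x : ℝ) + 1) ^ (2 - c + 3 * ρ) ≤ C * (2 * x) ^ (2 - c + 3 * ρ) := by gcongr
    _ = (C * (2 : ℝ) ^ (2 - c + 3 * ρ)) * (x : ℝ) ^ (2 - c + 3 * ρ) := by
        rw [Real.mul_rpow (by norm_num) hx0.le]
        ring
    _ ≤ (x : ℝ) ^ ρ * (x : ℝ) ^ (2 - c + 3 * ρ) := by gcongr
    _ = (x : ℝ) ^ (2 - c + 4 * ρ) := by
        rw [← Real.rpow_add hx0]
        congr 1
        ring

end

end Pool.Agent.T2H53.CG
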